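import Pool.Agent.Q152.TC.Main
import Pool.Agent.Q152.TA.Comm

/-!
# Unbalanced elements and amalgamated products
-/

set_option autoImplicit false
set_option linter.unusedSectionVars false

namespace Pool.Agent.Q152.TC

open SimpleGraph Pool.Agent.Y462.SS Pool.Agent.Q152.WP Pool.Agent.Q152.TA Pool.Agent.Q91.FJ

variable {V Γ : Type} [Group Γ] [MulAction Γ V] {T : SimpleGraph V}
variable {C : ∀ (G : Type) [Group G], Prop}

theorem zpow_inj' {c : Γ} (hc : ¬ IsOfFinOrder c) {p q : ℤ} (h : c ^ p = c ^ q) : p = q :=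
  injective_zpow_iff_not_isOfFinOrder.2 hc h

theorem Bal.of_pow {c : Γ} {j : ℤ} (h : Bal (c ^ j)) : Bal c := by
  intro g p q hp h1
  refine h g p q hp ?_
  rw [← zpow_mul, mul_comm, zpow_mul, ← conj_zpow, h1, ← zpow_mul, ← zpow_mul, mul_comm]

theorem cmm_pow {c : Γ} {j : ℤ} (hj : j ≠ 0) : Cmm (c ^ j) = Cmm c := by
  ext g
  constructor
  · rintro ⟨p, q, hp, hq, h⟩
    rw [← zpow_mul, ← zpow_mul] at h
    exact ⟨j * p, j * q, mul_ne_zero hj hp, mul_ne_zero hj hq, h⟩
  · rintro ⟨p, q, hp, hq, h⟩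
    refine ⟨p, q, hp, hq, ?_⟩
    rw [← zpow_mul, mul_comm, zpow_mul, ← conj_zpow, h, ← zpow_mul, ← zpow_mul, mul_comm]

/-- virtually cyclic groups have virtual characters -/
theorem VCyc.rk {K : Subgroup Γ} (h : VCyc K) {z : Γ} (hz : z ∈ K) (hz' : ¬ IsOfFinOrder z) :
    Rk 1 K := by
  classical
  let χ : Γ → ℚ := fun x => if h : ∃ k : ℤ, z ^ k = x then (h.choose : ℚ) else 0
  have hχ : ∀ k : ℤ, χ (z ^ k) = k := by
    intro k
    have h1 : ∃ k' : ℤ, z ^ k' = z ^ k := ⟨k, rfl⟩
    have h2 : h1.choose = k := zpow_inj' hz' h1.choose_spec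
    change (if h : ∃ k' : ℤ, z ^ k' = z ^ k then (h.choose : ℚ) else 0) = k
    rw [dif_pos h1, h2]
  refine ⟨Subgroup.zpowers z, ⊥, χ, by rwa [Subgroup.zpowers_le], h.relIndex hz hz', ?_, ?_, ?_⟩
  · rintro _ ⟨a, rfl⟩ _ ⟨b, rfl⟩
    change χ (z ^ a * z ^ b) = χ (z ^ a) + χ (z ^ b)
    rw [← zpow_add, hχ, hχ, hχ]
    push_cast
    rfl
  · intro x
    rw [Subgroup.mem_bot]
    constructor
    · rintro rfl
      refine ⟨one_mem _, ?_⟩
      have := hχ 0
      rwa [zpow_zero, Int.cast_zero] at this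
    · rintro ⟨⟨k, rfl⟩, hk⟩
      change χ (z ^ k) = 0 at hk
      rw [hχ] at hk
      have : k = 0 := by exact_mod_cast hk
      change z ^ k = 1
      rw [this, zpow_zero]
  · intro N' hN'
    have hb : N' = ⊥ := le_bot_iff.1 hN'
    subst hb
    refine ⟨⊥, le_rfl, ?_, ?_, ?_, ?_⟩
    · rw [Subgroup.relIndex_self]
      exact one_ne_zero
    · intro a ha b hb
      rw [Subgroup.mem_bot.1 ha, Subgroup.mem_bot.1 hb]
    · intro n _ a ha
      exact ⟨1, one_mem _, by rw [Subgroup.mem_bot.1 ha, one_pow]⟩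
    · intro a ha
      exact ⟨1, one_ne_zero, by rw [Subgroup.mem_bot.1 ha, one_pow]⟩

section

variable (hvc : ∀ x y : V, T.Adj x y → VCyc (St Γ x y))
variable (hadj : ∀ (γ : Γ) (x y : V), T.Adj x y → T.Adj (γ • x) (γ • y))

include hvc hadj in
/-- commensurators of elements with virtually cyclic commensurators in the vertex stabilizers -/
theorem cmm_mem (hC : Closed C) (hE : ExtClosed C) (hS : HasSolvable C) (hT : T.IsTree)
    (hv : ∀ v : V, C (MulAction.stabilizer Γ v)) (d : T.Dart) {c : Γ}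
    (hc : c ∈ St Γ d.fst d.snd) (hc' : ¬ IsOfFinOrder c)
    (hcv : ∀ (v : V) (j : ℤ), j ≠ 0 → c ^ j • v = v → VCyc (Cmm c ⊓ MulAction.stabilizer Γ v)) :
    C (Cmm c) := by
  let r := rel Γ T hvc
  have hr : Conv T r := rel_conv hvc hT hadj
  let Y : Quotient r := Quotient.mk r d
  let W : Set V := {v | Inc r v Y}
  have hsupp : ∀ {a b : V} (w : T.Walk a b), a ∈ W → (∀ e ∈ w.darts, Quotient.mk r e = Y) →
      ∀ z ∈ w.support, z ∈ W := by
    intro a b w
    induction w with
    | nil =>
      intro ha _ z hz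
      rw [Walk.support_nil, List.mem_singleton] at hz
      rw [hz]
      exact ha
    | @cons a b c hab p ih =>
      intro ha hd z hz
      rw [Walk.support_cons, List.mem_cons] at hz
      rcases hz with rfl | hz
      · exact ha
      · refine ih ?_ (fun e he => hd e (by rw [Walk.darts_cons]; exact List.mem_cons_of_mem _ he)) z hz
        have h1 : Quotient.mk r ⟨(a, b), hab⟩ = Y :=
          hd _ (by rw [Walk.darts_cons]; exact List.mem_cons_self ..)
        exact ⟨(⟨(a, b), hab⟩ : T.Dart).symm, rfl, (Quotient.sound (hr.symm _)).trans h1⟩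
  have hW : (T.induce W).IsTree := by
    refine ⟨?_, hT.isAcyclic.induce W⟩
    have : Nonempty W := ⟨⟨d.fst, d, rfl, rfl⟩⟩
    refine ⟨fun x y => ?_⟩
    obtain ⟨e, he, he'⟩ := x.2
    obtain ⟨f, hf, hf'⟩ := y.2
    obtain ⟨w, hw, _⟩ := hT.existsUnique_path e.fst f.fst
    have h1 : ∀ z ∈ w.support, z ∈ W := hsupp w ⟨e, rfl, he'⟩ (fun a ha => by
      rw [← he']
      exact Quotient.sound (hr.conv e f (Quotient.exact (he'.trans hf'.symm)) w hw a ha))
    have h2 : (T.induce W).Reachable ⟨e.fst, h1 _ w.start_mem_support⟩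
      ⟨f.fst, h1 _ w.end_mem_support⟩ := ⟨w.induce W h1⟩
    have h3 : x = ⟨e.fst, h1 _ w.start_mem_support⟩ := Subtype.ext he.symm
    have h4 : y = ⟨f.fst, h1 _ w.end_mem_support⟩ := Subtype.ext hf.symm
    rw [h3, h4]
    exact h2
  have hinv : ∀ g ∈ Cmm c, ∀ v ∈ W, g • v ∈ W := by
    rintro g ⟨p, q, hp, hq, h⟩ v ⟨e, rfl, he⟩
    refine ⟨dsm hadj g e, rfl, ?_⟩
    have h1 : r (dsm hadj g e) (dsm hadj g d) := dsm_rel hvc hadj g (Quotient.exact he)
    have h2 : r (dsm hadj g d) d := by
      refine Or.inr ⟨c ^ q, zpow_inf hc' hq, ?_, zpow_mem hc q⟩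
      change c ^ q ∈ St Γ (g • d.fst) (g • d.snd)
      rw [St_smul, ← h]
      exact ⟨c ^ p, zpow_mem hc p, rfl⟩
    exact (Quotient.sound h1).trans (Quotient.sound h2)
  have hfixc : ∀ v ∈ W, ∃ j : ℤ, j ≠ 0 ∧ c ^ j • v = v := by
    rintro v ⟨e, rfl, he⟩
    rcases (Quotient.exact he : r e d) with h | ⟨g, hg, h1, h2⟩
    · refine ⟨1, one_ne_zero, ?_⟩
      rw [← St_edge (Γ := Γ) h] at hc
      rw [zpow_one]
      exact hc.1
    · obtain ⟨i, j, hi, hj, hij⟩ := (hvc _ _ d.adj).common h2 hc hg hc'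
      refine ⟨j, hj, ?_⟩
      have h3 : c ^ j ∈ St Γ e.fst e.snd := by
        rw [← hij]
        exact zpow_mem h1 i
      exact h3.1
  let M : Subgroup Γ := Cmm c
  have hcM : ∀ j : ℤ, c ^ j ∈ M := by
    intro j
    refine ⟨1, 1, one_ne_zero, one_ne_zero, ?_⟩
    have : Commute (c ^ j) (c ^ (1 : ℤ)) := Commute.zpow_zpow_self c j 1
    rw [this.eq, mul_inv_cancel_right]
  let act : MulAction M W :=
    { smul := fun g v => ⟨g.1 • v.1, hinv g.1 g.2 v.1 v.2⟩
      one_smul := fun w => Subtype.ext (one_smul Γ w.1)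
      mul_smul := fun h h' w => Subtype.ext (mul_smul h.1 h'.1 w.1) }
  have hst : ∀ w : W, MulAction.stabilizer M w =
      (M ⊓ MulAction.stabilizer Γ (w : V)).comap M.subtype := by
    intro w
    ext h
    constructor
    · intro h1
      exact ⟨h.2, Subtype.ext_iff.1 h1⟩
    · intro h1
      exact Subtype.ext h1.2
  have hVC : ∀ w : W, VCyc (MulAction.stabilizer M w) := by
    intro w
    obtain ⟨j, hj, hj'⟩ := hfixc w.1 w.2
    rw [hst]
    exact (hcv w.1 j hj hj').comap M.subtype M.subtype_injective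
  let f : M →* Unit := 1
  have hf : ∀ w : W, f.ker ⊓ MulAction.stabilizer M w = MulAction.stabilizer M w := by
    intro w
    refine inf_eq_right.2 (fun x _ => ?_)
    exact MonoidHom.mem_ker.2 rfl
  have hcomm : ∀ v w : W, ∃ z : M, ¬ IsOfFinOrder z ∧ z ∈ MulAction.stabilizer M v ∧
      z ∈ MulAction.stabilizer M w := by
    intro v w
    obtain ⟨j, hj, hj'⟩ := hfixc v.1 v.2
    obtain ⟨k, hk, hk'⟩ := hfixc w.1 w.2
    refine ⟨⟨c ^ (j * k), hcM _⟩, ?_, ?_, ?_⟩
    · intro h
      exact zpow_inf hc' (mul_ne_zero hj hk)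
        ((isOfFinOrder_iff_of_inj M.subtype M.subtype_injective).2 h)
    · have h1 : c ^ (j * k) ∈ MulAction.stabilizer Γ v.1 := by
        rw [zpow_mul]
        exact zpow_mem (show c ^ j ∈ MulAction.stabilizer Γ v.1 from hj') k
      exact Subtype.ext h1
    · have h1 : c ^ (j * k) ∈ MulAction.stabilizer Γ w.1 := by
        rw [mul_comm, zpow_mul]
        exact zpow_mem (show c ^ k ∈ MulAction.stabilizer Γ w.1 from hk') j
      exact Subtype.ext h1
  refine tree_comm' (Γ := M) (T := T.induce W) hW (fun g x y h => hadj g.1 x.1 y.1 h) hC hE hS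
    (Q := Unit) (Pool.Agent.Y430.SS.of_finite hC _ inferInstance) f ?_ ?_
  · intro x
    let j : MulAction.stabilizer M x →* MulAction.stabilizer Γ (x : V) :=
      (M.subtype.comp (MulAction.stabilizer M x).subtype).codRestrict _
        (fun h => ((hst x).le h.2).2)
    refine hC.of_injective _ _ j ?_ (hv x)
    intro a b hab
    have h2 : (j a).1 = (j b).1 := by rw [hab]
    exact Subtype.ext (Subtype.ext h2)
  · intro v w _
    right
    rw [hf, hf]
    obtain ⟨z, hz, hzv, hzw⟩ := hcomm v w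
    have hlev : Subgroup.zpowers z ≤ MulAction.stabilizer M v := by rwa [Subgroup.zpowers_le]
    have hlew : Subgroup.zpowers z ≤ MulAction.stabilizer M w := by rwa [Subgroup.zpowers_le]
    refine ⟨⟨?_, ?_⟩, 1, (hVC v).rk hzv hz⟩
    · intro h
      apply (hVC w).relIndex hzw hz
      exact Nat.eq_zero_of_zero_dvd (h ▸ Subgroup.relIndex_dvd_of_le_left _ hlev)
    · intro h
      apply (hVC v).relIndex hzv hz
      exact Nat.eq_zero_of_zero_dvd (h ▸ Subgroup.relIndex_dvd_of_le_left _ hlew)

/-- **Amalgamated products of balanced groups.** -/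
theorem bal_amalgam (hT : T.IsTree)
    (hadj : ∀ (γ : Γ) (x y : V), T.Adj x y → T.Adj (γ • x) (γ • y))
    (hvc : ∀ x y : V, T.Adj x y → VCyc (St Γ x y)) {x₀ y₀ : V} (h₀ : T.Adj x₀ y₀)
    (horb : ∀ x y : V, T.Adj x y →
      ∃ g : Γ, (g • x₀ = x ∧ g • y₀ = y) ∨ (g • x₀ = y ∧ g • y₀ = x))
    (hne : ∀ g : Γ, g • x₀ ≠ y₀)
    (hb : ∀ v : V, v = x₀ ∨ v = y₀ → ∀ c ∈ St Γ x₀ y₀, ¬ IsOfFinOrder c →
      ∀ g ∈ MulAction.stabilizer Γ v, ∀ p q : ℤ, p ≠ 0 → g * c ^ p * g⁻¹ = c ^ q →
        q = p ∨ q = -p) :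
    ∀ x y : V, T.Adj x y → ∀ c ∈ St Γ x y, ¬ IsOfFinOrder c → Bal c := by
  -- elements of the fixed edge
  have key : ∀ c ∈ St Γ x₀ y₀, ¬ IsOfFinOrder c → Bal c := by
    intro c hc hc'
    let B : Subgroup Γ :=
      { carrier := {g | ∃ k : ℤ, k ≠ 0 ∧ (g * c ^ k * g⁻¹ = c ^ k ∨ g * c ^ k * g⁻¹ = c ^ (-k))}
        one_mem' := ⟨1, one_ne_zero, Or.inl (by group)⟩
        mul_mem' := by
          rintro a b ⟨k, hk, h⟩ ⟨l, hl, h'⟩
          refine ⟨k * l, mul_ne_zero hk hl, ?_⟩
          have e1 : ∀ (x : Γ) (s t u : ℤ), x * c ^ s * x⁻¹ = c ^ t → x * c ^ (s * u) * x⁻¹ =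
              c ^ (t * u) := by
            intro x s t u hx
            rw [zpow_mul, ← conj_zpow, hx, ← zpow_mul]
          have e2 : ∀ s : ℤ, a * b * c ^ s * (a * b)⁻¹ = a * (b * c ^ s * b⁻¹) * a⁻¹ := by
            intro s
            group
          rw [e2]
          rcases h' with h' | h'
          · have h3 := e1 b l l k h'
            rw [mul_comm k l, h3]
            rcases h with h | h
            · left
              have h4 := e1 a k k l h
              rw [mul_comm l k, h4]
            · right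
              have h4 := e1 a k (-k) l h
              rw [mul_comm l k, h4]
              congr 1
              ring
          · have h3 := e1 b l (-l) k h'
            rw [mul_comm k l, h3]
            rcases h with h | h
            · right
              have h4 := e1 a k k (-l) h
              rw [show -l * k = k * -l by ring, h4]
              congr 1
              ring
            · left
              have h4 := e1 a k (-k) (-l) h
              rw [show -l * k = k * -l by ring, h4]
              congr 1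
              ring
        inv_mem' := by
          rintro a ⟨k, hk, h | h⟩
          · refine ⟨k, hk, Or.inl ?_⟩
            nth_rewrite 1 [← h]
            group
          · refine ⟨-k, neg_ne_zero.2 hk, Or.inr ?_⟩
            rw [← h, neg_neg]
            group }
    have hB : ∀ v : V, v = x₀ ∨ v = y₀ → ∀ g ∈ MulAction.stabilizer Γ v, g ∈ Cmm c → g ∈ B := by
      rintro v hv g hg ⟨p, q, hp, hq, h⟩
      refine ⟨p, hp, ?_⟩
      rcases hb v hv c hc hc' g hg p q hp h with h1 | h1
      · left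
        rw [h, h1]
      · right
        rw [h, h1]
    -- translates of the edge fixed by a power of `c`
    have hD : ∀ (g : Γ) (q : ℤ), q ≠ 0 → c ^ q ∈ St Γ (g • x₀) (g • y₀) → g ∈ Cmm c := by
      intro g q hq h
      rw [St_smul] at h
      obtain ⟨k, hk, hk'⟩ := h
      have hk0 : ¬ IsOfFinOrder k := by
        intro h1
        apply zpow_inf hc' hq
        rw [← hk']
        exact (isOfFinOrder_iff_of_inj (MulAut.conj g).toMonoidHom (MulAut.conj g).injective).2 h1
      obtain ⟨i, j, hi, hj, hij⟩ := (hvc _ _ h₀).common hk hc hk0 hc'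
      refine ⟨j, q * i, hj, mul_ne_zero hq hi, ?_⟩
      rw [← hij, zpow_mul, ← hk']
      change g * k ^ i * g⁻¹ = (g * k * g⁻¹) ^ i
      rw [conj_zpow]
    have hmain : ∀ n : ℕ, ∀ h ∈ Cmm c, T.dist x₀ (h • x₀) ≤ n → h ∈ B := by
      intro n
      induction n using Nat.strong_induction_on with
      | _ n ih =>
        rintro h hh hn
        obtain ⟨w, hwl⟩ := hT.connected.exists_walk_length_eq_dist x₀ (h • x₀)
        have hw : w.IsPath := w.isPath_of_length_eq_dist hwl
        rcases Nat.eq_zero_or_pos w.length with h0 | h0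
        · have h1 : x₀ = h • x₀ := Walk.eq_of_length_eq_zero h0
          exact hB x₀ (Or.inl rfl) h h1.symm hh
        obtain ⟨p, q, hp, hq, hpq⟩ := hh
        have hfx : c ^ q • x₀ = x₀ := zpow_mem (show c ∈ MulAction.stabilizer Γ x₀ from hc.1) q
        have hfy : c ^ q • h • x₀ = h • x₀ := by
          rw [← hpq, ← mul_smul, inv_mul_cancel_right, mul_smul]
          exact congrArg (h • ·) (show c ^ p • x₀ = x₀ from
            zpow_mem (show c ∈ MulAction.stabilizer Γ x₀ from hc.1) p)
        have hfix := fix_path hT hadj w hw hfx hfy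
        -- the last edge
        have a1 : T.Adj (w.getVert (w.length - 1)) (h • x₀) := by
          have := w.adj_getVert_succ (i := w.length - 1) (by omega)
          rwa [show w.length - 1 + 1 = w.length by omega, Walk.getVert_length] at this
        obtain ⟨g, hg⟩ := horb _ _ a1
        have hg' : g • x₀ = h • x₀ ∧ g • y₀ = w.getVert (w.length - 1) := by
          rcases hg with hg | hg
          · exfalso
            apply hne (g⁻¹ * h)
            rw [mul_smul, inv_smul_eq_iff, hg.2]
          · exact hg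
        have hgC : g ∈ Cmm c := by
          refine hD g q hq ⟨?_, ?_⟩
          · rw [hg'.1]
            exact hfy
          · rw [hg'.2]
            exact hfix _ (w.getVert_mem_support _)
        have haB : h⁻¹ * g ∈ B := by
          refine hB x₀ (Or.inl rfl) _ ?_ (mul_mem (inv_mem ⟨p, q, hp, hq, hpq⟩) hgC)
          change (h⁻¹ * g) • x₀ = x₀
          rw [mul_smul, hg'.1, inv_smul_smul]
        -- the length is at least two
        have h2 : 2 ≤ w.length := by
          by_contra hcon
          have h3 : w.length - 1 = 0 := by omega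
          rw [h3, Walk.getVert_zero] at hg'
          apply hne g⁻¹
          rw [inv_smul_eq_iff, hg'.2]
        have a2 : T.Adj (w.getVert (w.length - 2)) (w.getVert (w.length - 1)) := by
          have := w.adj_getVert_succ (i := w.length - 2) (by omega)
          rwa [show w.length - 2 + 1 = w.length - 1 by omega] at this
        obtain ⟨k, hk⟩ := horb _ _ a2
        have hk' : k • x₀ = w.getVert (w.length - 2) ∧ k • y₀ = w.getVert (w.length - 1) := by
          rcases hk with hk | hk
          · exact hk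
          · exfalso
            apply hne (g⁻¹ * k)
            rw [mul_smul, inv_smul_eq_iff, hk.1, hg'.2]
        have hkC : k ∈ Cmm c := by
          refine hD k q hq ⟨?_, ?_⟩
          · rw [hk'.1]
            exact hfix _ (w.getVert_mem_support _)
          · rw [hk'.2]
            exact hfix _ (w.getVert_mem_support _)
        have hbB : g⁻¹ * k ∈ B := by
          refine hB y₀ (Or.inr rfl) _ ?_ (mul_mem (inv_mem hgC) hkC)
          change (g⁻¹ * k) • y₀ = y₀
          rw [mul_smul, hk'.2, ← hg'.2, inv_smul_smul]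
        have hkB : k ∈ B := by
          refine ih (w.length - 2) (by omega) k hkC ?_
          rw [hk'.1]
          refine (dist_le (w.take (w.length - 2))).trans ?_
          rw [Walk.take_length]
          omega
        have h5 : h = k * (g⁻¹ * k)⁻¹ * (h⁻¹ * g)⁻¹ := by group
        rw [h5]
        exact mul_mem (mul_mem hkB (inv_mem hbB)) (inv_mem haB)
    intro g p q hp h
    have hq : q ≠ 0 := by
      rintro rfl
      rw [zpow_zero, mul_inv_eq_one, mul_eq_left] at h
      exact hp (zpow_inj' hc' (h.trans (zpow_zero c).symm))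
    obtain ⟨k, hk, h1⟩ := hmain _ g ⟨p, q, hp, hq, h⟩ le_rfl
    have h2 : g * c ^ (p * k) * g⁻¹ = c ^ (q * k) := by
      rw [zpow_mul, ← conj_zpow, h, ← zpow_mul]
    rcases h1 with h1 | h1
    · left
      have h3 : g * c ^ (p * k) * g⁻¹ = c ^ (p * k) := by
        rw [mul_comm p k, zpow_mul, ← conj_zpow, h1]
      exact mul_right_cancel₀ hk (zpow_inj' hc' (h2.symm.trans h3))
    · right
      have h3 : g * c ^ (p * k) * g⁻¹ = c ^ (-p * k) := by
        rw [mul_comm p k, zpow_mul, ← conj_zpow, h1, ← zpow_mul]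
        congr 1
        ring
      exact mul_right_cancel₀ hk (zpow_inj' hc' (h2.symm.trans h3))
  intro x y hxy c hc hc'
  have hconj : ∀ g : Γ, St Γ x y = St Γ (g • x₀) (g • y₀) → Bal c := by
    intro g hg
    rw [hg, St_smul] at hc
    obtain ⟨b, hb, rfl⟩ := hc
    have hb' : ¬ IsOfFinOrder b := fun h => hc'
      ((isOfFinOrder_iff_of_inj (MulAut.conj g).toMonoidHom (MulAut.conj g).injective).2 h)
    intro u p q hp h
    refine key b hb hb' (g⁻¹ * u * g) p q hp ?_
    change u * (g * b * g⁻¹) ^ p * u⁻¹ = (g * b * g⁻¹) ^ q at h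
    rw [conj_zpow, conj_zpow] at h
    calc g⁻¹ * u * g * b ^ p * (g⁻¹ * u * g)⁻¹ = g⁻¹ * (u * (g * b ^ p * g⁻¹) * u⁻¹) * g := by group
      _ = b ^ q := by rw [h]; group
  obtain ⟨g, hg | hg⟩ := horb x y hxy
  · exact hconj g (by rw [hg.1, hg.2])
  · exact hconj g (by rw [hg.1, hg.2]; exact inf_comm _ _)

end

end Pool.Agent.Q152.TC
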