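import Mathlib

/-!
# Virtually cyclic subgroups
-/

set_option autoImplicit false

namespace Pool.Agent.Q152.TC

variable {G : Type} [Group G]

theorem relIndex_of_cover {N K : Subgroup G} (S : Set G) (hS : S.Finite)
    (h : ∀ x ∈ K, ∃ s ∈ S, s ∈ K ∧ s⁻¹ * x ∈ N) : N.relIndex K ≠ 0 := by
  have hfin : Finite (K ⧸ N.subgroupOf K) := by
    have h1 : Finite {s : K | (s : G) ∈ S} := by
      refine Set.Finite.to_subtype ?_
      exact hS.preimage Subtype.val_injective.injOn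
    refine Finite.of_surjective (fun s : {s : K | (s : G) ∈ S} => (s.1 : K ⧸ N.subgroupOf K)) ?_
    intro q
    induction q using QuotientGroup.induction_on with | H x =>
    obtain ⟨s, hs, hsK, hsx⟩ := h x.1 x.2
    refine ⟨⟨⟨s, hsK⟩, hs⟩, ?_⟩
    rw [QuotientGroup.eq, Subgroup.mem_subgroupOf]
    exact hsx
  exact Subgroup.index_ne_zero_of_finite

theorem relIndex_zpowers (c : G) {i : ℤ} (hi : i ≠ 0) :
    (Subgroup.zpowers (c ^ i)).relIndex (Subgroup.zpowers c) ≠ 0 := by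
  refine relIndex_of_cover ((fun j : ℕ => c ^ (j : ℤ)) '' (Finset.range i.natAbs : Set ℕ))
    (Set.Finite.image _ (Finset.finite_toSet _)) ?_
  rintro _ ⟨k, rfl⟩
  have h0 : 0 ≤ k % i := Int.emod_nonneg k hi
  refine ⟨c ^ (k % i), ⟨(k % i).toNat, ?_, ?_⟩, ⟨k % i, rfl⟩, ⟨k / i, ?_⟩⟩
  · rw [Finset.mem_coe, Finset.mem_range]
    have h1 := Int.emod_lt_abs k hi
    have h2 : |i| = (i.natAbs : ℤ) := Int.abs_eq_natAbs i
    rw [h2] at h1
    change (k % i).toNat < i.natAbs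
    omega
  · simp only [Int.toNat_of_nonneg h0]
  · change (c ^ i) ^ (k / i) = (c ^ (k % i))⁻¹ * c ^ k
    rw [← zpow_mul, ← zpow_neg, ← zpow_add]
    congr 1
    have := Int.emod_add_mul_ediv k i
    linarith

/-- Virtually cyclic subgroups: some cyclic subgroup has finite index. -/
def VCyc (K : Subgroup G) : Prop := ∃ c ∈ K, (Subgroup.zpowers c).relIndex K ≠ 0

theorem zpow_inf {g : G} (hg : ¬ IsOfFinOrder g) {i : ℤ} (hi : i ≠ 0) : ¬ IsOfFinOrder (g ^ i) := by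
  intro h
  obtain ⟨n, hn, h1⟩ := isOfFinOrder_iff_pow_eq_one.1 h
  apply hg
  rw [isOfFinOrder_iff_zpow_eq_one]
  refine ⟨i * n, mul_ne_zero hi (by exact_mod_cast hn.ne'), ?_⟩
  rw [zpow_mul, zpow_natCast]
  exact h1

theorem pow_mem_of_relIndex {N K : Subgroup G} (h : N.relIndex K ≠ 0) {x : G} (hx : x ∈ K) :
    ∃ m : ℕ, 0 < m ∧ x ^ m ∈ N := by
  obtain ⟨m, hm, h1⟩ := Subgroup.exists_pow_mem_of_index_ne_zero (H := N.subgroupOf K) h ⟨x, hx⟩
  exact ⟨m, hm, h1.2⟩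

theorem inf_of_zpow {c : G} {i : ℤ} (h : ¬ IsOfFinOrder (c ^ i)) : i ≠ 0 ∧ ¬ IsOfFinOrder c := by
  constructor
  · rintro rfl
    exact h (by rw [zpow_zero]; exact IsOfFinOrder.one)
  · intro hc
    exact h hc.zpow

theorem VCyc.common {K : Subgroup G} (h : VCyc K) {g k : G} (hg : g ∈ K) (hk : k ∈ K)
    (hg' : ¬ IsOfFinOrder g) (hk' : ¬ IsOfFinOrder k) :
    ∃ i j : ℤ, i ≠ 0 ∧ j ≠ 0 ∧ g ^ i = k ^ j := by
  obtain ⟨c, hc, hi⟩ := h
  obtain ⟨a, ha, ⟨i, hi'⟩⟩ := pow_mem_of_relIndex hi hg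
  obtain ⟨b, hb, ⟨j, hj'⟩⟩ := pow_mem_of_relIndex hi hk
  have h1 : ¬ IsOfFinOrder (c ^ i) := by
    have := zpow_inf hg' (i := a) (by exact_mod_cast ha.ne')
    rw [zpow_natCast, ← hi'] at this
    exact this
  have h2 : ¬ IsOfFinOrder (c ^ j) := by
    have := zpow_inf hk' (i := b) (by exact_mod_cast hb.ne')
    rw [zpow_natCast, ← hj'] at this
    exact this
  refine ⟨a * j, b * i, mul_ne_zero (by exact_mod_cast ha.ne') (inf_of_zpow h2).1,
    mul_ne_zero (by exact_mod_cast hb.ne') (inf_of_zpow h1).1, ?_⟩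
  have h3 : c ^ i = g ^ a := hi'
  have h4 : c ^ j = k ^ b := hj'
  rw [zpow_mul, zpow_mul, zpow_natCast, zpow_natCast, ← h3, ← h4, ← zpow_mul, ← zpow_mul, mul_comm]

theorem VCyc.relIndex {K : Subgroup G} (h : VCyc K) {z : G} (hz : z ∈ K)
    (hz' : ¬ IsOfFinOrder z) : (Subgroup.zpowers z).relIndex K ≠ 0 := by
  obtain ⟨c, hc, hi⟩ := h
  obtain ⟨a, ha, ⟨i, hi'⟩⟩ := pow_mem_of_relIndex hi hz
  have h3 : c ^ i = z ^ a := hi'
  have h1 : ¬ IsOfFinOrder (c ^ i) := by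
    have := zpow_inf hz' (i := a) (by exact_mod_cast ha.ne')
    rw [zpow_natCast, ← h3] at this
    exact this
  have h4 := relIndex_zpowers c (inf_of_zpow h1).1
  have h5 := Subgroup.relIndex_ne_zero_trans h4 hi
  rw [h3] at h5
  have h6 : Subgroup.zpowers (z ^ a) ≤ Subgroup.zpowers z := by
    rw [Subgroup.zpowers_le]
    exact Subgroup.pow_mem _ (Subgroup.mem_zpowers z) a
  intro h7
  apply h5
  exact Nat.eq_zero_of_zero_dvd (h7 ▸ Subgroup.relIndex_dvd_of_le_left K h6)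

theorem VCyc.choose_gen {K : Subgroup G} (h : VCyc K) :
    ∃ c ∈ K, (c = 1 ∨ ¬ IsOfFinOrder c) ∧ (Subgroup.zpowers c).relIndex K ≠ 0 := by
  obtain ⟨c, hc, hi⟩ := h
  by_cases h1 : IsOfFinOrder c
  · refine ⟨1, one_mem _, Or.inl rfl, ?_⟩
    obtain ⟨n, hn, h2⟩ := isOfFinOrder_iff_pow_eq_one.1 h1
    have h3 := relIndex_zpowers c (i := n) (by exact_mod_cast hn.ne')
    rw [zpow_natCast, h2] at h3
    exact Subgroup.relIndex_ne_zero_trans h3 hi
  · exact ⟨c, hc, Or.inr h1, hi⟩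

/-- a subgroup without elements of infinite order -/
theorem tors_relIndex {F K : Subgroup G} (hFK : F ≤ K) {c : G} (hc : c = 1 ∨ ¬ IsOfFinOrder c)
    (hi : (Subgroup.zpowers c).relIndex K ≠ 0) (hF : ∀ x ∈ F, IsOfFinOrder x) :
    (⊥ : Subgroup G).relIndex F ≠ 0 ∧
      (⊥ : Subgroup G).relIndex F ≤ (Subgroup.zpowers c).relIndex K := by
  have h1 : Subgroup.zpowers c ⊓ F = ⊥ := by
    rw [eq_bot_iff]
    rintro _ ⟨⟨k, rfl⟩, hx⟩
    rw [Subgroup.mem_bot]
    change c ^ k = 1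
    rcases hc with rfl | hc
    · exact one_zpow k
    · rcases eq_or_ne k 0 with rfl | hk
      · exact zpow_zero c
      · exact absurd (hF _ hx) (zpow_inf hc hk)
  have h2 : (⊥ : Subgroup G).relIndex F = (Subgroup.zpowers c).relIndex F := by
    rw [← h1, Subgroup.inf_relIndex_right]
  have h3 : (Subgroup.zpowers c).relIndex F ≠ 0 := fun h => hi (Subgroup.relIndex_eq_zero_of_le_right hFK h)
  rw [h2]
  exact ⟨h3, Subgroup.relIndex_le_of_le_right hFK hi⟩

theorem isOfFinOrder_iff_of_inj {H : Type} [Group H] (ι : H →* G) (hι : Function.Injective ι)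
    {x : H} : IsOfFinOrder (ι x) ↔ IsOfFinOrder x := by
  rw [isOfFinOrder_iff_pow_eq_one, isOfFinOrder_iff_pow_eq_one]
  refine exists_congr fun n => and_congr_right fun _ => ?_
  rw [← map_pow, ← map_one ι]
  exact hι.eq_iff

theorem VCyc.comap {H : Type} [Group H] {K : Subgroup G} (h : VCyc K) (ι : H →* G)
    (hι : Function.Injective ι) : VCyc (K.comap ι) := by
  have hle : (K.comap ι).map ι ≤ K := Subgroup.map_comap_le ι K
  have key : ∀ z : H, (Subgroup.zpowers (ι z)).relIndex ((K.comap ι).map ι) ≠ 0 →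
      (Subgroup.zpowers z).relIndex (K.comap ι) ≠ 0 := by
    intro z hz
    rw [← Subgroup.relIndex_comap] at hz
    have h1 : (Subgroup.zpowers (ι z)).comap ι = Subgroup.zpowers z := by
      rw [← MonoidHom.map_zpowers, Subgroup.comap_map_eq_self_of_injective hι]
    rw [h1] at hz
    exact hz
  by_cases hz : ∃ z ∈ K.comap ι, ¬ IsOfFinOrder z
  · obtain ⟨z, hz, hz'⟩ := hz
    refine ⟨z, hz, key z ?_⟩
    have h1 : ¬ IsOfFinOrder (ι z) := fun h2 => hz' ((isOfFinOrder_iff_of_inj ι hι).1 h2)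
    have h2 := h.relIndex hz h1
    exact fun h3 => h2 (Subgroup.relIndex_eq_zero_of_le_right hle h3)
  · push Not at hz
    refine ⟨1, one_mem _, key 1 ?_⟩
    obtain ⟨c, hc, hc', hi⟩ := h.choose_gen
    rw [map_one, Subgroup.zpowers_one_eq_bot]
    refine (tors_relIndex hle hc' hi ?_).1
    rintro _ ⟨x, hx, rfl⟩
    exact (isOfFinOrder_iff_of_inj ι hι).2 (hz x hx)

end Pool.Agent.Q152.TC
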