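import Pool.Agent.Q152.TC.Hull
import Pool.Agent.Q152.TC.VC
import Pool.Agent.Q91.FJ.Laws

/-!
# Centralizers of elements of virtually cyclic edge stabilizers
-/

set_option autoImplicit false
set_option linter.unusedSectionVars false

namespace Pool.Agent.Q152.TC

open SimpleGraph Pool.Agent.Y462.SS Pool.Agent.Q152.WP Pool.Agent.Q152.TA Pool.Agent.Q91.FJ

/-- The class contains the finitely generated groups `H` which act on a tree with finitely many
orbits of edges, such that for some normal subgroup `N` acting trivially the action of `H / N` is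
acylindrical, and such that the vertex stabilizers and the preimages of all cyclic subgroups of
`H / N` are in the class.  (`E` is a finite set of edges which contains an edge of each orbit, and the
elements of `H / N` which fix two vertices at a distance at least `k` form a group of order at
most `m`.) -/
def TreeClosed (C : ∀ (G : Type) [Group G], Prop) : Prop :=
  ∀ (V H : Type) [Group H] [MulAction H V] (T : SimpleGraph V) (N : Subgroup H) (k m : ℕ)
    (E : Set (V × V)), Group.FG H → T.IsTree →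
    (∀ (h : H) (x y : V), T.Adj x y → T.Adj (h • x) (h • y)) →
    E.Finite → (∀ x y : V, T.Adj x y → ∃ h : H, ∃ p ∈ E, h • p.1 = x ∧ h • p.2 = y) →
    N.Normal → (∀ n ∈ N, ∀ x : V, n • x = x) →
    (∀ x y : V, k ≤ T.dist x y →
      N.relIndex (MulAction.stabilizer H x ⊓ MulAction.stabilizer H y) ≠ 0 ∧
      N.relIndex (MulAction.stabilizer H x ⊓ MulAction.stabilizer H y) ≤ m) →
    (∀ x : V, C (MulAction.stabilizer H x)) →
    (∀ h : H, C (N ⊔ Subgroup.zpowers h : Subgroup H)) → C H

/-- the pointwise stabilizer of a pair -/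
abbrev St (Γ : Type) {V : Type} [Group Γ] [MulAction Γ V] (x y : V) : Subgroup Γ :=
  MulAction.stabilizer Γ x ⊓ MulAction.stabilizer Γ y

variable {V Γ : Type} [Group Γ] [MulAction Γ V] {T : SimpleGraph V}

theorem St_smul (g : Γ) (x y : V) :
    St Γ (g • x) (g • y) = (St Γ x y).map (MulAut.conj g).toMonoidHom := by
  rw [St, MulAction.stabilizer_smul_eq_stabilizer_map_conj,
    MulAction.stabilizer_smul_eq_stabilizer_map_conj, St, Subgroup.map_inf]
  exact (MulAut.conj g).injective

theorem relIndex_conj {G : Type} [Group G] (g : G) (A B : Subgroup G) :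
    (A.map (MulAut.conj g).toMonoidHom).relIndex (B.map (MulAut.conj g).toMonoidHom) =
      A.relIndex B :=
  Subgroup.relIndex_map_map_of_injective _ _ (MulAut.conj g).injective

theorem map_conj_normal {G : Type} [Group G] (g : G) (N : Subgroup G) (hN : N.Normal) :
    N.map (MulAut.conj g).toMonoidHom = N := by
  ext x
  constructor
  · rintro ⟨y, hy, rfl⟩
    exact hN.conj_mem y hy g
  · intro hx
    refine ⟨g⁻¹ * x * g, ?_, ?_⟩
    · have := hN.conj_mem x hx g⁻¹
      rwa [inv_inv] at this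
    · change g * (g⁻¹ * x * g) * g⁻¹ = x
      group

variable {C : ∀ (G : Type) [Group G], Prop}

/-- uniform bounds -/
theorem exists_bound {E : Set (V × V)} (hE : E.Finite)
    (hcov : ∀ x y : V, T.Adj x y → ∃ h : Γ, ∃ p ∈ E, h • p.1 = x ∧ h • p.2 = y)
    (P : ℕ → V → V → Prop)
    (hP : ∀ (h : Γ) (x y : V) (n : ℕ), P n x y → P n (h • x) (h • y))
    (hmono : ∀ n n' x y, n ≤ n' → P n x y → P n' x y)
    (hadj : ∀ (γ : Γ) (x y : V), T.Adj x y → T.Adj (γ • x) (γ • y))
    (hex : ∀ x y, T.Adj x y → ∃ n, P n x y) : ∃ n, ∀ x y, T.Adj x y → P n x y := by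
  classical
  have h1 : ∀ p : V × V, ∃ n, T.Adj p.1 p.2 → P n p.1 p.2 := by
    intro p
    by_cases h : T.Adj p.1 p.2
    · obtain ⟨n, hn⟩ := hex _ _ h
      exact ⟨n, fun _ => hn⟩
    · exact ⟨0, fun h' => absurd h' h⟩
  choose f hf using h1
  refine ⟨hE.toFinset.sup f, fun x y hxy => ?_⟩
  obtain ⟨h, p, hp, rfl, rfl⟩ := hcov x y hxy
  have h2 : T.Adj p.1 p.2 := by
    have := hadj h⁻¹ _ _ hxy
    rwa [inv_smul_smul, inv_smul_smul] at this
  exact hP h _ _ _ (hmono _ _ _ _ (Finset.le_sup (hE.mem_toFinset.2 hp)) (hf p h2))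

/-- commuting elements -/
theorem two_mem (hS : HasSolvable C) {H : Type} [Group H] {z h : H} (hz : z * h = h * z) :
    C (Subgroup.zpowers z ⊔ Subgroup.zpowers h : Subgroup H) := by
  refine hS _ ?_
  have hcomm : ∀ a ∈ Subgroup.zpowers z ⊔ Subgroup.zpowers h,
      ∀ b ∈ Subgroup.zpowers z ⊔ Subgroup.zpowers h, a * b = b * a := by
    have h1 : Subgroup.zpowers z ⊔ Subgroup.zpowers h = Subgroup.closure {z, h} := by
      rw [Subgroup.zpowers_eq_closure, Subgroup.zpowers_eq_closure, ← Subgroup.closure_union]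
      rfl
    intro a ha b hb
    rw [h1] at ha hb
    have hc : IsMulCommutative (Subgroup.closure ({z, h} : Set H)) := by
      refine Subgroup.isMulCommutative_closure (k := {z, h}) ?_
      rintro x (rfl | rfl) y (rfl | rfl)
      · rfl
      · exact hz
      · exact hz.symm
      · rfl
    have := hc.is_comm.comm ⟨a, ha⟩ ⟨b, hb⟩
    exact congrArg Subtype.val this
  exact Group.isSolvable_of_comm (fun a b => Subtype.ext (hcomm a.1 a.2 b.1 b.2))

/-- **Centralizers.** -/
theorem cent_mem (hC : Closed C) (hS : HasSolvable C) (hA : TreeClosed C) (hT : T.IsTree)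
    (hadj : ∀ (γ : Γ) (x y : V), T.Adj x y → T.Adj (γ • x) (γ • y))
    (hvc : ∀ x y : V, T.Adj x y → VCyc (St Γ x y)) (hv : ∀ v : V, C (MulAction.stabilizer Γ v))
    {x₀ : V} {z : Γ} (hz : z • x₀ = x₀) (hz' : ¬ IsOfFinOrder z) :
    C (Subgroup.centralizer ({z} : Set Γ)) := by
  classical
  let G : Subgroup Γ := Subgroup.centralizer ({z} : Set Γ)
  have hzG : z ∈ G := Subgroup.mem_centralizer_singleton_iff.2 rfl
  let zG : G := ⟨z, hzG⟩
  have hcen : ∀ g : G, g * zG = zG * g := by
    intro g
    exact Subtype.ext (Subgroup.mem_centralizer_singleton_iff.1 g.2)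
  refine of_fg' hC zG (fun s hs => ?_)
  obtain ⟨W, E, hE, hrW, hW, hinv, hedge, hfix⟩ := exists_hull (Γ := G) hT
    (fun γ x y h => hadj γ.1 x y h) s x₀
  let H : Subgroup G := Subgroup.closure (s : Set G)
  let zH : H := ⟨zG, Subgroup.subset_closure hs⟩
  let ι : H →* Γ := G.subtype.comp H.subtype
  have hι : Function.Injective ι := G.subtype_injective.comp H.subtype_injective
  let act : MulAction H W :=
    { smul := fun h w => ⟨h.1 • w.1, hinv h.1 h.2 w.1 w.2⟩
      one_smul := fun w => Subtype.ext (one_smul G w.1)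
      mul_smul := fun h h' w => Subtype.ext (mul_smul h.1 h'.1 w.1) }
  have hzW : ∀ x ∈ W, zG • x = x := by
    refine hfix zG (fun γ hγ => ?_)
    rw [← mul_smul, ← hcen γ, mul_smul]
    exact congrArg (γ • ·) hz
  have hst : ∀ w : W, MulAction.stabilizer H w = (MulAction.stabilizer Γ (w : V)).comap ι := by
    intro w
    ext h
    exact Subtype.ext_iff
  have hSt : ∀ x y : W, St H x y = (St Γ (x : V) (y : V)).comap ι := by
    intro x y
    rw [St, hst, hst]
    rfl
  let N : Subgroup H := Subgroup.zpowers zH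
  have hcH : ∀ h : H, h * zH = zH * h := fun h => Subtype.ext (hcen h.1)
  have hN : N.Normal := by
    refine ⟨?_⟩
    rintro _ ⟨k, rfl⟩ g
    refine ⟨k, ?_⟩
    change zH ^ k = g * zH ^ k * g⁻¹
    have h1 : Commute g (zH ^ k) := Commute.zpow_right (hcH g) k
    rw [h1.eq, mul_inv_cancel_right]
  have hNtriv : ∀ n ∈ N, ∀ x : W, n • x = x := by
    intro n hn x
    have h1 : zH ∈ MulAction.stabilizer H x := Subtype.ext (hzW x.1 x.2)
    have h2 : N ≤ MulAction.stabilizer H x := by
      rw [Subgroup.zpowers_le]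
      exact h1
    exact h2 hn
  have hzfin : ¬ IsOfFinOrder zH := fun h => hz' ((isOfFinOrder_iff_of_inj ι hι).2 h)
  have hne : ∀ x y : W, (T.induce W).Adj x y → N.relIndex (St H x y) ≠ 0 := by
    intro x y hxy
    have h1 : VCyc (St H x y) := by
      rw [hSt]
      exact (hvc x y hxy).comap ι hι
    exact h1.relIndex ⟨hNtriv zH (Subgroup.mem_zpowers zH) x, hNtriv zH (Subgroup.mem_zpowers zH) y⟩
      hzfin
  let E' : Set (W × W) := {p | (p.1.1, p.2.1) ∈ E}
  have hE' : E'.Finite := by
    refine Set.Finite.preimage (f := fun p : W × W => (p.1.1, p.2.1)) ?_ hE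
    intro p _ q _ h
    rw [Prod.mk.injEq] at h
    exact Prod.ext (Subtype.ext h.1) (Subtype.ext h.2)
  have hadjW : ∀ (h : H) (x y : W), (T.induce W).Adj x y → (T.induce W).Adj (h • x) (h • y) :=
    fun h x y hxy => hadj h.1.1 x.1 y.1 hxy
  have hcov : ∀ x y : W, (T.induce W).Adj x y → ∃ h : H, ∃ p ∈ E', h • p.1 = x ∧ h • p.2 = y := by
    intro x y hxy
    obtain ⟨γ, hγ, p, hp, h1, h2⟩ := hedge x.1 x.2 y.1 y.2 hxy
    have hp1 : p.1 ∈ W := by
      have := hinv γ⁻¹ (inv_mem hγ) x.1 x.2
      rwa [← h1, inv_smul_smul] at this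
    have hp2 : p.2 ∈ W := by
      have := hinv γ⁻¹ (inv_mem hγ) y.1 y.2
      rwa [← h2, inv_smul_smul] at this
    exact ⟨⟨γ, hγ⟩, (⟨p.1, hp1⟩, ⟨p.2, hp2⟩), hp, Subtype.ext h1, Subtype.ext h2⟩
  obtain ⟨m, hm⟩ := exists_bound (Γ := H) hE' hcov (fun n x y => N.relIndex (St H x y) ≤ n)
    (fun h x y n hn => by
      have h1 := relIndex_conj h N (St H x y)
      rw [map_conj_normal h N hN, ← St_smul] at h1
      rw [h1]
      exact hn)
    (fun n n' x y h1 h2 => h2.trans h1) hadjW (fun x y _ => ⟨_, le_refl _⟩)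
  refine hA W H (T.induce W) N 1 m E' (Group.closure_finset_fg s) hW hadjW hE' hcov hN hNtriv ?_ ?_ ?_
  · intro x y hxy
    obtain ⟨w, hw, _⟩ := hW.existsUnique_path x y
    cases w with
    | nil =>
      rw [SimpleGraph.dist_self] at hxy
      omega
    | @cons _ u _ hxu p =>
      have hle : St H x y ≤ St H x u := by
        rintro g ⟨hgx, hgy⟩
        refine ⟨hgx, ?_⟩
        exact fix_path hW hadjW _ hw hgx hgy u (by simp)
      have h1 : N.relIndex (St H x y) ≠ 0 := fun h =>
        hne x u hxu (Subgroup.relIndex_eq_zero_of_le_right hle h)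
      exact ⟨h1, (Subgroup.relIndex_le_of_le_right hle (hne x u hxu)).trans (hm x u hxu)⟩
  · intro x
    have h1 : (MulAction.stabilizer H x) = (MulAction.stabilizer Γ (x : V)).comap ι := hst x
    let j : MulAction.stabilizer H x →* MulAction.stabilizer Γ (x : V) :=
      (ι.comp (MulAction.stabilizer H x).subtype).codRestrict _ (fun h => h1.le h.2)
    refine hC.of_injective _ _ j ?_ (hv x)
    intro a b hab
    have h2 : (j a).1 = (j b).1 := by rw [hab]
    exact Subtype.ext (hι h2)
  · intro h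
    exact two_mem hS (hcH h).symm

end Pool.Agent.Q152.TC
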