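import Pool.Agent.Q152.TC.Amal

/-!
# Hyperbolic elements, trees of groups
-/

set_option autoImplicit false
set_option linter.unusedSectionVars false

namespace Pool.Agent.Q152.TC

open SimpleGraph Pool.Agent.Y462.SS Pool.Agent.Q152.WP Pool.Agent.Q152.TA Pool.Agent.Q91.FJ

/-- sequences without backtracking in acyclic graphs -/
theorem seq_path {W : Type} {S : SimpleGraph W} (hS : S.IsAcyclic) (v : ℕ → W) : ∀ N : ℕ,
    (∀ k < N, S.Adj (v k) (v (k + 1))) → (∀ k, k + 2 ≤ N → v k ≠ v (k + 2)) →
    ∃ p : S.Walk (v 0) (v N), p.IsPath ∧ p.length = N ∧ ∀ m, N = m + 1 → p.penultimate = v m := by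
  intro N
  induction N with
  | zero => exact fun _ _ => ⟨Walk.nil, Walk.IsPath.nil, rfl, fun m hm => by omega⟩
  | succ N ih =>
    intro h1 h2
    obtain ⟨p, hp, hl, hpen⟩ := ih (fun k hk => h1 k (by omega)) (fun k hk => h2 k (by omega))
    have hadj := h1 N (by omega)
    have hns : v (N + 1) ∉ p.support := by
      intro h
      rcases Nat.eq_zero_or_pos N with rfl | hN
      · have h3 : p.support = [v 0] := by
          exact Walk.nil_iff_support_eq.1 (Walk.length_eq_zero_iff.1 hl)
        rw [h3, List.mem_singleton] at h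
        exact hadj.ne h.symm
      · obtain ⟨m, rfl⟩ : ∃ m, N = m + 1 := ⟨N - 1, by omega⟩
        have h3 := hS.eq_penultimate_of_adj_end hp hadj h
        rw [hpen m rfl] at h3
        exact h2 m (by omega) h3.symm
    refine ⟨p.concat hadj, hp.concat hns hadj, ?_, ?_⟩
    · rw [Walk.length_concat, hl]
    · intro m hm
      obtain rfl : m = N := by omega
      rw [Walk.penultimate_concat]

variable {V Γ : Type} [Group Γ] [MulAction Γ V] {T : SimpleGraph V}

theorem dist_smul_le (hT : T.IsTree)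
    (hadj : ∀ (γ : Γ) (x y : V), T.Adj x y → T.Adj (γ • x) (γ • y)) (g : Γ) (x y : V) :
    T.dist (g • x) (g • y) ≤ T.dist x y := by
  obtain ⟨w, hw⟩ := hT.connected.exists_walk_length_eq_dist x y
  rw [← hw]
  clear hw
  induction w with
  | nil => simp
  | @cons a b c h p ih =>
    refine (hT.connected.dist_triangle (v := g • b)).trans ?_
    rw [Walk.length_cons]
    have h1 : T.dist (g • a) (g • b) ≤ 1 := by
      have := dist_le (Walk.cons (hadj g _ _ h) Walk.nil)
      simpa using this
    omega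

theorem dist_smul' (hT : T.IsTree)
    (hadj : ∀ (γ : Γ) (x y : V), T.Adj x y → T.Adj (γ • x) (γ • y)) (g : Γ) (x y : V) :
    T.dist (g • x) (g • y) = T.dist x y := by
  refine le_antisymm (dist_smul_le hT hadj g x y) ?_
  have := dist_smul_le hT hadj g⁻¹ (g • x) (g • y)
  rwa [inv_smul_smul, inv_smul_smul] at this

theorem gv_dist (hT : T.IsTree) {x y : V} (w : T.Walk x y) : ∀ m a, a + m ≤ w.length →
    T.dist (w.getVert a) (w.getVert (a + m)) ≤ m := by
  intro m
  induction m with
  | zero => intro a _; simp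
  | succ m ih =>
    intro a ha
    refine (hT.connected.dist_triangle (v := w.getVert (a + m))).trans ?_
    have h1 := ih a (by omega)
    have h2 : T.dist (w.getVert (a + m)) (w.getVert (a + (m + 1))) ≤ 1 := by
      have h3 := w.adj_getVert_succ (i := a + m) (by omega)
      exact dist_le (Walk.cons h3 Walk.nil)
    omega

/-- **translation length** -/
theorem hyp_dist (hT : T.IsTree)
    (hadj : ∀ (γ : Γ) (x y : V), T.Adj x y → T.Adj (γ • x) (γ • y)) {h : Γ}
    (hh : ∀ (k : ℤ) (x : V), k ≠ 0 → h ^ k • x ≠ x) :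
    ∃ (x : V) (l : ℕ), 0 < l ∧ ∀ n : ℕ, T.dist x (h ^ n • x) = n * l := by
  classical
  have hne : Nonempty V := hT.connected.nonempty
  obtain ⟨x, hx⟩ : ∃ x : V, ∀ y : V, T.dist x (h • x) ≤ T.dist y (h • y) :=
    ⟨Function.argmin (fun y : V => T.dist y (h • y)),
      fun y => Function.argmin_le (fun y : V => T.dist y (h • y)) y⟩
  obtain ⟨w, hwl⟩ := hT.connected.exists_walk_length_eq_dist x (h • x)
  have hw : w.IsPath := w.isPath_of_length_eq_dist hwl
  have hl : 0 < w.length := by
    rcases Nat.eq_zero_or_pos w.length with h0 | h0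
    · exact absurd (Walk.eq_of_length_eq_zero h0).symm (by
        have := hh 1 x one_ne_zero
        rwa [zpow_one] at this)
    · exact h0
  let l := w.length
  let v : ℕ → V := fun k => h ^ (k / l) • w.getVert (k % l)
  have hv : ∀ i j, j ≤ l → v (i * l + j) = h ^ i • w.getVert j := by
    intro i j hj
    rcases Nat.lt_or_ge j l with hj' | hj'
    · have h1 : (i * l + j) / l = i := by
        rw [Nat.add_div_of_dvd_right (Dvd.intro_left i rfl), Nat.mul_div_cancel _ hl,
          Nat.div_eq_of_lt hj', Nat.add_zero]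
      have h2 : (i * l + j) % l = j := by
        rw [add_comm, Nat.add_mul_mod_self_right, Nat.mod_eq_of_lt hj']
      change h ^ ((i * l + j) / l) • w.getVert ((i * l + j) % l) = _
      rw [h1, h2]
    · obtain rfl : j = l := le_antisymm hj hj'
      have h1 : (i * l + l) / l = i + 1 := by
        rw [Nat.add_div_right _ hl, Nat.mul_div_cancel _ hl]
      have h2 : (i * l + l) % l = 0 := by
        rw [Nat.add_mod_right, Nat.mul_mod_left]
      change h ^ ((i * l + l) / l) • w.getVert ((i * l + l) % l) = _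
      rw [h1, h2, Walk.getVert_zero, Walk.getVert_length, pow_succ, mul_smul]
  have hdec : ∀ k, ∃ i j, j < l ∧ k = i * l + j := fun k =>
    ⟨k / l, k % l, Nat.mod_lt _ hl, by rw [mul_comm]; exact (Nat.div_add_mod k l).symm⟩
  have a1 : ∀ k, T.Adj (v k) (v (k + 1)) := by
    intro k
    obtain ⟨i, j, hj, rfl⟩ := hdec k
    rw [hv i j hj.le, add_assoc, hv i (j + 1) hj]
    exact hadj _ _ _ (w.adj_getVert_succ hj)
  have a2 : ∀ k, v k ≠ v (k + 2) := by
    intro k
    obtain ⟨i, j, hj, rfl⟩ := hdec k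
    rw [hv i j hj.le]
    rcases Nat.lt_or_ge (j + 1) l with hj' | hj'
    · rw [add_assoc, hv i (j + 2) hj']
      intro h1
      have h2 := (MulAction.injective _) h1
      have h3 : j = j + 2 := hw.getVert_injOn (by simp; omega) (by simp; omega) h2
      omega
    · have hj2 : j + 1 = l := by omega
      have h1 : i * l + j + 2 = (i + 1) * l + 1 := by
        rw [add_mul, one_mul, ← hj2]
        ring
      rw [h1, hv (i + 1) 1 hl, pow_succ, mul_smul]
      intro h2
      have h3 := (MulAction.injective _) h2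
      have h4 := hx (w.getVert 1)
      rw [← h3, ← hwl] at h4
      rcases Nat.eq_zero_or_pos j with rfl | hj0
      · have h5 : w.length = 1 := hj2.symm
        have h6 : w.getVert 1 = h • x := by
          rw [← h5, Walk.getVert_length]
        rw [Walk.getVert_zero, h6] at h3
        apply hh 2 x two_ne_zero
        rw [zpow_two, mul_smul]
        exact h3.symm
      · have h5 := gv_dist hT w (j - 1) 1 (by omega)
        rw [show 1 + (j - 1) = j by omega] at h5
        have : w.length = j + 1 := hj2.symm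
        omega
  have hv0 : v 0 = x := by
    have := hv 0 0 (Nat.zero_le _)
    rwa [zero_mul, zero_add, pow_zero, one_smul, Walk.getVert_zero] at this
  refine ⟨x, l, hl, fun n => ?_⟩
  have hvn : v (n * l) = h ^ n • x := by
    have := hv n 0 (Nat.zero_le _)
    rwa [add_zero, Walk.getVert_zero] at this
  obtain ⟨p, hp, hpl, -⟩ := seq_path hT.isAcyclic v (n * l) (fun k _ => a1 k) (fun k _ => a2 k)
  obtain ⟨q, hql⟩ := hT.connected.exists_walk_length_eq_dist (v 0) (v (n * l))
  have hq : q.IsPath := q.isPath_of_length_eq_dist hql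
  have h1 : q = p := (hT.existsUnique_path _ _).unique hq hp
  rw [← hvn]
  nth_rewrite 1 [← hv0]
  rw [← hql, h1, hpl]

theorem hyp_dist_int (hT : T.IsTree)
    (hadj : ∀ (γ : Γ) (x y : V), T.Adj x y → T.Adj (γ • x) (γ • y)) {h : Γ}
    (hh : ∀ (k : ℤ) (x : V), k ≠ 0 → h ^ k • x ≠ x) :
    ∃ (x : V) (l : ℕ), 0 < l ∧ ∀ n : ℤ, T.dist x (h ^ n • x) = n.natAbs * l := by
  obtain ⟨x, l, hl, hx⟩ := hyp_dist hT hadj hh
  refine ⟨x, l, hl, fun n => ?_⟩
  rcases Int.natAbs_eq n with h1 | h1
  · nth_rewrite 1 [h1]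
    rw [zpow_natCast]
    exact hx _
  · nth_rewrite 1 [h1]
    rw [zpow_neg, zpow_natCast, ← dist_smul' hT hadj (h ^ n.natAbs), smul_inv_smul, dist_comm]
    exact hx _

/-- elements without powers fixing a vertex are balanced -/
theorem bal_hyp (hT : T.IsTree)
    (hadj : ∀ (γ : Γ) (x y : V), T.Adj x y → T.Adj (γ • x) (γ • y)) {h : Γ}
    (hh : ∀ (k : ℤ) (x : V), k ≠ 0 → h ^ k • x ≠ x) : Bal h := by
  obtain ⟨x, l, hl, hx⟩ := hyp_dist_int hT hadj hh
  -- comparison
  have key : ∀ (g : Γ) (p q : ℤ), g * h ^ p * g⁻¹ = h ^ q → q.natAbs ≤ p.natAbs := by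
    intro g p q hg
    by_contra hcon
    push Not at hcon
    let D := T.dist x (g • x)
    have h1 : ∀ k : ℕ, (q * k).natAbs * l ≤ 2 * D + (p * k).natAbs * l := by
      intro k
      rw [← hx, ← hx]
      have h2 : h ^ (q * (k : ℤ)) = g * h ^ (p * (k : ℤ)) * g⁻¹ := by
        rw [zpow_mul, ← hg, conj_zpow, ← zpow_mul]
      have h3 : T.dist x (g⁻¹ • x) = D := by
        rw [← dist_smul' hT hadj g, smul_inv_smul, dist_comm]
      have h4 : T.dist (g • x) (g • h ^ (p * (k : ℤ)) • x) = T.dist x (h ^ (p * (k : ℤ)) • x) :=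
        dist_smul' hT hadj g _ _
      have h5 : T.dist (g • h ^ (p * (k : ℤ)) • x) (g • h ^ (p * (k : ℤ)) • g⁻¹ • x) = D := by
        rw [dist_smul' hT hadj, dist_smul' hT hadj, h3]
      have h6 : T.dist x (h ^ (q * (k : ℤ)) • x) ≤ T.dist x (g • x) +
          T.dist (g • x) (h ^ (q * (k : ℤ)) • x) := hT.connected.dist_triangle
      have h7 : T.dist (g • x) (h ^ (q * (k : ℤ)) • x) ≤
          T.dist (g • x) (g • h ^ (p * (k : ℤ)) • x) +
          T.dist (g • h ^ (p * (k : ℤ)) • x) (h ^ (q * (k : ℤ)) • x) :=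
        hT.connected.dist_triangle
      have h8 : h ^ (q * (k : ℤ)) • x = g • h ^ (p * (k : ℤ)) • g⁻¹ • x := by
        rw [h2, mul_smul, mul_smul]
      have h9 : T.dist (g • h ^ (p * (k : ℤ)) • x) (h ^ (q * (k : ℤ)) • x) = D := by
        rw [h8, h5]
      have h10 : T.dist x (g • x) = D := rfl
      omega
    have h2 := h1 (2 * D + 1)
    rw [Int.natAbs_mul, Int.natAbs_mul, Int.natAbs_natCast] at h2
    have h3 : (p.natAbs + 1) * (2 * D + 1) * l ≤ q.natAbs * (2 * D + 1) * l :=
      Nat.mul_le_mul_right _ (Nat.mul_le_mul_right _ hcon)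
    have h4 : 2 * D + 1 ≤ (2 * D + 1) * l := Nat.le_mul_of_pos_right _ hl
    have h5 : (p.natAbs + 1) * (2 * D + 1) * l = p.natAbs * (2 * D + 1) * l + (2 * D + 1) * l := by
      ring
    omega
  intro g p q _ hg
  have h1 := key g p q hg
  have h2 := key g⁻¹ q p (by rw [← hg]; group)
  have h3 := Int.natAbs_eq_natAbs_iff.1 (le_antisymm h1 h2)
  exact h3

theorem exp_ne_zero {c g : Γ} (hc : ¬ IsOfFinOrder c) {p q : ℤ} (hp : p ≠ 0)
    (h : g * c ^ p * g⁻¹ = c ^ q) : q ≠ 0 := by
  rintro rfl
  rw [zpow_zero, mul_inv_eq_one, mul_eq_left] at h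
  exact hp (zpow_inj' hc (h.trans (zpow_zero c).symm))

/-- The group is balanced: all elements of infinite order are balanced. -/
def BalGroup (G : Type) [Group G] : Prop := ∀ c : G, ¬ IsOfFinOrder c → Bal c

/-- if the elements of the edge stabilizers are balanced, and the vertex stabilizers are balanced,
then all elements are balanced -/
theorem bal_all (hT : T.IsTree)
    (hadj : ∀ (γ : Γ) (x y : V), T.Adj x y → T.Adj (γ • x) (γ • y))
    (he : ∀ x y : V, T.Adj x y → ∀ c ∈ St Γ x y, ¬ IsOfFinOrder c → Bal c)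
    (hv : ∀ v : V, BalGroup (MulAction.stabilizer Γ v)) : BalGroup Γ := by
  intro c hc
  by_cases h0 : ∀ (k : ℤ) (x : V), k ≠ 0 → c ^ k • x ≠ x
  · exact bal_hyp hT hadj h0
  push Not at h0
  obtain ⟨j, v, hj, hjv⟩ := h0
  refine Bal.of_pow (j := j) ?_
  let d : MulAction.stabilizer Γ v := ⟨c ^ j, hjv⟩
  have hd : ¬ IsOfFinOrder (d : Γ) := zpow_inf hc hj
  have hd' : ¬ IsOfFinOrder d := fun h => hd
    ((isOfFinOrder_iff_of_inj (MulAction.stabilizer Γ v).subtype
      (MulAction.stabilizer Γ v).subtype_injective).2 h)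
  change Bal (d : Γ)
  intro g p q hp h
  by_cases hg : g • v = v
  · exact hv v d hd' ⟨g, hg⟩ p q hp (Subtype.ext h)
  · have hq := exp_ne_zero hd hp h
    have h1 : (d : Γ) ^ q • v = v := zpow_mem d.2 q
    have h2 : (d : Γ) ^ q • g • v = g • v := by
      rw [← h, ← mul_smul, inv_mul_cancel_right, mul_smul]
      exact congrArg (g • ·) (show (d : Γ) ^ p • v = v from zpow_mem d.2 p)
    obtain ⟨w, hw, _⟩ := hT.existsUnique_path v (g • v)
    obtain ⟨e, he'⟩ := exists_dart w (fun h => hg h.symm)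
    have hfix := fix_path hT hadj w hw h1 h2
    have h3 : Bal ((d : Γ) ^ q) := he _ _ e.adj _
      ⟨hfix _ (w.dart_fst_mem_support_of_mem_darts he'),
        hfix _ (w.dart_snd_mem_support_of_mem_darts he')⟩ (zpow_inf hd hq)
    exact Bal.of_pow h3 g p q hp h

/-- the elements `g` which invert or centralize a power of `c` -/
def BB (c : Γ) : Subgroup Γ where
  carrier := {g | ∃ k : ℤ, k ≠ 0 ∧ (g * c ^ k * g⁻¹ = c ^ k ∨ g * c ^ k * g⁻¹ = c ^ (-k))}
  one_mem' := ⟨1, one_ne_zero, Or.inl (by group)⟩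
  mul_mem' := by
    rintro a b ⟨k, hk, h⟩ ⟨l, hl, h'⟩
    refine ⟨k * l, mul_ne_zero hk hl, ?_⟩
    have e1 : ∀ (x : Γ) (s t u : ℤ), x * c ^ s * x⁻¹ = c ^ t → x * c ^ (s * u) * x⁻¹ =
        c ^ (t * u) := by
      intro x s t u hx
      rw [zpow_mul, ← conj_zpow, hx, ← zpow_mul]
    have e2 : ∀ s : ℤ, a * b * c ^ s * (a * b)⁻¹ = a * (b * c ^ s * b⁻¹) * a⁻¹ := by
      intro s
      group
    rw [e2]
    rcases h' with h' | h'
    · have h3 := e1 b l l k h'
      rw [mul_comm k l, h3]
      rcases h with h | h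
      · left
        have h4 := e1 a k k l h
        rw [mul_comm l k, h4]
      · right
        have h4 := e1 a k (-k) l h
        rw [mul_comm l k, h4]
        congr 1
        ring
    · have h3 := e1 b l (-l) k h'
      rw [mul_comm k l, h3]
      rcases h with h | h
      · right
        have h4 := e1 a k k (-l) h
        rw [show -l * k = k * -l by ring, h4]
        congr 1
        ring
      · left
        have h4 := e1 a k (-k) (-l) h
        rw [show -l * k = k * -l by ring, h4]
        congr 1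
        ring
  inv_mem' := by
    rintro a ⟨k, hk, h | h⟩
    · refine ⟨k, hk, Or.inl ?_⟩
      nth_rewrite 1 [← h]
      group
    · refine ⟨-k, neg_ne_zero.2 hk, Or.inr ?_⟩
      rw [← h, neg_neg]
      group

/-- **Trees of groups.**  If the quotient graph is a tree and the elements of infinite order of the edge
stabilizers are balanced in the vertex stabilizers, then they are balanced. -/
theorem bal_tree (hT : T.IsTree)
    (hadj : ∀ (γ : Γ) (x y : V), T.Adj x y → T.Adj (γ • x) (γ • y))
    (hvc : ∀ x y : V, T.Adj x y → VCyc (St Γ x y))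
    {W : Type} {S : SimpleGraph W} (hS : S.IsAcyclic) {ρ : V → W}
    (hρ : ∀ x y : V, T.Adj x y → S.Adj (ρ x) (ρ y)) (hinv : ∀ (g : Γ) (x : V), ρ (g • x) = ρ x)
    (horb : ∀ x y z : V, T.Adj x y → T.Adj x z → ρ y = ρ z → ∃ g : Γ, g • x = x ∧ g • y = z)
    (hb : ∀ x y : V, T.Adj x y → ∀ c ∈ St Γ x y, ¬ IsOfFinOrder c →
      ∀ g ∈ MulAction.stabilizer Γ x, ∀ p q : ℤ, p ≠ 0 → g * c ^ p * g⁻¹ = c ^ q →
        q = p ∨ q = -p) :
    ∀ x y : V, T.Adj x y → ∀ c ∈ St Γ x y, ¬ IsOfFinOrder c → Bal c := by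
  intro x₀ y₀ h₀ c hc hc'
  have hmain : ∀ n : ℕ, ∀ h ∈ Cmm c, T.dist x₀ (h • x₀) ≤ n → h ∈ BB c := by
    intro n
    induction n using Nat.strong_induction_on with
    | _ n ih =>
      rintro h ⟨p, q, hp, hq, hpq⟩ hn
      obtain ⟨w, hwl⟩ := hT.connected.exists_walk_length_eq_dist x₀ (h • x₀)
      have hw : w.IsPath := w.isPath_of_length_eq_dist hwl
      rcases Nat.eq_zero_or_pos w.length with h0 | h0
      · have h1 : x₀ = h • x₀ := Walk.eq_of_length_eq_zero h0
        refine ⟨p, hp, ?_⟩
        rcases hb x₀ y₀ h₀ c hc hc' h h1.symm p q hp hpq with h2 | h2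
        · left
          rw [hpq, h2]
        · right
          rw [hpq, h2]
      have hfx : c ^ q • x₀ = x₀ := zpow_mem (show c ∈ MulAction.stabilizer Γ x₀ from hc.1) q
      have hfy : c ^ q • h • x₀ = h • x₀ := by
        rw [← hpq, ← mul_smul, inv_mul_cancel_right, mul_smul]
        exact congrArg (h • ·) (show c ^ p • x₀ = x₀ from
          zpow_mem (show c ∈ MulAction.stabilizer Γ x₀ from hc.1) p)
      have hfix := fix_path hT hadj w hw hfx hfy
      -- backtracking in the quotient
      obtain ⟨i, hi, hρi⟩ : ∃ i, i + 2 ≤ w.length ∧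
          ρ (w.getVert i) = ρ (w.getVert (i + 2)) := by
        by_contra hcon
        push Not at hcon
        obtain ⟨r, hr, hrl, -⟩ := seq_path hS (fun k => ρ (w.getVert k)) w.length
          (fun k hk => hρ _ _ (w.adj_getVert_succ hk)) (fun k hk => hcon k hk)
        have h1 : ρ (w.getVert 0) = ρ (w.getVert w.length) := by
          rw [Walk.getVert_zero, Walk.getVert_length, hinv]
        have h2 : ∀ {a b : W} (r : S.Walk a b), r.IsPath → a = b → r.length = 0 := by
          rintro a b r hr rfl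
          exact Walk.length_eq_zero_iff.2 (Walk.isPath_iff_nil.1 hr)
        have h3 := h2 r hr h1
        omega
      have b1 : T.Adj (w.getVert (i + 1)) (w.getVert i) :=
        (w.adj_getVert_succ (i := i) (by omega)).symm
      have b2 : T.Adj (w.getVert (i + 1)) (w.getVert (i + 2)) :=
        w.adj_getVert_succ (i := i + 1) (by omega)
      obtain ⟨a, ha, ha'⟩ := horb _ _ _ b1 b2 hρi
      have c1 : c ^ q ∈ St Γ (w.getVert (i + 1)) (w.getVert i) :=
        ⟨hfix _ (w.getVert_mem_support _), hfix _ (w.getVert_mem_support _)⟩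
      have c2 : c ^ q ∈ St Γ (a • w.getVert (i + 1)) (a • w.getVert i) := by
        rw [ha, ha']
        exact ⟨hfix _ (w.getVert_mem_support _), hfix _ (w.getVert_mem_support _)⟩
      have c0 : ¬ IsOfFinOrder (c ^ q) := zpow_inf hc' hq
      rw [St_smul] at c2
      obtain ⟨k, hk, hk'⟩ := c2
      have hk0 : ¬ IsOfFinOrder k := by
        intro h1
        apply c0
        rw [← hk']
        exact (isOfFinOrder_iff_of_inj (MulAut.conj a).toMonoidHom (MulAut.conj a).injective).2 h1
      obtain ⟨m, l, hm, hl, hml⟩ := (hvc _ _ b1).common hk c1 hk0 c0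
      have h4 : a * (c ^ q) ^ l * a⁻¹ = (c ^ q) ^ m := by
        rw [← hml, ← conj_zpow]
        congr 1
      have haB : a ∈ BB c := by
        refine ⟨q * l, mul_ne_zero hq hl, ?_⟩
        rw [zpow_mul, h4]
        rcases hb _ _ b1 (c ^ q) c1 c0 a ha l m hl h4 with h5 | h5
        · left
          rw [h5]
        · right
          rw [h5, ← zpow_mul]
          congr 1
          ring
      have haC : a ∈ Cmm c :=
        ⟨q * l, q * m, mul_ne_zero hq hl, mul_ne_zero hq hm, by rw [zpow_mul, h4, ← zpow_mul]⟩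
      have hahB : a⁻¹ * h ∈ BB c := by
        refine ih (w.length - 2) (by omega) _ (mul_mem (inv_mem haC) ⟨p, q, hp, hq, hpq⟩) ?_
        have d1 : T.dist (w.getVert 0) (w.getVert (0 + i)) ≤ i := gv_dist hT w i 0 (by omega)
        have d2 : T.dist (w.getVert (i + 2)) (w.getVert (i + 2 + (w.length - (i + 2)))) ≤
            w.length - (i + 2) := gv_dist hT w _ _ (by omega)
        rw [Walk.getVert_zero, zero_add] at d1
        rw [show i + 2 + (w.length - (i + 2)) = w.length by omega, Walk.getVert_length] at d2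
        have d3 : T.dist (w.getVert i) ((a⁻¹ * h) • x₀) ≤ w.length - (i + 2) := by
          rw [← dist_smul' hT hadj a, ha', mul_smul, smul_inv_smul]
          exact d2
        have d4 : T.dist x₀ ((a⁻¹ * h) • x₀) ≤ T.dist x₀ (w.getVert i) +
          T.dist (w.getVert i) ((a⁻¹ * h) • x₀) := hT.connected.dist_triangle
        omega
      have h5 : h = a * (a⁻¹ * h) := by group
      rw [h5]
      exact mul_mem haB hahB
  intro g p q hp h
  have hq := exp_ne_zero hc' hp h
  obtain ⟨k, hk, h1⟩ := hmain _ g ⟨p, q, hp, hq, h⟩ le_rfl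
  have h2 : g * c ^ (p * k) * g⁻¹ = c ^ (q * k) := by
    rw [zpow_mul, ← conj_zpow, h, ← zpow_mul]
  rcases h1 with h1 | h1
  · left
    have h3 : g * c ^ (p * k) * g⁻¹ = c ^ (p * k) := by
      rw [mul_comm p k, zpow_mul, ← conj_zpow, h1]
    exact mul_right_cancel₀ hk (zpow_inj' hc' (h2.symm.trans h3))
  · right
    have h3 : g * c ^ (p * k) * g⁻¹ = c ^ (-p * k) := by
      rw [mul_comm p k, zpow_mul, ← conj_zpow, h1, ← zpow_mul]
      congr 1
      ring
    exact mul_right_cancel₀ hk (zpow_inj' hc' (h2.symm.trans h3))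

end Pool.Agent.Q152.TC
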