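import Pool.Agent.Q152.TC.Spl
import Pool.Agent.Q152.TC.Hyp
import Pool.Agent.Q143.TR.Tree

/-!
# Characters of groups acting on trees
-/

set_option autoImplicit false
set_option linter.unusedSectionVars false

namespace Pool.Agent.Q152.TC

open SimpleGraph Pool.Agent.Y462.SS Pool.Agent.Q152.WP Pool.Agent.Q152.TA Pool.Agent.Q91.FJ
open Pool.Agent.Q143.TR

section cob

variable {L E : Type} [Group L] [MulAction L E]

/-- representative of the orbit -/
noncomputable def orep (L : Type) {E : Type} [Group L] [MulAction L E] (e : E) : E :=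
  Quotient.out (Quotient.mk (MulAction.orbitRel L E) e)

theorem exists_orep (e : E) : ∃ g : L, g • orep L e = e := by
  have h1 : (MulAction.orbitRel L E) (orep L e) e :=
    Quotient.exact (Quotient.out_eq (Quotient.mk (MulAction.orbitRel L E) e))
  obtain ⟨g, hg⟩ : orep L e ∈ MulAction.orbit L e := h1
  have hg' : g • e = orep L e := hg
  exact ⟨g⁻¹, by rw [← hg', inv_smul_smul]⟩

theorem orep_smul (g : L) (e : E) : orep L (g • e) = orep L e := by
  have h1 : Quotient.mk (MulAction.orbitRel L E) (g • e) =
      Quotient.mk (MulAction.orbitRel L E) e := Quotient.sound ⟨g, rfl⟩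
  rw [orep, h1]
  rfl

/-- cocycles which vanish on the stabilizers are coboundaries -/
theorem cob (b : L → E → ℚ) (h1 : ∀ g h e, b (g * h) e = b g (h • e) + b h e)
    (h2 : ∀ g e, g • e = e → b g e = 0) : ∃ β : E → ℚ, ∀ g e, b g e = β (g • e) - β e := by
  choose t ht using (exists_orep (L := L) (E := E))
  refine ⟨fun e => b (t e) (orep L e), fun g e => ?_⟩
  have h4 := h1 g (t e) (orep L e)
  rw [ht] at h4
  have h5 : ((t (g • e))⁻¹ * (g * t e)) • orep L e = orep L e := by
    rw [mul_smul, mul_smul, ht, inv_smul_eq_iff]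
    have := ht (g • e)
    rw [orep_smul] at this
    exact this.symm
  have h6 := h1 (t (g • e)) ((t (g • e))⁻¹ * (g * t e)) (orep L e)
  rw [mul_inv_cancel_left, h5, h2 _ _ h5, add_zero] at h6
  change b g e = b (t (g • e)) (orep L (g • e)) - b (t e) (orep L e)
  rw [orep_smul, ← h6, h4]
  ring

/-- extension of homomorphisms on the stabilizers to a cocycle -/
theorem exists_coc (χ : E → L → ℚ)
    (h1 : ∀ w a b, a • w = w → b • w = w → χ w (a * b) = χ w a + χ w b)
    (h2 : ∀ g w a, a • w = w → χ (g • w) (g * a * g⁻¹) = χ w a) :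
    ∃ a : L → E → ℚ, (∀ g h e, a (g * h) e = a g (h • e) + a h e) ∧
      ∀ g e, g • e = e → a g e = χ e g := by
  choose t ht using (exists_orep (L := L) (E := E))
  have hst : ∀ g e, ((t (g • e))⁻¹ * g * t e) • orep L e = orep L e := by
    intro g e
    rw [mul_smul, mul_smul, ht, inv_smul_eq_iff]
    have := ht (g • e)
    rw [orep_smul] at this
    exact this.symm
  refine ⟨fun g e => χ (orep L e) ((t (g • e))⁻¹ * g * t e), ?_, ?_⟩
  · intro g h e
    change χ (orep L e) ((t ((g * h) • e))⁻¹ * (g * h) * t e) =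
      χ (orep L (h • e)) ((t (g • h • e))⁻¹ * g * t (h • e)) +
      χ (orep L e) ((t (h • e))⁻¹ * h * t e)
    rw [orep_smul, ← h1 _ _ _ (by
      have := hst g (h • e)
      rwa [orep_smul] at this) (hst h e), mul_smul]
    congr 1
    group
  · intro g e he
    change χ (orep L e) ((t (g • e))⁻¹ * g * t e) = χ e g
    have h3 := h2 (t e) (orep L e) ((t (g • e))⁻¹ * g * t e) (hst g e)
    rw [ht, he] at h3
    rw [he, ← h3]
    congr 1
    group

end cob

variable {V Γ : Type} [Group Γ] [MulAction Γ V] {T : SimpleGraph V}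

/-- **Extension of characters.** -/
theorem ext_char (hT : T.IsTree)
    (hadj : ∀ (γ : Γ) (x y : V), T.Adj x y → T.Adj (γ • x) (γ • y)) (χ : V → Γ → ℚ)
    (h1 : ∀ w a b, a • w = w → b • w = w → χ w (a * b) = χ w a + χ w b)
    (h2 : ∀ g w a, a • w = w → χ (g • w) (g * a * g⁻¹) = χ w a)
    (h3 : ∀ v w a, T.Adj v w → a • v = v → a • w = w → χ v a = χ w a) :
    ∃ Φ : Γ →* Multiplicative ℚ, ∀ v a, a • v = v → Φ a = Multiplicative.ofAdd (χ v a) := by
  obtain ⟨a, ha1, ha2⟩ := exists_coc χ h1 h2
  have hwalk : ∀ {v w : V} (p : T.Walk v w) (g : Γ), (∀ z ∈ p.support, g • z = z) →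
      χ v g = χ w g := by
    intro v w p g
    induction p with
    | nil => exact fun _ => rfl
    | @cons u v w h p ih =>
      intro hz
      have e1 : g • u = u := hz u (Walk.start_mem_support _)
      have e2 : ∀ z ∈ p.support, g • z = z := fun z hz' => hz z (by
        rw [Walk.support_cons]
        exact List.mem_cons_of_mem _ hz')
      rw [h3 _ _ g h e1 (e2 v p.start_mem_support), ih e2]
  let b : Γ → V × V → ℚ := fun g e => a g e.1 - a g e.2
  have hb1 : ∀ g h e, b (g * h) e = b g (h • e) + b h e := by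
    intro g h e
    change a (g * h) e.1 - a (g * h) e.2 = (a g (h • e.1) - a g (h • e.2)) + (a h e.1 - a h e.2)
    rw [ha1, ha1]
    ring
  have hb2 : ∀ g e, g • e = e → b g e = 0 := by
    intro g e he
    have e1 : g • e.1 = e.1 := congrArg Prod.fst he
    have e2 : g • e.2 = e.2 := congrArg Prod.snd he
    change a g e.1 - a g e.2 = 0
    obtain ⟨w, hw, _⟩ := hT.existsUnique_path e.1 e.2
    rw [ha2 _ _ e1, ha2 _ _ e2, hwalk w g (fix_path hT hadj w hw e1 e2), sub_self]
  obtain ⟨β, hβ⟩ := cob b hb1 hb2
  let β' : V → V → ℚ := fun v w => (β (v, w) - β (w, v)) / 2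
  have hβ' : ∀ g v w, a g v - a g w = β' (g • v) (g • w) - β' v w := by
    intro g v w
    have e1 : a g v - a g w = β (g • v, g • w) - β (v, w) := hβ g (v, w)
    have e2 : a g w - a g v = β (g • w, g • v) - β (w, v) := hβ g (w, v)
    change a g v - a g w = (β (g • v, g • w) - β (g • w, g • v)) / 2 - (β (v, w) - β (w, v)) / 2
    linarith
  obtain ⟨r⟩ := hT.connected.nonempty
  let P : V → ℚ := fun v => Multiplicative.toAdd
    (pot hT r (fun x y => Multiplicative.ofAdd (β' y x)) v)
  have hP : ∀ v w, T.Adj v w → P w - P v = β' v w := by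
    intro v w hvw
    have e1 := pot_adj hT r (fun x y => Multiplicative.ofAdd (β' y x)) (fun x y _ => by
      apply Multiplicative.toAdd.injective
      rw [toAdd_inv, toAdd_ofAdd, toAdd_ofAdd]
      change (β (x, y) - β (y, x)) / 2 = -((β (y, x) - β (x, y)) / 2)
      ring) hvw.symm
    have e2 : P w = P v + β' v w := by
      change Multiplicative.toAdd _ = _
      rw [e1, toAdd_mul, toAdd_ofAdd]
    rw [e2]
    ring
  let F : Γ → V → ℚ := fun g v => a g v + (P (g • v) - P v)
  have hF : ∀ g v w, F g v = F g w := by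
    intro g v w
    obtain ⟨p⟩ := hT.connected.preconnected v w
    induction p with
    | nil => rfl
    | @cons u v w h p ih =>
      rw [← ih]
      change a g u + (P (g • u) - P u) = a g v + (P (g • v) - P v)
      have e1 := hβ' g u v
      rw [← hP _ _ (hadj g _ _ h), ← hP _ _ h] at e1
      linarith
  refine ⟨{ toFun := fun g => Multiplicative.ofAdd (F g r)
            map_one' := ?_
            map_mul' := ?_ }, ?_⟩
  · have e1 : F 1 r = 0 := by
      change a 1 r + (P ((1 : Γ) • r) - P r) = 0
      have e2 := ha1 1 1 r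
      rw [one_mul, one_smul] at e2
      rw [one_smul]
      linarith
    rw [e1]
    rfl
  · intro g h
    have e1 : F (g * h) r = F g r + F h r := by
      rw [hF g r (h • r)]
      change a (g * h) r + (P ((g * h) • r) - P r) =
        (a g (h • r) + (P (g • h • r) - P (h • r))) + (a h r + (P (h • r) - P r))
      rw [ha1, mul_smul]
      ring
    rw [e1]
    rfl
  · intro v g hg
    change Multiplicative.ofAdd (F g r) = _
    rw [hF g r v]
    congr 1
    change a g v + (P (g • v) - P v) = χ v g
    rw [hg, sub_self, add_zero, ha2 _ _ hg]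

end Pool.Agent.Q152.TC
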