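import Pool.Agent.Q152.TC.Cent

/-!
# The stabilizers of the cylinders
-/

set_option autoImplicit false
set_option linter.unusedSectionVars false

namespace Pool.Agent.Q152.TC

open SimpleGraph Pool.Agent.Y462.SS Pool.Agent.Q152.WP Pool.Agent.Q152.TA Pool.Agent.Q91.FJ

variable {V Γ : Type} [Group Γ] [MulAction Γ V] {T : SimpleGraph V}
variable {C : ∀ (G : Type) [Group G], Prop}

theorem St_edge {d e : T.Dart} (h : d.edge = e.edge) : St Γ d.fst d.snd = St Γ e.fst e.snd := by
  rcases dart_edge_eq_iff d e |>.1 h with rfl | rfl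
  · rfl
  · exact inf_comm _ _

/-- the relation of edges: equal up to orientation, or with a common stabilizing element of infinite
order -/
def rel (Γ : Type) {V : Type} [Group Γ] [MulAction Γ V] (T : SimpleGraph V)
    (hvc : ∀ x y : V, T.Adj x y → VCyc (St Γ x y)) : Setoid T.Dart where
  r d e := d.edge = e.edge ∨
    ∃ g : Γ, ¬ IsOfFinOrder g ∧ g ∈ St Γ d.fst d.snd ∧ g ∈ St Γ e.fst e.snd
  iseqv := by
    refine ⟨fun d => Or.inl rfl, ?_, ?_⟩
    · rintro d e (h | ⟨g, h1, h2, h3⟩)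
      · exact Or.inl h.symm
      · exact Or.inr ⟨g, h1, h3, h2⟩
    · rintro d e f (h | ⟨g, h1, h2, h3⟩) (h' | ⟨g', h1', h2', h3'⟩)
      · exact Or.inl (h.trans h')
      · exact Or.inr ⟨g', h1', (St_edge (Γ := Γ) h).symm ▸ h2', h3'⟩
      · exact Or.inr ⟨g, h1, h2, (St_edge (Γ := Γ) h') ▸ h3⟩
      · obtain ⟨i, j, hi, hj, hij⟩ := (hvc _ _ e.adj).common h3 h2' h1 h1'
        refine Or.inr ⟨g ^ i, zpow_inf h1 hi, zpow_mem h2 i, ?_⟩
        rw [hij]
        exact zpow_mem h3' j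

section

variable (hvc : ∀ x y : V, T.Adj x y → VCyc (St Γ x y))

theorem rel_iff {d e : T.Dart} : (rel Γ T hvc) d e ↔ d.edge = e.edge ∨
    ∃ g : Γ, ¬ IsOfFinOrder g ∧ g ∈ St Γ d.fst d.snd ∧ g ∈ St Γ e.fst e.snd := Iff.rfl

theorem rel_conv (hT : T.IsTree)
    (hadj : ∀ (γ : Γ) (x y : V), T.Adj x y → T.Adj (γ • x) (γ • y)) : Conv T (rel Γ T hvc) := by
  refine ⟨fun d => Or.inl (Dart.edge_symm d), ?_⟩
  rintro d e (h | ⟨g, h1, h2, h3⟩) w hw a ha
  · rcases dart_edge_eq_iff d e |>.1 h with rfl | rfl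
    · have : w = Walk.nil := by
        have h1 := (hT.existsUnique_path d.fst d.fst).unique hw Walk.IsPath.nil
        exact h1
      rw [this] at ha
      simp at ha
    · have key : ∀ w : T.Walk e.snd e.fst, w.IsPath → ∀ a ∈ w.darts, a.edge = e.symm.edge := by
        intro w hw a ha
        have : w = Walk.cons e.adj.symm Walk.nil := by
          refine (hT.existsUnique_path e.snd e.fst).unique hw ?_
          rw [Walk.cons_isPath_iff]
          refine ⟨Walk.IsPath.nil, ?_⟩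
          rw [Walk.support_nil, List.mem_singleton]
          exact e.adj.ne.symm
        rw [this, Walk.darts_cons, Walk.darts_nil, List.mem_singleton] at ha
        rw [ha]
        rfl
      exact Or.inl (key w hw a ha)
  · refine Or.inr ⟨g, h1, ⟨?_, ?_⟩, h2⟩
    · exact fix_path hT hadj w hw h2.1 h3.1 _ (w.dart_fst_mem_support_of_mem_darts ha)
    · exact fix_path hT hadj w hw h2.1 h3.1 _ (w.dart_snd_mem_support_of_mem_darts ha)

variable (hadj : ∀ (γ : Γ) (x y : V), T.Adj x y → T.Adj (γ • x) (γ • y))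

/-- translates of edges -/
def dsm (γ : Γ) (d : T.Dart) : T.Dart := ⟨(γ • d.fst, γ • d.snd), hadj γ _ _ d.adj⟩

theorem dsm_rel (γ : Γ) {d e : T.Dart} (h : (rel Γ T hvc) d e) :
    (rel Γ T hvc) (dsm hadj γ d) (dsm hadj γ e) := by
  rcases h with h | ⟨g, h1, h2, h3⟩
  · rcases dart_edge_eq_iff d e |>.1 h with rfl | rfl
    · exact Or.inl rfl
    · exact Or.inl (Dart.edge_symm (dsm hadj γ e))
  · refine Or.inr ⟨γ * g * γ⁻¹, ?_, ?_, ?_⟩
    · intro h4
      apply h1
      have h5 := (isOfFinOrder_iff_of_inj (MulAut.conj γ).toMonoidHom (MulAut.conj γ).injective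
        (x := g)).1 h4
      exact h5
    · change γ * g * γ⁻¹ ∈ St Γ (γ • d.fst) (γ • d.snd)
      rw [St_smul]
      exact ⟨g, h2, rfl⟩
    · change γ * g * γ⁻¹ ∈ St Γ (γ • e.fst) (γ • e.snd)
      rw [St_smul]
      exact ⟨g, h3, rfl⟩

/-- the action on the graph of cylinders -/
@[reducible]
def cact : MulAction Γ (V ⊕ Quotient (rel Γ T hvc)) where
  smul γ a := match a with
    | .inl v => .inl (γ • v)
    | .inr Y => .inr (Quotient.map (dsm hadj γ) (fun _ _ h => dsm_rel hvc hadj γ h) Y)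
  one_smul a := by
    rcases a with v | Y
    · exact congrArg Sum.inl (one_smul Γ v)
    · induction Y using Quotient.ind with | _ d =>
      refine congrArg Sum.inr (Quotient.sound (Or.inl ?_))
      have : dsm hadj (1 : Γ) d = d := by
        refine Dart.ext _ _ (Prod.ext ?_ ?_)
        · exact one_smul Γ _
        · exact one_smul Γ _
      rw [this]
  mul_smul γ γ' a := by
    rcases a with v | Y
    · exact congrArg Sum.inl (mul_smul γ γ' v)
    · induction Y using Quotient.ind with | _ d =>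
      refine congrArg Sum.inr (Quotient.sound (Or.inl ?_))
      have : dsm hadj (γ * γ') d = dsm hadj γ (dsm hadj γ' d) := by
        refine Dart.ext _ _ (Prod.ext ?_ ?_)
        · exact mul_smul γ γ' _
        · exact mul_smul γ γ' _
      rw [this]

end

/-- `c` is balanced: no positive power of `c` is conjugate to a power with a different absolute value of
the exponent. -/
def Bal (c : Γ) : Prop := ∀ (g : Γ) (p q : ℤ), p ≠ 0 → g * c ^ p * g⁻¹ = c ^ q → q = p ∨ q = -p

/-- The commensurator of the cyclic group generated by `c`. -/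
def Cmm (c : Γ) : Subgroup Γ where
  carrier := {g | ∃ p q : ℤ, p ≠ 0 ∧ q ≠ 0 ∧ g * c ^ p * g⁻¹ = c ^ q}
  one_mem' := ⟨1, 1, one_ne_zero, one_ne_zero, by rw [one_mul, inv_one, mul_one]⟩
  mul_mem' := by
    rintro a b ⟨p, q, hp, hq, h⟩ ⟨p', q', hp', hq', h'⟩
    refine ⟨p' * p, q' * q, mul_ne_zero hp' hp, mul_ne_zero hq' hq, ?_⟩
    have h1 : b * c ^ (p' * p) * b⁻¹ = c ^ (q' * p) := by
      rw [zpow_mul, ← conj_zpow, h', ← zpow_mul]
    have h2 : a * c ^ (q' * p) * a⁻¹ = c ^ (q' * q) := by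
      rw [mul_comm q' p, zpow_mul, ← conj_zpow, h, ← zpow_mul, mul_comm q q']
    calc a * b * c ^ (p' * p) * (a * b)⁻¹ = a * (b * c ^ (p' * p) * b⁻¹) * a⁻¹ := by group
      _ = c ^ (q' * q) := by rw [h1, h2]
  inv_mem' := by
    rintro a ⟨p, q, hp, hq, h⟩
    refine ⟨q, p, hq, hp, ?_⟩
    rw [← h]
    group

section

variable (hvc : ∀ x y : V, T.Adj x y → VCyc (St Γ x y))
variable (hadj : ∀ (γ : Γ) (x y : V), T.Adj x y → T.Adj (γ • x) (γ • y))

/-- virtual centralizer -/
def VCent (z : Γ) : Subgroup Γ where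
  carrier := {g | ∃ n : ℤ, n ≠ 0 ∧ Commute g (z ^ n)}
  one_mem' := ⟨1, one_ne_zero, Commute.one_left _⟩
  mul_mem' := by
    rintro a b ⟨n, hn, h⟩ ⟨m, hm, h'⟩
    refine ⟨n * m, mul_ne_zero hn hm, ?_⟩
    refine Commute.mul_left ?_ ?_
    · rw [zpow_mul]
      exact h.zpow_right m
    · rw [mul_comm, zpow_mul]
      exact h'.zpow_right n
  inv_mem' := by
    rintro a ⟨n, hn, h⟩
    exact ⟨n, hn, h.inv_left⟩

include hvc hadj in
theorem vcent_mem (hC : Closed C) (hS : HasSolvable C) (hA : TreeClosed C) (hT : T.IsTree)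
    (hv : ∀ v : V, C (MulAction.stabilizer Γ v))
    {x₀ : V} {z : Γ} (hz : z • x₀ = x₀) (hz' : ¬ IsOfFinOrder z) : C (VCent z) := by
  let K : ℕ → Subgroup (VCent z) := fun n =>
    (Subgroup.centralizer ({z ^ (n.factorial : ℤ)} : Set Γ)).subgroupOf (VCent z)
  refine Pool.Agent.Y430.SS.t_union C hC (VCent z) K ?_ ?_ ?_
  · intro n m hnm x hx
    rw [Subgroup.mem_subgroupOf, Subgroup.mem_centralizer_singleton_iff] at hx ⊢
    obtain ⟨k, hk⟩ := Nat.factorial_dvd_factorial hnm
    have h1 : Commute (x : Γ) (z ^ (n.factorial : ℤ)) := hx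
    have h2 := h1.zpow_right (k : ℤ)
    rw [← zpow_mul] at h2
    rw [hk]
    push_cast
    exact h2
  · rintro ⟨g, n, hn, h⟩
    refine ⟨n.natAbs, ?_⟩
    rw [Subgroup.mem_subgroupOf, Subgroup.mem_centralizer_singleton_iff]
    have h1 : n ∣ (n.natAbs.factorial : ℤ) := by
      rw [← Int.natAbs_dvd]
      exact_mod_cast Nat.dvd_factorial (Int.natAbs_pos.2 hn) le_rfl
    obtain ⟨k, hk⟩ := h1
    rw [hk, zpow_mul]
    exact h.zpow_right k
  · intro n
    have h1 : C (Subgroup.centralizer ({z ^ (n.factorial : ℤ)} : Set Γ)) := by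
      refine cent_mem hC hS hA hT hadj hvc hv (x₀ := x₀) ?_
        (zpow_inf hz' (by exact_mod_cast n.factorial_ne_zero))
      have h2 : z ∈ MulAction.stabilizer Γ x₀ := hz
      exact zpow_mem h2 _
    let j : K n →* Subgroup.centralizer ({z ^ (n.factorial : ℤ)} : Set Γ) :=
      ((VCent z).subtype.comp (K n).subtype).codRestrict _ (fun x => x.2)
    refine hC.of_injective _ _ j ?_ h1
    intro a b hab
    have h2 : (j a).1 = (j b).1 := by rw [hab]
    exact Subtype.ext (Subtype.ext h2)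

theorem mem_of_subgroup (hC : Closed C) {M N : Subgroup Γ} (hi : N.relIndex M ≠ 0) (hN : C N) :
    C M := by
  refine hC.finiteIndex M (N.subgroupOf M) ⟨hi⟩ ?_
  let j : N.subgroupOf M →* N := (M.subtype.comp (N.subgroupOf M).subtype).codRestrict _
    (fun x => x.2)
  refine hC.of_injective _ _ j ?_ hN
  intro a b hab
  have h2 : (j a).1 = (j b).1 := by rw [hab]
  exact Subtype.ext (Subtype.ext h2)

include hvc hadj in
/-- **Stabilizers of cylinders.** -/
theorem cls_mem (hC : Closed C) (hS : HasSolvable C) (hA : TreeClosed C) (hT : T.IsTree)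
    (hv : ∀ v : V, C (MulAction.stabilizer Γ v))
    (hbal : ∀ x y : V, T.Adj x y → ∀ c ∈ St Γ x y, ¬ IsOfFinOrder c → ¬ Bal c → C (Cmm c))
    (d : T.Dart) (M : Subgroup Γ) (hM : ∀ g ∈ M, (rel Γ T hvc) (dsm hadj g d) d) : C M := by
  by_cases hz : ∃ z ∈ St Γ d.fst d.snd, ¬ IsOfFinOrder z
  · obtain ⟨z, hz, hz'⟩ := hz
    have key0 : ∀ g ∈ M, ∃ p q : ℤ, p ≠ 0 ∧ q ≠ 0 ∧ g * z ^ p * g⁻¹ = z ^ q := by
      intro g hg
      have h1 : ∃ h : Γ, ¬ IsOfFinOrder h ∧ h ∈ St Γ (g • d.fst) (g • d.snd) ∧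
          h ∈ St Γ d.fst d.snd := by
        rcases hM g hg with h | h
        · refine ⟨z, hz', ?_, hz⟩
          have h2 := St_edge (Γ := Γ) h
          change St Γ (g • d.fst) (g • d.snd) = _ at h2
          rw [h2]
          exact hz
        · exact h
      obtain ⟨h, hh, h2, h3⟩ := h1
      rw [St_smul] at h2
      obtain ⟨k, hk, rfl⟩ := h2
      have hk' : ¬ IsOfFinOrder k := fun h4 => hh
        ((isOfFinOrder_iff_of_inj (MulAut.conj g).toMonoidHom (MulAut.conj g).injective).2 h4)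
      obtain ⟨i, j, hi, hj, hij⟩ := (hvc _ _ d.adj).common hk hz hk' hz'
      obtain ⟨a, b, ha, hb, hab⟩ := (hvc _ _ d.adj).common h3 hz hh hz'
      have h4 : g * z ^ (j * a) * g⁻¹ = z ^ (b * i) := by
        rw [zpow_mul, ← hij, ← zpow_mul, zpow_mul z b i, ← hab, ← zpow_mul]
        have h5 : (MulAut.conj g).toMonoidHom k ^ (a * i) = g * k ^ (a * i) * g⁻¹ := by
          rw [← map_zpow]
          rfl
        rw [h5, mul_comm i a]
      exact ⟨j * a, b * i, mul_ne_zero hj ha, mul_ne_zero hb hi, h4⟩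
    by_cases hbz : Bal z
    swap
    · have hM' : M ≤ Cmm z := fun g hg => key0 g hg
      exact hC.of_injective _ _ (Subgroup.inclusion hM') (Subgroup.inclusion_injective hM')
        (hbal _ _ d.adj z hz hz' hbz)
    have key : ∀ g ∈ M, ∃ n : ℤ, n ≠ 0 ∧ (g * z ^ n * g⁻¹ = z ^ n ∨ g * z ^ n * g⁻¹ = z ^ (-n)) := by
      intro g hg
      obtain ⟨p, q, hp, hq, h4⟩ := key0 g hg
      refine ⟨p, hp, ?_⟩
      rcases hbz g p q hp h4 with h5 | h5
      · left
        rw [h4, h5]
      · right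
        rw [h4, h5]
    refine mem_of_subgroup hC (N := VCent z) ?_ (vcent_mem hvc hadj hC hS hA hT hv hz.1 hz')
    have hcomm : ∀ (g : Γ) (n : ℤ), n ≠ 0 → g * z ^ n * g⁻¹ = z ^ n → g ∈ VCent z := by
      intro g n hn h
      refine ⟨n, hn, ?_⟩
      change g * z ^ n = z ^ n * g
      exact mul_inv_eq_iff_eq_mul.1 h
    by_cases h0 : ∃ g₀ ∈ M, ∃ n : ℤ, n ≠ 0 ∧ g₀ * z ^ n * g₀⁻¹ = z ^ (-n)
    · obtain ⟨g₀, hg₀, n, hn, h⟩ := h0
      refine relIndex_of_cover {1, g₀} (Set.toFinite _) (fun g hg => ?_)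
      obtain ⟨m, hm, h1 | h1⟩ := key g hg
      · exact ⟨1, by simp, one_mem _, by rw [inv_one, one_mul]; exact hcomm g m hm h1⟩
      · refine ⟨g₀, by simp, hg₀, ?_⟩
        refine hcomm _ (n * m) (mul_ne_zero hn hm) ?_
        have h2 : g * z ^ (n * m) * g⁻¹ = z ^ (-(n * m)) := by
          have := congrArg (· ^ n) h1
          simp only [conj_zpow, ← zpow_mul] at this
          rw [mul_comm n m, this]
          congr 1
          ring
        have h3 : g₀ * z ^ (n * m) * g₀⁻¹ = z ^ (-(n * m)) := by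
          have := congrArg (· ^ m) h
          simp only [conj_zpow, ← zpow_mul] at this
          rw [this]
          congr 1
          ring
        have h4 : g₀⁻¹ * z ^ (-(n * m)) * g₀ = z ^ (n * m) := by
          rw [← h3]
          group
        calc g₀⁻¹ * g * z ^ (n * m) * (g₀⁻¹ * g)⁻¹ = g₀⁻¹ * (g * z ^ (n * m) * g⁻¹) * g₀ := by group
          _ = z ^ (n * m) := by rw [h2, h4]
    · refine relIndex_of_cover {1} (Set.toFinite _) (fun g hg => ?_)
      obtain ⟨m, hm, h1 | h1⟩ := key g hg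
      · exact ⟨1, by simp, one_mem _, by rw [inv_one, one_mul]; exact hcomm g m hm h1⟩
      · exact absurd ⟨g, hg, m, hm, h1⟩ h0
  · push Not at hz
    have h1 : (⊥ : Subgroup Γ).relIndex (St Γ d.fst d.snd) ≠ 0 := by
      obtain ⟨c, hc, hc', hi⟩ := (hvc _ _ d.adj).choose_gen
      exact (tors_relIndex le_rfl hc' hi hz).1
    have hedge : ∀ g ∈ M, (g • d.fst = d.fst ∧ g • d.snd = d.snd) ∨
        (g • d.fst = d.snd ∧ g • d.snd = d.fst) := by
      intro g hg
      rcases hM g hg with h | ⟨k, hk, _, h2⟩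
      · exact Sym2.eq_iff.1 h
      · exact absurd (hz k h2) hk
    have h2 : (St Γ d.fst d.snd).relIndex M ≠ 0 := by
      by_cases h0 : ∃ g₀ ∈ M, g₀ • d.fst = d.snd ∧ g₀ • d.snd = d.fst
      · obtain ⟨g₀, hg₀, h3, h4⟩ := h0
        refine relIndex_of_cover {1, g₀} (Set.toFinite _) (fun g hg => ?_)
        rcases hedge g hg with h5 | h5
        · refine ⟨1, by simp, one_mem _, ?_⟩
          rw [inv_one, one_mul]
          exact ⟨h5.1, h5.2⟩
        · refine ⟨g₀, by simp, hg₀, ?_, ?_⟩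
          · change (g₀⁻¹ * g) • d.fst = d.fst
            rw [mul_smul, h5.1, inv_smul_eq_iff, h3]
          · change (g₀⁻¹ * g) • d.snd = d.snd
            rw [mul_smul, h5.2, inv_smul_eq_iff, h4]
      · refine relIndex_of_cover {1} (Set.toFinite _) (fun g hg => ?_)
        rcases hedge g hg with h5 | h5
        · refine ⟨1, by simp, one_mem _, ?_⟩
          rw [inv_one, one_mul]
          exact ⟨h5.1, h5.2⟩
        · exact absurd ⟨g, hg, h5⟩ h0
    exact mem_of_subgroup hC (Subgroup.relIndex_ne_zero_trans h1 h2)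
      (Pool.Agent.Y430.SS.of_finite hC _ inferInstance)

end

end Pool.Agent.Q152.TC
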