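import Mathlib

/-!
# The tree of cylinders of an equivalence relation on the edges of a tree

Let `r` be an equivalence relation on the oriented edges of a tree, such that an edge and its
inverse are equivalent, and such that all edges between equivalent edges are equivalent to them.
The incidence graph of vertices and classes is a tree.
-/

set_option autoImplicit false

namespace Pool.Agent.Q152.TC

open SimpleGraph

variable {V : Type} {T : SimpleGraph V}

/-- An equivalence relation on the oriented edges of a tree whose classes are subtrees. -/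
structure Conv (T : SimpleGraph V) (r : Setoid T.Dart) : Prop where
  symm : ∀ d : T.Dart, r d.symm d
  conv : ∀ d e : T.Dart, r d e → ∀ w : T.Walk d.fst e.fst, w.IsPath → ∀ a ∈ w.darts, r a d

/-- incidence of vertices and classes -/
def Inc (r : Setoid T.Dart) (v : V) (Y : Quotient r) : Prop :=
  ∃ d : T.Dart, d.fst = v ∧ Quotient.mk r d = Y

/-- The incidence graph of the vertices and the classes. -/
def cyl (r : Setoid T.Dart) : SimpleGraph (V ⊕ Quotient r) where
  Adj a b := match a, b with
    | .inl v, .inr Y => Inc r v Y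
    | .inr Y, .inl v => Inc r v Y
    | .inl _, .inl _ => False
    | .inr _, .inr _ => False
  symm := ⟨by
    rintro (v | Y) (w | Z) h
    · exact h
    · exact h
    · exact h
    · exact h⟩
  loopless := ⟨by
    rintro (v | Y) h
    · exact h
    · exact h⟩

theorem cyl_adj {r : Setoid T.Dart} {v : V} {Y : Quotient r} :
    (cyl r).Adj (.inl v) (.inr Y) ↔ Inc r v Y := Iff.rfl

theorem cyl_reach {r : Setoid T.Dart} (h : Conv T r) {x y : V} (w : T.Walk x y) :
    (cyl r).Reachable (.inl x) (.inl y) := by
  induction w with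
  | nil => exact Reachable.refl _
  | @cons a b c hab p ih =>
    refine Reachable.trans ?_ ih
    have h1 : (cyl r).Adj (.inl a) (.inr (Quotient.mk r ⟨(a, b), hab⟩)) :=
      ⟨⟨(a, b), hab⟩, rfl, rfl⟩
    have h2 : (cyl r).Adj (.inl b) (.inr (Quotient.mk r ⟨(a, b), hab⟩)) :=
      ⟨(⟨(a, b), hab⟩ : T.Dart).symm, rfl, Quotient.sound (h.symm _)⟩
    exact h1.reachable.trans h2.reachable.symm

theorem cyl_connected (hT : T.IsTree) {r : Setoid T.Dart} (h : Conv T r) :
    (cyl r).Connected := by
  have hn : Nonempty V := hT.connected.nonempty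
  have h1 : ∀ a : V ⊕ Quotient r, ∃ x : V, (cyl r).Reachable a (.inl x) := by
    rintro (x | Y)
    · exact ⟨x, Reachable.refl _⟩
    · induction Y using Quotient.ind with | _ d =>
      have h2 : (cyl r).Adj (.inl d.fst) (.inr (Quotient.mk r d)) := ⟨d, rfl, rfl⟩
      exact ⟨d.fst, h2.reachable.symm⟩
  refine ⟨fun a b => ?_⟩
  obtain ⟨x, hx⟩ := h1 a
  obtain ⟨y, hy⟩ := h1 b
  obtain ⟨w⟩ := hT.connected.preconnected x y
  exact hx.trans ((cyl_reach h w).trans hy.symm)

/-- the edge from `v` to `u` separates `v` from `x` -/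
def Sp (T : SimpleGraph V) (v u x : V) : Prop := ¬ (T.deleteEdges {s(v, u)}).Reachable v x

theorem Sp_congr {v u x y : V} (h : T.Adj x y) (hne : s(x, y) ≠ s(v, u)) :
    Sp T v u x ↔ Sp T v u y := by
  have h1 : (T.deleteEdges {s(v, u)}).Adj x y := by
    rw [deleteEdges_adj]
    exact ⟨h, hne⟩
  exact not_congr ⟨fun h2 => h2.trans h1.reachable, fun h2 => h2.trans h1.reachable.symm⟩

theorem not_Sp_self (v u : V) : ¬ Sp T v u v := fun h => h (Reachable.refl _)

/-- `x` is separated from `v` by an edge of the class `Y` starting at `v` -/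
def Sd (r : Setoid T.Dart) (v : V) (Y : Quotient r) (x : V) : Prop :=
  ∃ (u : V) (h : T.Adj v u), Quotient.mk r ⟨(v, u), h⟩ = Y ∧ Sp T v u x

theorem Sd_congr {r : Setoid T.Dart} (hr : Conv T r) {v x y : V} {Y : Quotient r} (h : T.Adj x y)
    (hne : Quotient.mk r ⟨(x, y), h⟩ ≠ Y) : Sd r v Y x ↔ Sd r v Y y := by
  have h1 : ∀ u (hu : T.Adj v u), Quotient.mk r ⟨(v, u), hu⟩ = Y → s(x, y) ≠ s(v, u) := by
    intro u hu hY he
    rw [Sym2.eq_iff] at he
    rcases he with ⟨rfl, rfl⟩ | ⟨rfl, rfl⟩
    · exact hne hY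
    · apply hne
      rw [← hY]
      exact Quotient.sound (hr.symm ⟨(_, _), hu⟩)
  constructor
  · rintro ⟨u, hu, hY, h2⟩
    exact ⟨u, hu, hY, (Sp_congr h (h1 u hu hY)).1 h2⟩
  · rintro ⟨u, hu, hY, h2⟩
    exact ⟨u, hu, hY, (Sp_congr h (h1 u hu hY)).2 h2⟩

theorem not_Sd_self {r : Setoid T.Dart} {v : V} {Y : Quotient r} : ¬ Sd r v Y v := by
  rintro ⟨u, _, _, h⟩
  exact not_Sp_self v u h

theorem Sd_walk {r : Setoid T.Dart} (hr : Conv T r) {v x y : V} {Y : Quotient r} (w : T.Walk x y)
    (h : ∀ a ∈ w.darts, Quotient.mk r a ≠ Y) : Sd r v Y x ↔ Sd r v Y y := by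
  induction w with
  | nil => exact Iff.rfl
  | @cons a b c hab p ih =>
    rw [Walk.darts_cons] at h
    rw [← ih (fun d hd => h d (List.mem_cons_of_mem _ hd))]
    exact Sd_congr hr hab (h _ (List.mem_cons_self ..))

/-- a path from `v` whose first edge is in `Y` -/
theorem Sd_path (hT : T.IsTree) {r : Setoid T.Dart} {v x : V} {Y : Quotient r}
    (w : T.Walk v x) (hw : w.IsPath) (hne : v ≠ x) (h : ∀ a ∈ w.darts, Quotient.mk r a = Y) :
    Sd r v Y x := by
  cases w with
  | nil => exact absurd rfl hne
  | @cons _ u _ hvu p =>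
    refine ⟨u, hvu, h _ (by simp), ?_⟩
    intro hre
    have hbr := isAcyclic_iff_forall_adj_isBridge.1 hT.isAcyclic hvu
    refine (isBridge_iff.1 hbr) (hre.trans ?_)
    -- `p` avoids `v`
    rw [Walk.cons_isPath_iff] at hw
    obtain ⟨_, hv⟩ := hw
    have key : ∀ {a b : V} (q : T.Walk a b), v ∉ q.support →
        (T.deleteEdges {s(v, u)}).Reachable a b := by
      intro a b q hq
      induction q with
      | nil => exact Reachable.refl _
      | @cons a' b' c' hab q' ih =>
        rw [Walk.support_cons, List.mem_cons, not_or] at hq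
        have h2 : (T.deleteEdges {s(v, u)}).Adj a' b' := by
          rw [deleteEdges_adj]
          refine ⟨hab, fun he => ?_⟩
          rw [Set.mem_singleton_iff, Sym2.eq_iff] at he
          rcases he with ⟨h3, _⟩ | ⟨_, h3⟩
          · exact hq.1 h3.symm
          · exact hq.2 (h3 ▸ q'.start_mem_support)
        exact h2.reachable.trans (ih hq.2)
    exact (key p hv).symm

/-- **The graph of cylinders is a tree.** -/
theorem cyl_tree (hT : T.IsTree) {r : Setoid T.Dart} (hr : Conv T r) : (cyl r).IsTree := by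
  refine ⟨cyl_connected hT hr, ?_⟩
  have main : ∀ (v : V) (Y : Quotient r), Inc r v Y →
      ¬ ((cyl r).deleteEdges {s(Sum.inl v, Sum.inr Y)}).Reachable (.inl v) (.inr Y) := by
    intro v Y hvY hre
    let sd : V ⊕ Quotient r → Prop := fun a => match a with
      | .inl x => Sd r v Y x
      | .inr Z => Z = Y ∨ ∃ d : T.Dart, Quotient.mk r d = Z ∧ Sd r v Y d.fst
    have h1 : ∀ (x : V) (Z : Quotient r), Inc r x Z →
        s((Sum.inl x : V ⊕ Quotient r), Sum.inr Z) ≠ s(Sum.inl v, Sum.inr Y) →
          (sd (.inl x) ↔ sd (.inr Z)) := by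
      rintro x Z ⟨d, rfl, rfl⟩ hne
      by_cases hZ : Quotient.mk r d = Y
      · refine iff_of_true ?_ (Or.inl hZ)
        have hdv : v ≠ d.fst := by
          rintro rfl
          exact hne (by rw [hZ])
        obtain ⟨e, rfl, he⟩ := hvY
        obtain ⟨w, hw, _⟩ := hT.existsUnique_path e.fst d.fst
        refine Sd_path hT w hw hdv (fun a ha => ?_)
        rw [← he]
        exact Quotient.sound (hr.conv e d (Quotient.exact (he.trans hZ.symm)) w hw a ha)
      · constructor
        · intro h2
          exact Or.inr ⟨d, rfl, h2⟩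
        · rintro (h2 | ⟨e, he, h2⟩)
          · exact absurd h2 hZ
          · obtain ⟨w, hw, _⟩ := hT.existsUnique_path e.fst d.fst
            refine (Sd_walk hr w (fun a ha => ?_)).1 h2
            have h3 : Quotient.mk r a = Quotient.mk r e :=
              Quotient.sound (hr.conv e d (Quotient.exact he) w hw a ha)
            rw [h3, he]
            exact hZ
    have h2 : ∀ a b : V ⊕ Quotient r, ((cyl r).deleteEdges {s(Sum.inl v, Sum.inr Y)}).Adj a b →
        (sd a ↔ sd b) := by
      rintro (x | Z) (x' | Z') h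
      · rw [deleteEdges_adj] at h
        exact h.1.elim
      · rw [deleteEdges_adj] at h
        exact h1 x Z' h.1 h.2
      · rw [deleteEdges_adj] at h
        refine (h1 x' Z h.1 ?_).symm
        intro h3
        apply h.2
        rw [Set.mem_singleton_iff, ← h3, Sym2.eq_swap]
      · rw [deleteEdges_adj] at h
        exact h.1.elim
    have h3 : ∀ {a b : V ⊕ Quotient r}
        (w : ((cyl r).deleteEdges {s(Sum.inl v, Sum.inr Y)}).Walk a b), sd a ↔ sd b := by
      intro a b w
      induction w with
      | nil => exact Iff.rfl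
      | cons hab _ ih => exact (h2 _ _ hab).trans ih
    obtain ⟨w⟩ := hre
    exact not_Sd_self ((h3 w).2 (Or.inl rfl))
  rw [isAcyclic_iff_forall_adj_isBridge]
  rintro (v | Y) (w | Z) h
  · exact h.elim
  · rw [isBridge_iff]
    exact main v Z h
  · rw [Sym2.eq_swap, isBridge_iff]
    exact main w Y h
  · exact h.elim

end Pool.Agent.Q152.TC
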