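import Pool.Agent.Q152.TA.Sub
import Pool.Agent.Q152.TC.Cyl

/-!
# The hull of an orbit of a finitely generated group
-/

set_option autoImplicit false
set_option linter.unusedSectionVars false

namespace Pool.Agent.Q152.TC

open SimpleGraph Pool.Agent.Y462.SS Pool.Agent.Q152.WP Pool.Agent.Q152.TA

variable {V Γ : Type} [Group Γ] [MulAction Γ V] {T : SimpleGraph V}

/-- an element which fixes the ends of a path fixes the path -/
theorem fix_path (hT : T.IsTree) (hadj : ∀ (γ : Γ) (x y : V), T.Adj x y → T.Adj (γ • x) (γ • y))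
    {g : Γ} {x y : V} (w : T.Walk x y) (hw : w.IsPath) (hx : g • x = x) (hy : g • y = y) :
    ∀ z ∈ w.support, g • z = z := by
  let φ : T →g T := ⟨fun z => g • z, fun {a b} h => hadj g a b h⟩
  have hinj : Function.Injective φ := MulAction.injective g
  have h1 : ((w.map φ).copy hx hy).IsPath := by
    rw [Walk.isPath_copy]
    exact hw.map hinj
  have h2 : (w.map φ).copy hx hy = w := (hT.existsUnique_path x y).unique h1 hw
  intro z hz
  obtain ⟨n, hn, _⟩ := Walk.mem_support_iff_exists_getVert.1 hz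
  have h3 : ((w.map φ).copy hx hy).getVert n = w.getVert n := by rw [h2]
  rw [Walk.getVert_copy, Walk.getVert_map, hn] at h3
  exact h3

/-- a finitely generated group acts on a subtree with finitely many orbits of edges -/
theorem exists_hull (hT : T.IsTree)
    (hadj : ∀ (γ : Γ) (x y : V), T.Adj x y → T.Adj (γ • x) (γ • y)) (s : Finset Γ) (r : V) :
    ∃ (W : Set V) (E : Set (V × V)), E.Finite ∧ r ∈ W ∧ (T.induce W).IsTree ∧
      (∀ γ ∈ Subgroup.closure (s : Set Γ), ∀ x ∈ W, γ • x ∈ W) ∧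
      (∀ x ∈ W, ∀ y ∈ W, T.Adj x y →
        ∃ γ ∈ Subgroup.closure (s : Set Γ), ∃ p ∈ E, γ • p.1 = x ∧ γ • p.2 = y) ∧
      (∀ z : Γ, (∀ γ ∈ Subgroup.closure (s : Set Γ), z • γ • r = γ • r) → ∀ x ∈ W, z • x = x) := by
  classical
  set Λ : Subgroup Γ := Subgroup.closure (s : Set Γ) with hΛ
  have hpt : ∀ g : Γ, ∃ w : T.Walk r (g • r), w.IsPath := fun g =>
    (hT.existsUnique_path r (g • r)).exists
  choose w hw using hpt
  let E : Set (V × V) := ⋃ g ∈ s, {p | ∃ a ∈ (w g).darts, p = (a.fst, a.snd) ∨ p = (a.snd, a.fst)}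
  have hE : E.Finite := by
    refine Set.Finite.biUnion s.finite_toSet (fun g _ => ?_)
    refine Set.Finite.subset (((w g).darts.toFinset.image (fun a : T.Dart => (a.fst, a.snd)) ∪
      (w g).darts.toFinset.image (fun a : T.Dart => (a.snd, a.fst))).finite_toSet) ?_
    rintro p ⟨a, ha, h⟩
    rw [Finset.mem_coe, Finset.mem_union, Finset.mem_image, Finset.mem_image]
    rcases h with rfl | rfl
    · exact Or.inl ⟨a, List.mem_toFinset.2 ha, rfl⟩
    · exact Or.inr ⟨a, List.mem_toFinset.2 ha, rfl⟩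
  have hEs : ∀ p ∈ E, (p.2, p.1) ∈ E := by
    intro p hp
    obtain ⟨g, hg, a, ha, h⟩ := Set.mem_iUnion₂.1 hp
    refine Set.mem_iUnion₂.2 ⟨g, hg, a, ha, ?_⟩
    rcases h with rfl | rfl
    · exact Or.inr rfl
    · exact Or.inl rfl
  -- the graph of the translates
  let S : SimpleGraph V :=
    { Adj := fun x y => T.Adj x y ∧ ∃ γ ∈ Λ, ∃ p ∈ E, γ • p.1 = x ∧ γ • p.2 = y
      symm := ⟨fun x y h => ⟨h.1.symm, by
        obtain ⟨γ, hγ, p, hp, h1, h2⟩ := h.2
        exact ⟨γ, hγ, (p.2, p.1), hEs p hp, h2, h1⟩⟩⟩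
      loopless := ⟨fun x h => h.1.ne rfl⟩ }
  have hST : S ≤ T := fun x y h => h.1
  have hSadj : ∀ γ ∈ Λ, ∀ x y, S.Adj x y → S.Adj (γ • x) (γ • y) := by
    rintro γ hγ x y ⟨h, δ, hδ, p, hp, rfl, rfl⟩
    exact ⟨hadj γ _ _ h, γ * δ, mul_mem hγ hδ, p, hp, mul_smul _ _ _, mul_smul _ _ _⟩
  have hSmul : ∀ γ ∈ Λ, ∀ x y, S.Reachable x y → S.Reachable (γ • x) (γ • y) := by
    intro γ hγ x y h
    exact h.map ⟨fun z => γ • z, fun {a b} hab => hSadj γ hγ a b hab⟩
  -- the generators
  have hwalk : ∀ {x y : V} (q : T.Walk x y), (∀ a ∈ q.darts, S.Adj a.fst a.snd) →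
      S.Reachable x y := by
    intro x y q hq
    induction q with
    | nil => exact Reachable.refl _
    | @cons a b c hab p ih =>
      rw [Walk.darts_cons] at hq
      have h1 : S.Adj a b := hq ⟨(a, b), hab⟩ (List.mem_cons_self ..)
      exact h1.reachable.trans (ih fun d hd => hq d (List.mem_cons_of_mem _ hd))
  have hgen : ∀ g ∈ s, S.Reachable r (g • r) := by
    intro g hg
    refine hwalk (w g) (fun a ha => ⟨a.adj, 1, one_mem _, (a.fst, a.snd), ?_, one_smul _ _,
      one_smul _ _⟩)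
    exact Set.mem_iUnion₂.2 ⟨g, hg, a, ha, Or.inl rfl⟩
  have hΛr : ∀ γ ∈ Λ, S.Reachable r (γ • r) := by
    intro γ hγ
    refine Subgroup.closure_induction (p := fun γ _ => S.Reachable r (γ • r))
      (fun g hg => hgen g hg) ?_ ?_ ?_ hγ
    · rw [one_smul]
    · intro a b ha hb h1 h2
      rw [mul_smul]
      exact h1.trans (hSmul a ha _ _ h2)
    · intro a ha h1
      have h2 := hSmul a⁻¹ (inv_mem ha) _ _ h1
      rw [inv_smul_smul] at h2
      exact h2.symm
  let W : Set V := {x | S.Reachable r x}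
  have hrW : r ∈ W := Reachable.refl _
  have hWΛ : ∀ γ ∈ Λ, ∀ x ∈ W, γ • x ∈ W := fun γ hγ x hx =>
    (hΛr γ hγ).trans (hSmul γ hγ _ _ hx)
  have hconn : ∀ {x y : V} (_ : S.Walk x y) (hx : x ∈ W) (hy : y ∈ W),
      (T.induce W).Reachable ⟨x, hx⟩ ⟨y, hy⟩ := by
    intro x y q
    induction q with
    | nil => intro _ _; exact Reachable.refl _
    | @cons a b c hab p ih =>
      intro hx hy
      have hb : b ∈ W := Reachable.trans hx hab.reachable
      have h1 : (T.induce W).Adj ⟨a, hx⟩ ⟨b, hb⟩ := hab.1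
      exact h1.reachable.trans (ih hb hy)
  refine ⟨W, E, hE, hrW, ⟨?_, hT.isAcyclic.induce W⟩, hWΛ, ?_, ?_⟩
  · have : Nonempty W := ⟨⟨r, hrW⟩⟩
    refine ⟨fun x y => ?_⟩
    have h1 : S.Reachable x.1 y.1 := (show S.Reachable r x.1 from x.2).symm.trans y.2
    obtain ⟨q⟩ := h1
    exact hconn q x.2 y.2
  · intro x hx y hy hxy
    by_contra hno
    have hbr := isBridge_iff.1 (isAcyclic_iff_forall_adj_isBridge.1 hT.isAcyclic hxy)
    apply hbr
    have hle : S ≤ T.deleteEdges {s(x, y)} := by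
      intro a b hab
      rw [deleteEdges_adj]
      refine ⟨hab.1, fun he => hno ?_⟩
      rw [Set.mem_singleton_iff, Sym2.eq_iff] at he
      rcases he with ⟨rfl, rfl⟩ | ⟨rfl, rfl⟩
      · exact hab.2
      · exact hab.symm.2
    have h1 : S.Reachable x y := (show S.Reachable r x from hx).symm.trans hy
    exact h1.mono hle
  · intro z hz x hx
    have hfix : ∀ a b, S.Adj a b → z • a = a := by
      rintro a b ⟨_, γ, hγ, p, hp, rfl, rfl⟩
      obtain ⟨g, hg, d, hd, h⟩ := Set.mem_iUnion₂.1 hp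
      have h1 : (γ⁻¹ * z * γ) • r = r := by
        rw [mul_smul, mul_smul, hz γ hγ, inv_smul_smul]
      have h2 : (γ⁻¹ * z * γ) • g • r = g • r := by
        rw [mul_smul, mul_smul, ← mul_smul γ g r,
          hz (γ * g) (mul_mem hγ (Subgroup.subset_closure hg)), mul_smul, inv_smul_smul]
      have h3 := fix_path hT hadj (w g) (hw g) h1 h2
      have h4 : (γ⁻¹ * z * γ) • p.1 = p.1 := by
        rcases h with rfl | rfl
        · exact h3 _ ((w g).dart_fst_mem_support_of_mem_darts hd)
        · exact h3 _ ((w g).dart_snd_mem_support_of_mem_darts hd)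
      rw [mul_smul, mul_smul, inv_smul_eq_iff] at h4
      exact h4
    obtain ⟨q⟩ := (show S.Reachable r x from hx)
    rcases eq_or_ne r x with rfl | hne
    · have := hz 1 (one_mem _)
      rwa [one_smul] at this
    · cases q.reverse with
      | nil => exact absurd rfl hne
      | @cons _ b _ hab p => exact hfix _ _ hab

/-- finitely generated subgroups containing a given element -/
theorem of_fg' {C : ∀ (G : Type) [Group G], Prop} (hC : Closed C) {G : Type} [Group G] (z : G)
    (h : ∀ s : Finset G, z ∈ s → C (Subgroup.closure (s : Set G))) : C G := by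
  classical
  refine of_fg hC (fun s => ?_)
  have h1 : Subgroup.closure (s : Set G) ≤ Subgroup.closure ((insert z s : Finset G) : Set G) :=
    Subgroup.closure_mono (Finset.coe_subset.2 (Finset.subset_insert _ _))
  exact hC.of_injective _ _ (Subgroup.inclusion h1) (Subgroup.inclusion_injective h1)
    (h _ (Finset.mem_insert_self _ _))

end Pool.Agent.Q152.TC
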