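import Pool.Agent.Q152.TC.Cls

/-!
# Groups acting on trees with virtually cyclic edge stabilizers
-/

set_option autoImplicit false
set_option linter.unusedSectionVars false

namespace Pool.Agent.Q152.TC

open SimpleGraph Pool.Agent.Y462.SS Pool.Agent.Q152.WP Pool.Agent.Q152.TA Pool.Agent.Q91.FJ

variable {V Γ : Type} [Group Γ] [MulAction Γ V] {T : SimpleGraph V}
variable {C : ∀ (G : Type) [Group G], Prop}

theorem adj_inl {r : Setoid T.Dart} {v : V} {b : V ⊕ Quotient r} (h : (cyl r).Adj (.inl v) b) :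
    ∃ Y, b = .inr Y ∧ Inc r v Y := by
  rcases b with w | Y
  · exact h.elim
  · exact ⟨Y, rfl, h⟩

theorem adj_inr {r : Setoid T.Dart} {Y : Quotient r} {b : V ⊕ Quotient r}
    (h : (cyl r).Adj (.inr Y) b) : ∃ v, b = .inl v ∧ Inc r v Y := by
  rcases b with w | Z
  · exact ⟨w, rfl, h⟩
  · exact h.elim

theorem exists_dart {x y : V} (w : T.Walk x y) (hne : x ≠ y) : ∃ e, e ∈ w.darts := by
  cases w with
  | nil => exact absurd rfl hne
  | cons h p => exact ⟨_, List.mem_cons_self ..⟩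

/-- two different vertices of a cylinder -/
theorem edge_of (hT : T.IsTree) (hadj : ∀ (γ : Γ) (x y : V), T.Adj x y → T.Adj (γ • x) (γ • y))
    {r : Setoid T.Dart} (hr : Conv T r) {v v' : V} (hne : v ≠ v') {Y : Quotient r}
    (h : Inc r v Y) (h' : Inc r v' Y) :
    ∃ e : T.Dart, Quotient.mk r e = Y ∧
      ∀ g : Γ, g • v = v → g • v' = v' → g ∈ St Γ e.fst e.snd := by
  obtain ⟨d, rfl, rfl⟩ := h
  obtain ⟨d', rfl, hd'⟩ := h'
  obtain ⟨w, hw, _⟩ := hT.existsUnique_path d.fst d'.fst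
  obtain ⟨e, he⟩ := exists_dart w hne
  refine ⟨e, Quotient.sound (hr.conv d d' (Quotient.exact hd'.symm) w hw e he), ?_⟩
  intro g h1 h2
  exact ⟨fix_path hT hadj w hw h1 h2 _ (w.dart_fst_mem_support_of_mem_darts he),
    fix_path hT hadj w hw h1 h2 _ (w.dart_snd_mem_support_of_mem_darts he)⟩

/-- the cocompact case -/
theorem main_cocompact (hC : Closed C) (hS : HasSolvable C) (hA : TreeClosed C) (hT : T.IsTree)
    (hadj : ∀ (γ : Γ) (x y : V), T.Adj x y → T.Adj (γ • x) (γ • y))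
    (hvc : ∀ x y : V, T.Adj x y → VCyc (St Γ x y))
    (hv : ∀ v : V, C (MulAction.stabilizer Γ v))
    (hbal : ∀ x y : V, T.Adj x y → ∀ c ∈ St Γ x y, ¬ IsOfFinOrder c → ¬ Bal c → C (Cmm c))
    (hfg : Group.FG Γ) {E : Set (V × V)} (hE : E.Finite)
    (hcov : ∀ x y : V, T.Adj x y → ∃ h : Γ, ∃ p ∈ E, h • p.1 = x ∧ h • p.2 = y) : C Γ := by
  classical
  let r := rel Γ T hvc
  have hr : Conv T r := rel_conv hvc hT hadj
  have htree := cyl_tree hT hr
  let act : MulAction Γ (V ⊕ Quotient r) := cact hvc hadj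
  have hinl : ∀ (g : Γ) (v : V), g • (Sum.inl v : V ⊕ Quotient r) = Sum.inl (g • v) :=
    fun _ _ => rfl
  have hinr : ∀ (g : Γ) (d : T.Dart), g • (Sum.inr (Quotient.mk r d) : V ⊕ Quotient r) =
      Sum.inr (Quotient.mk r (dsm hadj g d)) := fun _ _ => rfl
  have hInc : ∀ (g : Γ) (v : V) (Y : Quotient r), Inc r v Y →
      (cyl r).Adj (g • (Sum.inl v : V ⊕ Quotient r)) (g • Sum.inr Y) := by
    rintro g v Y ⟨d, rfl, rfl⟩
    rw [hinl, hinr]
    exact ⟨dsm hadj g d, rfl, rfl⟩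
  have hadjB : ∀ (g : Γ) (a b : V ⊕ Quotient r), (cyl r).Adj a b → (cyl r).Adj (g • a) (g • b) := by
    rintro g (v | Y) (w | Z) h
    · exact h.elim
    · exact hInc g v Z h
    · exact (hInc g w Y h).symm
    · exact h.elim
  -- orbits of edges
  let cl : V × V → V ⊕ Quotient r := fun p =>
    if h : T.Adj p.1 p.2 then .inr (Quotient.mk r ⟨(p.1, p.2), h⟩) else .inl p.1
  let E' : Set ((V ⊕ Quotient r) × (V ⊕ Quotient r)) :=
    (fun p => (Sum.inl p.1, cl p)) '' E ∪ (fun p => (cl p, Sum.inl p.1)) '' E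
  have hE' : E'.Finite := (hE.image _).union (hE.image _)
  have hcovI : ∀ (v : V) (Y : Quotient r), Inc r v Y → ∃ h : Γ, ∃ p ∈ E,
      h • (Sum.inl p.1 : V ⊕ Quotient r) = Sum.inl v ∧ h • cl p = Sum.inr Y := by
    rintro v Y ⟨d, rfl, rfl⟩
    obtain ⟨h, p, hp, h1, h2⟩ := hcov _ _ d.adj
    have h3 : T.Adj p.1 p.2 := by
      have := hadj h⁻¹ _ _ d.adj
      rwa [← h1, ← h2, inv_smul_smul, inv_smul_smul] at this
    refine ⟨h, p, hp, ?_, ?_⟩
    · rw [hinl, h1]
    · have h4 : cl p = .inr (Quotient.mk r ⟨(p.1, p.2), h3⟩) := dif_pos h3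
      rw [h4, hinr]
      have h5 : dsm hadj h (⟨(p.1, p.2), h3⟩ : T.Dart) = d := Dart.ext _ _ (Prod.ext h1 h2)
      rw [h5]
  have hcovB : ∀ a b : V ⊕ Quotient r, (cyl r).Adj a b →
      ∃ h : Γ, ∃ p ∈ E', h • p.1 = a ∧ h • p.2 = b := by
    rintro (v | Y) (w | Z) h
    · exact h.elim
    · obtain ⟨h, p, hp, h1, h2⟩ := hcovI v Z h
      exact ⟨h, _, Or.inl ⟨p, hp, rfl⟩, h1, h2⟩
    · obtain ⟨h, p, hp, h1, h2⟩ := hcovI w Y h
      exact ⟨h, _, Or.inr ⟨p, hp, rfl⟩, h2, h1⟩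
    · exact h.elim
  -- uniform bound
  obtain ⟨m, hm⟩ := exists_bound (Γ := Γ) hE hcov
    (fun n x y => ∃ c ∈ St Γ x y, (c = 1 ∨ ¬ IsOfFinOrder c) ∧
      (Subgroup.zpowers c).relIndex (St Γ x y) ≠ 0 ∧ (Subgroup.zpowers c).relIndex (St Γ x y) ≤ n)
    (by
      rintro h x y n ⟨c, hc, hc', h1, h2⟩
      have h3 : Subgroup.zpowers (h * c * h⁻¹) =
          (Subgroup.zpowers c).map (MulAut.conj h).toMonoidHom := by
        rw [MonoidHom.map_zpowers]
        rfl
      refine ⟨h * c * h⁻¹, ?_, ?_, ?_, ?_⟩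
      · rw [St_smul]
        exact ⟨c, hc, rfl⟩
      · rcases hc' with rfl | hc'
        · left
          rw [mul_one, mul_inv_cancel]
        · right
          intro h4
          exact hc' ((isOfFinOrder_iff_of_inj (MulAut.conj h).toMonoidHom
            (MulAut.conj h).injective).1 h4)
      · rw [St_smul, h3, relIndex_conj]
        exact h1
      · rw [St_smul, h3, relIndex_conj]
        exact h2)
    (fun n n' x y h1 ⟨c, hc, hc', h2, h3⟩ => ⟨c, hc, hc', h2, h3.trans h1⟩) hadj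
    (fun x y hxy => by
      obtain ⟨c, hc, hc', hi⟩ := (hvc x y hxy).choose_gen
      exact ⟨_, c, hc, hc', hi, le_rfl⟩)
  refine hA (V ⊕ Quotient r) Γ (cyl r) ⊥ 6 m E' hfg htree hadjB hE' hcovB inferInstance ?_ ?_ ?_ ?_
  · intro n hn x
    rw [Subgroup.mem_bot.1 hn, one_smul]
  · -- acylindricity
    intro a b hab
    obtain ⟨w, hw, _⟩ := htree.existsUnique_path a b
    have hlen : 6 ≤ w.length := hab.trans (dist_le w)
    have hadjw : ∀ i, i < 6 → (cyl r).Adj (w.getVert i) (w.getVert (i + 1)) :=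
      fun i hi => w.adj_getVert_succ (by omega)
    have hinj : ∀ i j, i ≤ 6 → j ≤ 6 → w.getVert i = w.getVert j → i = j := by
      intro i j hi hj h
      exact hw.getVert_injOn (by simp; omega) (by simp; omega) h
    have hstart : ∃ i ≤ 1, ∃ v, w.getVert i = .inl v := by
      rcases h0 : w.getVert 0 with v | Y
      · exact ⟨0, by omega, v, h0⟩
      · have h1 := hadjw 0 (by omega)
        rw [h0] at h1
        obtain ⟨v, hv, _⟩ := adj_inr h1
        exact ⟨1, le_rfl, v, hv⟩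
    obtain ⟨i, hi, v₀, h0⟩ := hstart
    have a0 := hadjw i (by omega)
    rw [h0] at a0
    obtain ⟨Y₁, h1, I0⟩ := adj_inl a0
    have a1 := hadjw (i + 1) (by omega)
    rw [h1] at a1
    obtain ⟨v₁, h2, I1⟩ := adj_inr a1
    have a2 := hadjw (i + 1 + 1) (by omega)
    rw [h2] at a2
    obtain ⟨Y₂, h3, I2⟩ := adj_inl a2
    have a3 := hadjw (i + 1 + 1 + 1) (by omega)
    rw [h3] at a3
    obtain ⟨v₂, h4, I3⟩ := adj_inr a3
    have hv01 : v₀ ≠ v₁ := by
      rintro rfl
      have := hinj i (i + 1 + 1) (by omega) (by omega) (h0.trans h2.symm)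
      omega
    have hv12 : v₁ ≠ v₂ := by
      rintro rfl
      have := hinj (i + 1 + 1) (i + 1 + 1 + 1 + 1) (by omega) (by omega) (h2.trans h4.symm)
      omega
    have hY : Y₁ ≠ Y₂ := by
      rintro rfl
      have := hinj (i + 1) (i + 1 + 1 + 1) (by omega) (by omega) (h1.trans h3.symm)
      omega
    have hfix : ∀ g ∈ MulAction.stabilizer Γ a ⊓ MulAction.stabilizer Γ b, ∀ j v,
        w.getVert j = .inl v → g • v = v := by
      intro g hg j v hj
      have h5 := fix_path htree hadjB w hw hg.1 hg.2 _ (w.getVert_mem_support j)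
      rw [hj, hinl] at h5
      exact Sum.inl_injective h5
    obtain ⟨e₁, he₁, hs₁⟩ := edge_of (Γ := Γ) hT hadj hr hv01 I0 I1
    obtain ⟨e₂, he₂, hs₂⟩ := edge_of (Γ := Γ) hT hadj hr hv12 I2 I3
    obtain ⟨c, hc, hc', hi1, hi2⟩ := hm _ _ e₁.adj
    have hF1 : MulAction.stabilizer Γ a ⊓ MulAction.stabilizer Γ b ≤ St Γ e₁.fst e₁.snd :=
      fun g hg => hs₁ g (hfix g hg _ _ h0) (hfix g hg _ _ h2)
    have hF2 : MulAction.stabilizer Γ a ⊓ MulAction.stabilizer Γ b ≤ St Γ e₂.fst e₂.snd :=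
      fun g hg => hs₂ g (hfix g hg _ _ h2) (hfix g hg _ _ h4)
    have hF : ∀ x ∈ MulAction.stabilizer Γ a ⊓ MulAction.stabilizer Γ b, IsOfFinOrder x := by
      intro x hx
      by_contra hx'
      apply hY
      rw [← he₁, ← he₂]
      exact Quotient.sound (Or.inr ⟨x, hx', hF1 hx, hF2 hx⟩)
    have h5 := tors_relIndex hF1 hc' hi1 hF
    exact ⟨h5.1, h5.2.trans hi2⟩
  · -- vertex stabilizers
    rintro (v | Y)
    · have h1 : MulAction.stabilizer Γ (Sum.inl v : V ⊕ Quotient r) ≤ MulAction.stabilizer Γ v := by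
        intro g hg
        exact Sum.inl_injective (show (Sum.inl (g • v) : V ⊕ Quotient r) = Sum.inl v from hg)
      exact hC.of_injective _ _ (Subgroup.inclusion h1) (Subgroup.inclusion_injective h1) (hv v)
    · induction Y using Quotient.ind with | _ d =>
      refine cls_mem hvc hadj hC hS hA hT hv hbal d _ (fun g hg => ?_)
      have h1 : (Sum.inr (Quotient.mk r (dsm hadj g d)) : V ⊕ Quotient r) =
        Sum.inr (Quotient.mk r d) := hg
      exact Quotient.exact (Sum.inr_injective h1)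
  · intro h
    have h1 := two_mem hS (H := Γ) (z := 1) (h := h) (by rw [one_mul, mul_one])
    rw [Subgroup.zpowers_one_eq_bot] at h1
    exact h1

/-- **The theorem.** -/
theorem main (hC : Closed C) (hS : HasSolvable C) (hA : TreeClosed C) (hT : T.IsTree)
    (hadj : ∀ (γ : Γ) (x y : V), T.Adj x y → T.Adj (γ • x) (γ • y))
    (hvc : ∀ x y : V, T.Adj x y → VCyc (St Γ x y))
    (hv : ∀ v : V, C (MulAction.stabilizer Γ v))
    (hbal : ∀ x y : V, T.Adj x y → ∀ c ∈ St Γ x y, ¬ IsOfFinOrder c → ¬ Bal c → C (Cmm c)) : C Γ := by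
  classical
  refine of_fg hC (fun s => ?_)
  obtain ⟨r⟩ := hT.connected.nonempty
  obtain ⟨W, E, hE, hrW, hW, hinv, hedge, -⟩ := exists_hull (Γ := Γ) hT hadj s r
  let H : Subgroup Γ := Subgroup.closure (s : Set Γ)
  let act : MulAction H W :=
    { smul := fun h w => ⟨h.1 • w.1, hinv h.1 h.2 w.1 w.2⟩
      one_smul := fun w => Subtype.ext (one_smul Γ w.1)
      mul_smul := fun h h' w => Subtype.ext (mul_smul h.1 h'.1 w.1) }
  have hst : ∀ w : W, MulAction.stabilizer H w = (MulAction.stabilizer Γ (w : V)).comap H.subtype := by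
    intro w
    ext h
    exact Subtype.ext_iff
  have hSt : ∀ x y : W, St H x y = (St Γ (x : V) (y : V)).comap H.subtype := by
    intro x y
    rw [St, hst, hst]
    rfl
  let E' : Set (W × W) := {p | (p.1.1, p.2.1) ∈ E}
  have hE' : E'.Finite := by
    refine Set.Finite.preimage (f := fun p : W × W => (p.1.1, p.2.1)) ?_ hE
    intro p _ q _ h
    rw [Prod.mk.injEq] at h
    exact Prod.ext (Subtype.ext h.1) (Subtype.ext h.2)
  have hadjW : ∀ (h : H) (x y : W), (T.induce W).Adj x y → (T.induce W).Adj (h • x) (h • y) :=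
    fun h x y hxy => hadj h.1 x.1 y.1 hxy
  have hcov : ∀ x y : W, (T.induce W).Adj x y → ∃ h : H, ∃ p ∈ E', h • p.1 = x ∧ h • p.2 = y := by
    intro x y hxy
    obtain ⟨γ, hγ, p, hp, h1, h2⟩ := hedge x.1 x.2 y.1 y.2 hxy
    have hp1 : p.1 ∈ W := by
      have := hinv γ⁻¹ (inv_mem hγ) x.1 x.2
      rwa [← h1, inv_smul_smul] at this
    have hp2 : p.2 ∈ W := by
      have := hinv γ⁻¹ (inv_mem hγ) y.1 y.2
      rwa [← h2, inv_smul_smul] at this
    exact ⟨⟨γ, hγ⟩, (⟨p.1, hp1⟩, ⟨p.2, hp2⟩), hp, Subtype.ext h1, Subtype.ext h2⟩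
  refine main_cocompact (Γ := H) (T := T.induce W) hC hS hA hW hadjW ?_ ?_ ?_
    (Group.closure_finset_fg s) hE' hcov
  · intro x y hxy
    rw [hSt]
    exact (hvc x y hxy).comap H.subtype H.subtype_injective
  · intro x
    let j : MulAction.stabilizer H x →* MulAction.stabilizer Γ (x : V) :=
      (H.subtype.comp (MulAction.stabilizer H x).subtype).codRestrict _ (fun h => (hst x).le h.2)
    refine hC.of_injective _ _ j ?_ (hv x)
    intro a b hab
    have h2 : (j a).1 = (j b).1 := by rw [hab]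
    exact Subtype.ext (Subtype.ext h2)
  · intro x y hxy c hc hc' hb
    rw [hSt] at hc
    have h0 : ¬ IsOfFinOrder (c : Γ) := fun h1 =>
      hc' ((isOfFinOrder_iff_of_inj H.subtype H.subtype_injective).1 h1)
    have h1 : ¬ Bal (c : Γ) := by
      intro h2
      apply hb
      intro g p q hp h3
      exact h2 g.1 p q hp (congrArg Subtype.val h3)
    have h2 := hbal x y hxy c.1 hc h0 h1
    let j : Cmm c →* Cmm (c : Γ) := (H.subtype.comp (Cmm c).subtype).codRestrict _ (by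
      rintro ⟨g, p, q, hp, hq, h3⟩
      exact ⟨p, q, hp, hq, congrArg Subtype.val h3⟩)
    refine hC.of_injective _ _ j ?_ h2
    intro a b hab
    have h4 : (j a).1 = (j b).1 := by rw [hab]
    exact Subtype.ext (Subtype.ext h4)

end Pool.Agent.Q152.TC
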