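import Pool.Agent.Q152.TC.Amal

/-!
# Edge stabilizers of finite index in almost malnormal families of the vertex stabilizers
-/

set_option autoImplicit false
set_option linter.unusedSectionVars false

namespace Pool.Agent.Q152.TC

open SimpleGraph Pool.Agent.Y462.SS Pool.Agent.Q152.WP Pool.Agent.Q152.TA Pool.Agent.Q91.FJ

variable {V Γ : Type} [Group Γ] [MulAction Γ V] {T : SimpleGraph V}
variable {C : ∀ (G : Type) [Group G], Prop}

/-- `P` is an almost malnormal family of subgroups of `K`: different members have finite intersection,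
and for a member `A` and `g` in `K` outside `A` the groups `g A g⁻¹` and `A` have finite intersection. -/
def AMal (K : Subgroup Γ) (P : Set (Subgroup Γ)) : Prop :=
  (∀ A ∈ P, A ≤ K) ∧
  (∀ A ∈ P, ∀ B ∈ P, Infinite (A ⊓ B : Subgroup Γ) → A = B) ∧
  ∀ A ∈ P, ∀ g ∈ K, Infinite (A.map (MulAut.conj g).toMonoidHom ⊓ A : Subgroup Γ) → g ∈ A

/-- the infinite stabilizers of the edges at `v` have finite index in members of an almost malnormal
family of subgroups of the stabilizer of `v` -/
def PerAt (Γ : Type) {V : Type} [Group Γ] [MulAction Γ V] (T : SimpleGraph V) (v : V) : Prop :=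
  ∃ P : Set (Subgroup Γ), AMal (MulAction.stabilizer Γ v) P ∧
    ∀ w, T.Adj v w → Infinite (St Γ v w) → ∃ A ∈ P, St Γ v w ≤ A ∧ (St Γ v w).relIndex A ≠ 0

/-- the orders of the finite subgroups are bounded -/
def BTor (K : Subgroup Γ) : Prop := ∃ m : ℕ, ∀ F : Subgroup Γ, F ≤ K → Finite F → Nat.card F ≤ m

theorem inf_mono {A B : Subgroup Γ} (h : A ≤ B) (hA : Infinite A) : Infinite B :=
  Infinite.of_injective _ (Subgroup.inclusion_injective h)

theorem comm_refl (A : Subgroup Γ) : Comm A A := by
  constructor <;> (rw [Subgroup.relIndex_self]; exact one_ne_zero)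

theorem comm_trans {A B D : Subgroup Γ} (h : Comm A B) (h' : Comm B D) : Comm A D :=
  ⟨Subgroup.relIndex_ne_zero_trans h.1 h'.1, Subgroup.relIndex_ne_zero_trans h'.2 h.2⟩

theorem comm_inf {A B : Subgroup Γ} (h : Comm A B) (hA : Infinite A) :
    Infinite (A ⊓ B : Subgroup Γ) := by
  by_contra hcon
  rw [not_infinite_iff_finite] at hcon
  have h1 : (⊥ : Subgroup Γ).relIndex (A ⊓ B) ≠ 0 := by
    rw [Subgroup.relIndex_bot_left]
    exact Nat.card_pos.ne'
  have h2 : (A ⊓ B).relIndex A ≠ 0 := by
    rw [Subgroup.inf_relIndex_left]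
    exact h.2
  have h3 := Subgroup.relIndex_ne_zero_trans h1 h2
  rw [Subgroup.relIndex_bot_left] at h3
  exact h3 Nat.card_eq_zero_of_infinite

theorem comm_inf_right {A B : Subgroup Γ} (h : Comm A B) (hA : Infinite A) : Infinite B :=
  inf_mono inf_le_right (comm_inf h hA)

theorem comm_edges (hper : ∀ v : V, PerAt Γ T v) {v w u : V} (h : T.Adj v w) (h' : T.Adj v u)
    (hi : Infinite (St Γ v w ⊓ St Γ v u : Subgroup Γ)) : Comm (St Γ v w) (St Γ v u) := by
  obtain ⟨P, ⟨-, hP, -⟩, hw⟩ := hper v
  obtain ⟨A, hA, h1, h2⟩ := hw w h (inf_mono inf_le_left hi)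
  obtain ⟨B, hB, h3, h4⟩ := hw u h' (inf_mono inf_le_right hi)
  obtain rfl := hP A hA B hB (inf_mono (inf_le_inf h1 h3) hi)
  exact ⟨fun h0 => h2 (Subgroup.relIndex_eq_zero_of_le_right h3 h0),
    fun h0 => h4 (Subgroup.relIndex_eq_zero_of_le_right h1 h0)⟩

theorem comm_walk (hper : ∀ v : V, PerAt Γ T v) {I : Subgroup Γ} (hI : Infinite I) {b c : V}
    (p : T.Walk b c) : ∀ {a : V} (h : T.Adj a b),
    (∀ z ∈ (Walk.cons h p).support, I ≤ MulAction.stabilizer Γ z) →
    ∀ d ∈ (Walk.cons h p).darts, Comm (St Γ a b) (St Γ d.fst d.snd) := by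
  induction p with
  | nil =>
    intro a h _ d hd
    rw [Walk.darts_cons, Walk.darts_nil, List.mem_singleton] at hd
    rw [hd]
    exact comm_refl _
  | @cons b b' c h' p ih =>
    intro a h hfix d hd
    rw [Walk.darts_cons, List.mem_cons] at hd
    rcases hd with rfl | hd
    · exact comm_refl _
    · have hfix' : ∀ z ∈ (Walk.cons h' p).support, I ≤ MulAction.stabilizer Γ z := fun z hz =>
        hfix z (by rw [Walk.support_cons]; exact List.mem_cons_of_mem _ hz)
      refine comm_trans ?_ (ih h' hfix' d hd)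
      have ha : I ≤ MulAction.stabilizer Γ a := hfix a (Walk.start_mem_support _)
      have hb : I ≤ MulAction.stabilizer Γ b := hfix' b (Walk.start_mem_support _)
      have hb' : I ≤ MulAction.stabilizer Γ b' := hfix' b' (by
        rw [Walk.support_cons]
        exact List.mem_cons_of_mem _ (Walk.start_mem_support _))
      have h1 := comm_edges hper h.symm h'
        (inf_mono (le_inf (le_inf hb ha) (le_inf hb hb')) hI)
      rwa [show St Γ a b = St Γ b a from inf_comm _ _]

/-- edges with commensurable infinite stabilizers -/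
def prel (Γ : Type) {V : Type} [Group Γ] [MulAction Γ V] (T : SimpleGraph V) : Setoid T.Dart where
  r d e := d.edge = e.edge ∨
    (Infinite (St Γ d.fst d.snd) ∧ Comm (St Γ d.fst d.snd) (St Γ e.fst e.snd))
  iseqv := by
    refine ⟨fun d => Or.inl rfl, ?_, ?_⟩
    · rintro d e (h | ⟨h1, h2⟩)
      · exact Or.inl h.symm
      · exact Or.inr ⟨comm_inf_right h2 h1, h2.2, h2.1⟩
    · rintro d e f (h | ⟨h1, h2⟩) (h' | ⟨h1', h2'⟩)
      · exact Or.inl (h.trans h')
      · refine Or.inr ?_
        rw [St_edge (Γ := Γ) h]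
        exact ⟨h1', h2'⟩
      · refine Or.inr ⟨h1, ?_⟩
        rw [← St_edge (Γ := Γ) h']
        exact h2
      · exact Or.inr ⟨h1, comm_trans h2 h2'⟩

theorem prel_of_inf (hT : T.IsTree)
    (hadj : ∀ (γ : Γ) (x y : V), T.Adj x y → T.Adj (γ • x) (γ • y))
    (hper : ∀ v : V, PerAt Γ T v) {d e : T.Dart}
    (hi : Infinite (St Γ d.fst d.snd ⊓ St Γ e.fst e.snd : Subgroup Γ)) : (prel Γ T) d e := by
  obtain ⟨w, hw, _⟩ := hT.existsUnique_path d.fst e.fst
  let I : Subgroup Γ := St Γ d.fst d.snd ⊓ St Γ e.fst e.snd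
  have hfix : ∀ z ∈ w.support, I ≤ MulAction.stabilizer Γ z := fun z hz g hg =>
    fix_path hT hadj w hw hg.1.1 hg.2.1 z hz
  have h1 := comm_walk hper (I := I) hi (w.append (Walk.cons e.adj Walk.nil)) d.adj.symm (by
    intro z hz g hg
    rw [Walk.support_cons, List.mem_cons, Walk.mem_support_append_iff] at hz
    rcases hz with rfl | hz | hz
    · exact hg.1.2
    · exact hfix z hz hg
    · rw [Walk.support_cons, List.mem_cons, Walk.support_nil, List.mem_singleton] at hz
      rcases hz with rfl | rfl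
      · exact hg.2.1
      · exact hg.2.2) e (by
    rw [Walk.darts_cons, Walk.darts_append, Walk.darts_cons]
    refine List.mem_cons_of_mem _ (List.mem_append_right _ ?_)
    exact List.mem_cons_self ..)
  refine Or.inr ⟨inf_mono inf_le_left hi, ?_⟩
  rwa [show St Γ d.fst d.snd = St Γ d.snd d.fst from inf_comm _ _]

theorem prel_conv (hT : T.IsTree)
    (hadj : ∀ (γ : Γ) (x y : V), T.Adj x y → T.Adj (γ • x) (γ • y))
    (hper : ∀ v : V, PerAt Γ T v) : Conv T (prel Γ T) := by
  refine ⟨fun d => Or.inl (Dart.edge_symm d), ?_⟩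
  rintro d e (h | ⟨h1, h2⟩) w hw a ha
  · rcases dart_edge_eq_iff d e |>.1 h with rfl | rfl
    · have : w = Walk.nil := by
        have h1 := (hT.existsUnique_path d.fst d.fst).unique hw Walk.IsPath.nil
        exact h1
      rw [this] at ha
      simp at ha
    · have key : ∀ w : T.Walk e.snd e.fst, w.IsPath → ∀ a ∈ w.darts, a.edge = e.symm.edge := by
        intro w hw a ha
        have : w = Walk.cons e.adj.symm Walk.nil := by
          refine (hT.existsUnique_path e.snd e.fst).unique hw ?_
          rw [Walk.cons_isPath_iff]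
          refine ⟨Walk.IsPath.nil, ?_⟩
          rw [Walk.support_nil, List.mem_singleton]
          exact e.adj.ne.symm
        rw [this, Walk.darts_cons, Walk.darts_nil, List.mem_singleton] at ha
        rw [ha]
        rfl
      exact Or.inl (key w hw a ha)
  · have hi := comm_inf h2 h1
    refine prel_of_inf hT hadj hper ?_
    refine inf_mono ?_ hi
    intro g hg
    have hf := fix_path hT hadj w hw hg.1.1 hg.2.1
    exact ⟨⟨hf _ (w.dart_fst_mem_support_of_mem_darts ha),
      hf _ (w.dart_snd_mem_support_of_mem_darts ha)⟩, hg.1⟩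

variable (hadj : ∀ (γ : Γ) (x y : V), T.Adj x y → T.Adj (γ • x) (γ • y))

theorem comm_conj {A B : Subgroup Γ} (g : Γ) (h : Comm A B) :
    Comm (A.map (MulAut.conj g).toMonoidHom) (B.map (MulAut.conj g).toMonoidHom) := by
  constructor
  · rw [relIndex_conj]
    exact h.1
  · rw [relIndex_conj]
    exact h.2

theorem inf_conj {A : Subgroup Γ} (g : Γ) (h : Infinite A) :
    Infinite (A.map (MulAut.conj g).toMonoidHom) :=
  (A.equivMapOfInjective _ (MulAut.conj g).injective).toEquiv.infinite_iff.1 h

theorem prel_dsm (γ : Γ) {d e : T.Dart} (h : (prel Γ T) d e) :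
    (prel Γ T) (dsm hadj γ d) (dsm hadj γ e) := by
  rcases h with h | ⟨h1, h2⟩
  · rcases dart_edge_eq_iff d e |>.1 h with rfl | rfl
    · exact Or.inl rfl
    · exact Or.inl (Dart.edge_symm (dsm hadj γ e))
  · refine Or.inr ⟨?_, ?_⟩
    · change Infinite (St Γ (γ • d.fst) (γ • d.snd))
      rw [St_smul]
      exact inf_conj γ h1
    · change Comm (St Γ (γ • d.fst) (γ • d.snd)) (St Γ (γ • e.fst) (γ • e.snd))
      rw [St_smul, St_smul]
      exact comm_conj γ h2

/-- the action on the graph of cylinders -/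
@[reducible]
def gact (r : Setoid T.Dart)
    (hr : ∀ (γ : Γ) (d e : T.Dart), r d e → r (dsm hadj γ d) (dsm hadj γ e)) :
    MulAction Γ (V ⊕ Quotient r) where
  smul γ a := match a with
    | .inl v => .inl (γ • v)
    | .inr Y => .inr (Quotient.map (dsm hadj γ) (fun d e h => hr γ d e h) Y)
  one_smul a := by
    rcases a with v | Y
    · exact congrArg Sum.inl (one_smul Γ v)
    · induction Y using Quotient.ind with | _ d =>
      refine congrArg Sum.inr ?_
      have : dsm hadj (1 : Γ) d = d := by
        refine Dart.ext _ _ (Prod.ext ?_ ?_)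
        · exact one_smul Γ _
        · exact one_smul Γ _
      exact congrArg (Quotient.mk r) this
  mul_smul γ γ' a := by
    rcases a with v | Y
    · exact congrArg Sum.inl (mul_smul γ γ' v)
    · induction Y using Quotient.ind with | _ d =>
      refine congrArg Sum.inr ?_
      have : dsm hadj (γ * γ') d = dsm hadj γ (dsm hadj γ' d) := by
        refine Dart.ext _ _ (Prod.ext ?_ ?_)
        · exact mul_smul γ γ' _
        · exact mul_smul γ γ' _
      exact congrArg (Quotient.mk r) this

section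

include hadj

/-- the stabilizer of a class in the stabilizer of a vertex -/
theorem per_vertex (hper : ∀ v : V, PerAt Γ T v) {M : Subgroup Γ} {d : T.Dart}
    (hM : ∀ g : Γ, g ∈ M ↔ (prel Γ T) (dsm hadj g d) d) {e : T.Dart} (he : (prel Γ T) e d)
    (hi : Infinite (St Γ e.fst e.snd)) :
    Comm (M ⊓ MulAction.stabilizer Γ e.fst) (St Γ e.fst e.snd) := by
  have h1 : St Γ e.fst e.snd ≤ M ⊓ MulAction.stabilizer Γ e.fst := by
    intro g hg
    refine ⟨(hM g).2 ?_, hg.1⟩
    have h2 : dsm hadj g e = e := Dart.ext _ _ (Prod.ext hg.1 hg.2)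
    have h3 := prel_dsm hadj g he
    rw [h2] at h3
    exact (prel Γ T).trans ((prel Γ T).symm h3) he
  obtain ⟨P, ⟨-, -, hP⟩, hw⟩ := hper e.fst
  obtain ⟨A, hA, h2, h3⟩ := hw e.snd e.adj hi
  have h4 : M ⊓ MulAction.stabilizer Γ e.fst ≤ A := by
    intro g hg
    refine hP A hA g hg.2 ?_
    have h5 : (prel Γ T) (dsm hadj g e) e :=
      (prel Γ T).trans (prel_dsm hadj g he) ((prel Γ T).trans ((hM g).1 hg.1) ((prel Γ T).symm he))
    have h6 : Infinite (St Γ (g • e.fst) (g • e.snd) ⊓ St Γ e.fst e.snd : Subgroup Γ) := by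
      rcases h5 with h5 | ⟨h5, h6⟩
      · have h7 : St Γ (g • e.fst) (g • e.snd) = St Γ e.fst e.snd := St_edge (Γ := Γ) h5
        rw [h7, inf_idem]
        exact hi
      · exact comm_inf h6 h5
    refine inf_mono (inf_le_inf ?_ h2) h6
    rw [St_smul]
    exact Subgroup.map_mono h2
  constructor
  · rw [Subgroup.relIndex_eq_one.2 h1]
    exact one_ne_zero
  · exact fun h0 => h3 (Subgroup.relIndex_eq_zero_of_le_right h4 h0)

/-- **Stabilizers of cylinders.** -/
theorem per_cls (hC : Closed C) (hE : ExtClosed C) (hS : HasSolvable C) (hT : T.IsTree)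
    (hper : ∀ v : V, PerAt Γ T v)
    (hR : ∀ v w : V, T.Adj v w → ∃ n : ℕ, Rk n (St Γ v w))
    (hv : ∀ v : V, C (MulAction.stabilizer Γ v)) (d : T.Dart) (M : Subgroup Γ)
    (hM : ∀ g : Γ, g ∈ M ↔ (prel Γ T) (dsm hadj g d) d) : C M := by
  by_cases hinf : Infinite (St Γ d.fst d.snd)
  · let r := prel Γ T
    have hr : Conv T r := prel_conv hT hadj hper
    let Y : Quotient r := Quotient.mk r d
    let W : Set V := {v | Inc r v Y}
    have hinfY : ∀ e : T.Dart, Quotient.mk r e = Y → Infinite (St Γ e.fst e.snd) := by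
      intro e he
      rcases (Quotient.exact he : r e d) with h | ⟨h, _⟩
      · rw [St_edge (Γ := Γ) h]
        exact hinf
      · exact h
    have hsupp : ∀ {a b : V} (w : T.Walk a b), a ∈ W → (∀ e ∈ w.darts, Quotient.mk r e = Y) →
        ∀ z ∈ w.support, z ∈ W := by
      intro a b w
      induction w with
      | nil =>
        intro ha _ z hz
        rw [Walk.support_nil, List.mem_singleton] at hz
        rw [hz]
        exact ha
      | @cons a b c hab p ih =>
        intro ha hd z hz
        rw [Walk.support_cons, List.mem_cons] at hz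
        rcases hz with rfl | hz
        · exact ha
        · refine ih ?_ (fun e he => hd e (by
            rw [Walk.darts_cons]; exact List.mem_cons_of_mem _ he)) z hz
          have h1 : Quotient.mk r ⟨(a, b), hab⟩ = Y :=
            hd _ (by rw [Walk.darts_cons]; exact List.mem_cons_self ..)
          exact ⟨(⟨(a, b), hab⟩ : T.Dart).symm, rfl, (Quotient.sound (hr.symm _)).trans h1⟩
    have hW : (T.induce W).IsTree := by
      refine ⟨?_, hT.isAcyclic.induce W⟩
      have : Nonempty W := ⟨⟨d.fst, d, rfl, rfl⟩⟩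
      refine ⟨fun x y => ?_⟩
      obtain ⟨e, he, he'⟩ := x.2
      obtain ⟨f, hf, hf'⟩ := y.2
      obtain ⟨w, hw, _⟩ := hT.existsUnique_path e.fst f.fst
      have h1 : ∀ z ∈ w.support, z ∈ W := hsupp w ⟨e, rfl, he'⟩ (fun a ha => by
        rw [← he']
        exact Quotient.sound (hr.conv e f (Quotient.exact (he'.trans hf'.symm)) w hw a ha))
      have h2 : (T.induce W).Reachable ⟨e.fst, h1 _ w.start_mem_support⟩
        ⟨f.fst, h1 _ w.end_mem_support⟩ := ⟨w.induce W h1⟩
      have h3 : x = ⟨e.fst, h1 _ w.start_mem_support⟩ := Subtype.ext he.symm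
      have h4 : y = ⟨f.fst, h1 _ w.end_mem_support⟩ := Subtype.ext hf.symm
      rw [h3, h4]
      exact h2
    have hinv : ∀ g ∈ M, ∀ v ∈ W, g • v ∈ W := by
      rintro g hg v ⟨e, rfl, he⟩
      refine ⟨dsm hadj g e, rfl, ?_⟩
      exact (Quotient.sound (prel_dsm hadj g (Quotient.exact he))).trans
        (Quotient.sound ((hM g).1 hg))
    have hedge : ∀ (v w : V) (h : T.Adj v w), v ∈ W → w ∈ W →
        r (⟨(v, w), h⟩ : T.Dart) d := by
      rintro v w h ⟨e, rfl, he⟩ ⟨f, rfl, hf⟩
      have h1 : (Walk.cons h Walk.nil : T.Walk e.fst f.fst).IsPath := by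
        rw [Walk.cons_isPath_iff]
        refine ⟨Walk.IsPath.nil, ?_⟩
        rw [Walk.support_nil, List.mem_singleton]
        exact h.ne
      have h2 := hr.conv e f (Quotient.exact (he.trans hf.symm)) _ h1 ⟨(e.fst, f.fst), h⟩ (by
        rw [Walk.darts_cons]
        exact List.mem_cons_self ..)
      exact r.trans h2 (Quotient.exact he)
    let act : MulAction M W :=
      { smul := fun g v => ⟨g.1 • v.1, hinv g.1 g.2 v.1 v.2⟩
        one_smul := fun w => Subtype.ext (one_smul Γ w.1)
        mul_smul := fun h h' w => Subtype.ext (mul_smul h.1 h'.1 w.1) }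
    have hst : ∀ w : W, MulAction.stabilizer M w =
        (M ⊓ MulAction.stabilizer Γ (w : V)).comap M.subtype := by
      intro w
      ext h
      constructor
      · intro h1
        exact ⟨h.2, Subtype.ext_iff.1 h1⟩
      · intro h1
        exact Subtype.ext h1.2
    let f : M →* Unit := 1
    have hf : ∀ w : W, f.ker ⊓ MulAction.stabilizer M w = MulAction.stabilizer M w := by
      intro w
      refine inf_eq_right.2 (fun x _ => ?_)
      exact MonoidHom.mem_ker.2 rfl
    refine tree_comm' (Γ := M) (T := T.induce W) hW (fun g x y h => hadj g.1 x.1 y.1 h) hC hE hS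
      (Q := Unit) (Pool.Agent.Y430.SS.of_finite hC _ inferInstance) f ?_ ?_
    · intro x
      let j : MulAction.stabilizer M x →* MulAction.stabilizer Γ (x : V) :=
        (M.subtype.comp (MulAction.stabilizer M x).subtype).codRestrict _
          (fun h => ((hst x).le h.2).2)
      refine hC.of_injective _ _ j ?_ (hv x)
      intro a b hab
      have h2 : (j a).1 = (j b).1 := by rw [hab]
      exact Subtype.ext (Subtype.ext h2)
    · intro v w hvw
      right
      rw [hf, hf]
      have hvw' : T.Adj (v : V) (w : V) := hvw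
      have e1 : r (⟨((v : V), (w : V)), hvw'⟩ : T.Dart) d := hedge _ _ hvw' v.2 w.2
      have e2 : r (⟨((w : V), (v : V)), hvw'.symm⟩ : T.Dart) d := hedge _ _ hvw'.symm w.2 v.2
      have c1 := per_vertex hadj hper hM e1 (hinfY _ (Quotient.sound e1))
      have c2 := per_vertex hadj hper hM e2 (hinfY _ (Quotient.sound e2))
      have c2' : Comm (M ⊓ MulAction.stabilizer Γ (w : V)) (St Γ (v : V) (w : V)) := by
        rw [show St Γ (v : V) (w : V) = St Γ (w : V) (v : V) from inf_comm _ _]
        exact c2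
      have hcomap : ∀ A B : Subgroup Γ, Comm A B → Comm (A.comap M.subtype) (B.comap M.subtype) := by
        intro A B h
        constructor
        · rw [Subgroup.relIndex_comap]
          exact fun h0 => h.1 (Subgroup.relIndex_eq_zero_of_le_right (Subgroup.map_comap_le _ _) h0)
        · rw [Subgroup.relIndex_comap]
          exact fun h0 => h.2 (Subgroup.relIndex_eq_zero_of_le_right (Subgroup.map_comap_le _ _) h0)
      rw [hst, hst]
      obtain ⟨n, hn⟩ := hR v w hvw'
      refine ⟨hcomap _ _ (comm_trans c1 ⟨c2'.2, c2'.1⟩), n, ?_⟩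
      exact (Rk.comm hn ⟨c1.2, c1.1⟩).comap M.subtype M.subtype_injective
  · rw [not_infinite_iff_finite] at hinf
    have h1 : (⊥ : Subgroup Γ).relIndex (St Γ d.fst d.snd) ≠ 0 := by
      rw [Subgroup.relIndex_bot_left]
      exact Nat.card_pos.ne'
    have hedge : ∀ g ∈ M, (g • d.fst = d.fst ∧ g • d.snd = d.snd) ∨
        (g • d.fst = d.snd ∧ g • d.snd = d.fst) := by
      intro g hg
      rcases (hM g).1 hg with h | ⟨h, h2⟩
      · exact Sym2.eq_iff.1 h
      · exact absurd (comm_inf_right h2 h) (not_infinite_iff_finite.2 hinf)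
    have h2 : (St Γ d.fst d.snd).relIndex M ≠ 0 := by
      by_cases h0 : ∃ g₀ ∈ M, g₀ • d.fst = d.snd ∧ g₀ • d.snd = d.fst
      · obtain ⟨g₀, hg₀, h3, h4⟩ := h0
        refine relIndex_of_cover {1, g₀} (Set.toFinite _) (fun g hg => ?_)
        rcases hedge g hg with h5 | h5
        · refine ⟨1, by simp, one_mem _, ?_⟩
          rw [inv_one, one_mul]
          exact ⟨h5.1, h5.2⟩
        · refine ⟨g₀, by simp, hg₀, ?_, ?_⟩
          · change (g₀⁻¹ * g) • d.fst = d.fst
            rw [mul_smul, h5.1, inv_smul_eq_iff, h3]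
          · change (g₀⁻¹ * g) • d.snd = d.snd
            rw [mul_smul, h5.2, inv_smul_eq_iff, h4]
      · refine relIndex_of_cover {1} (Set.toFinite _) (fun g hg => ?_)
        rcases hedge g hg with h5 | h5
        · refine ⟨1, by simp, one_mem _, ?_⟩
          rw [inv_one, one_mul]
          exact ⟨h5.1, h5.2⟩
        · exact absurd ⟨g, hg, h5⟩ h0
    exact mem_of_subgroup hC (Subgroup.relIndex_ne_zero_trans h1 h2)
      (Pool.Agent.Y430.SS.of_finite hC _ inferInstance)

end

end Pool.Agent.Q152.TC
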