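import Pool.Agent.Q152.TC.Per

/-!
# Groups acting on trees with peripheral edge stabilizers
-/

set_option autoImplicit false
set_option linter.unusedSectionVars false

namespace Pool.Agent.Q152.TC

open SimpleGraph Pool.Agent.Y462.SS Pool.Agent.Q152.WP Pool.Agent.Q152.TA Pool.Agent.Q91.FJ

variable {V Γ : Type} [Group Γ] [MulAction Γ V] {T : SimpleGraph V}
variable {C : ∀ (G : Type) [Group G], Prop}

/-- the cocompact case -/
theorem per_cocompact (hC : Closed C) (hE : ExtClosed C) (hS : HasSolvable C) (hA : TreeClosed C)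
    (hT : T.IsTree)
    (hadj : ∀ (γ : Γ) (x y : V), T.Adj x y → T.Adj (γ • x) (γ • y))
    (hper : ∀ v : V, PerAt Γ T v)
    (hB : ∀ v w : V, T.Adj v w → BTor (St Γ v w))
    (hR : ∀ v w : V, T.Adj v w → ∃ n : ℕ, Rk n (St Γ v w))
    (hv : ∀ v : V, C (MulAction.stabilizer Γ v))
    (hfg : Group.FG Γ) {E : Set (V × V)} (hE' : E.Finite)
    (hcov : ∀ x y : V, T.Adj x y → ∃ h : Γ, ∃ p ∈ E, h • p.1 = x ∧ h • p.2 = y) : C Γ := by
  classical
  let r := prel Γ T
  have hr : Conv T r := prel_conv hT hadj hper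
  have htree := cyl_tree hT hr
  let act : MulAction Γ (V ⊕ Quotient r) := gact hadj r (fun γ d e h => prel_dsm hadj γ h)
  have hinl : ∀ (g : Γ) (v : V), g • (Sum.inl v : V ⊕ Quotient r) = Sum.inl (g • v) :=
    fun _ _ => rfl
  have hinr : ∀ (g : Γ) (d : T.Dart), g • (Sum.inr (Quotient.mk r d) : V ⊕ Quotient r) =
      Sum.inr (Quotient.mk r (dsm hadj g d)) := fun _ _ => rfl
  have hInc : ∀ (g : Γ) (v : V) (Y : Quotient r), Inc r v Y →
      (cyl r).Adj (g • (Sum.inl v : V ⊕ Quotient r)) (g • Sum.inr Y) := by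
    rintro g v Y ⟨d, rfl, rfl⟩
    rw [hinl, hinr]
    exact ⟨dsm hadj g d, rfl, rfl⟩
  have hadjB : ∀ (g : Γ) (a b : V ⊕ Quotient r), (cyl r).Adj a b → (cyl r).Adj (g • a) (g • b) := by
    rintro g (v | Y) (w | Z) h
    · exact h.elim
    · exact hInc g v Z h
    · exact (hInc g w Y h).symm
    · exact h.elim
  -- orbits of edges
  let cl : V × V → V ⊕ Quotient r := fun p =>
    if h : T.Adj p.1 p.2 then .inr (Quotient.mk r ⟨(p.1, p.2), h⟩) else .inl p.1
  let E₁ : Set ((V ⊕ Quotient r) × (V ⊕ Quotient r)) :=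
    (fun p => (Sum.inl p.1, cl p)) '' E ∪ (fun p => (cl p, Sum.inl p.1)) '' E
  have hE₁ : E₁.Finite := (hE'.image _).union (hE'.image _)
  have hcovI : ∀ (v : V) (Y : Quotient r), Inc r v Y → ∃ h : Γ, ∃ p ∈ E,
      h • (Sum.inl p.1 : V ⊕ Quotient r) = Sum.inl v ∧ h • cl p = Sum.inr Y := by
    rintro v Y ⟨d, rfl, rfl⟩
    obtain ⟨h, p, hp, h1, h2⟩ := hcov _ _ d.adj
    have h3 : T.Adj p.1 p.2 := by
      have := hadj h⁻¹ _ _ d.adj
      rwa [← h1, ← h2, inv_smul_smul, inv_smul_smul] at this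
    refine ⟨h, p, hp, ?_, ?_⟩
    · rw [hinl, h1]
    · have h4 : cl p = .inr (Quotient.mk r ⟨(p.1, p.2), h3⟩) := dif_pos h3
      rw [h4, hinr]
      have h5 : dsm hadj h (⟨(p.1, p.2), h3⟩ : T.Dart) = d := Dart.ext _ _ (Prod.ext h1 h2)
      rw [h5]
  have hcovB : ∀ a b : V ⊕ Quotient r, (cyl r).Adj a b →
      ∃ h : Γ, ∃ p ∈ E₁, h • p.1 = a ∧ h • p.2 = b := by
    rintro (v | Y) (w | Z) h
    · exact h.elim
    · obtain ⟨h, p, hp, h1, h2⟩ := hcovI v Z h
      exact ⟨h, _, Or.inl ⟨p, hp, rfl⟩, h1, h2⟩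
    · obtain ⟨h, p, hp, h1, h2⟩ := hcovI w Y h
      exact ⟨h, _, Or.inr ⟨p, hp, rfl⟩, h2, h1⟩
    · exact h.elim
  -- uniform bound
  obtain ⟨m, hm⟩ := exists_bound (Γ := Γ) hE' hcov
    (fun n x y => ∀ F : Subgroup Γ, F ≤ St Γ x y → Finite F → Nat.card F ≤ n)
    (by
      intro h x y n hn F hF hF'
      have h1 : F.map (MulAut.conj h⁻¹).toMonoidHom ≤ St Γ x y := by
        rintro _ ⟨g, hg, rfl⟩
        have h2 := hF hg
        rw [St_smul] at h2
        obtain ⟨k, hk, hk'⟩ := h2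
        have h3 : (MulAut.conj h⁻¹).toMonoidHom g = k := by
          rw [← hk']
          change h⁻¹ * (h * k * h⁻¹) * h⁻¹⁻¹ = k
          group
        rw [h3]
        exact hk
      let e := F.equivMapOfInjective (MulAut.conj h⁻¹).toMonoidHom (MulAut.conj h⁻¹).injective
      have h2 : Finite (F.map (MulAut.conj h⁻¹).toMonoidHom) := Finite.of_equiv _ e.toEquiv
      have h3 := hn _ h1 h2
      rwa [← Nat.card_congr e.toEquiv] at h3)
    (fun n n' x y h1 h2 F hF hF' => (h2 F hF hF').trans h1) hadj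
    (fun x y hxy => hB x y hxy)
  refine hA (V ⊕ Quotient r) Γ (cyl r) ⊥ 6 m E₁ hfg htree hadjB hE₁ hcovB inferInstance ?_ ?_ ?_ ?_
  · intro n hn x
    rw [Subgroup.mem_bot.1 hn, one_smul]
  · -- acylindricity
    intro a b hab
    obtain ⟨w, hw, _⟩ := htree.existsUnique_path a b
    have hlen : 6 ≤ w.length := hab.trans (dist_le w)
    have hadjw : ∀ i, i < 6 → (cyl r).Adj (w.getVert i) (w.getVert (i + 1)) :=
      fun i hi => w.adj_getVert_succ (by omega)
    have hinj : ∀ i j, i ≤ 6 → j ≤ 6 → w.getVert i = w.getVert j → i = j := by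
      intro i j hi hj h
      exact hw.getVert_injOn (by simp; omega) (by simp; omega) h
    have hstart : ∃ i ≤ 1, ∃ v, w.getVert i = .inl v := by
      rcases h0 : w.getVert 0 with v | Y
      · exact ⟨0, by omega, v, h0⟩
      · have h1 := hadjw 0 (by omega)
        rw [h0] at h1
        obtain ⟨v, hv, _⟩ := adj_inr h1
        exact ⟨1, le_rfl, v, hv⟩
    obtain ⟨i, hi, v₀, h0⟩ := hstart
    have a0 := hadjw i (by omega)
    rw [h0] at a0
    obtain ⟨Y₁, h1, I0⟩ := adj_inl a0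
    have a1 := hadjw (i + 1) (by omega)
    rw [h1] at a1
    obtain ⟨v₁, h2, I1⟩ := adj_inr a1
    have a2 := hadjw (i + 1 + 1) (by omega)
    rw [h2] at a2
    obtain ⟨Y₂, h3, I2⟩ := adj_inl a2
    have a3 := hadjw (i + 1 + 1 + 1) (by omega)
    rw [h3] at a3
    obtain ⟨v₂, h4, I3⟩ := adj_inr a3
    have hv01 : v₀ ≠ v₁ := by
      rintro rfl
      have := hinj i (i + 1 + 1) (by omega) (by omega) (h0.trans h2.symm)
      omega
    have hv12 : v₁ ≠ v₂ := by
      rintro rfl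
      have := hinj (i + 1 + 1) (i + 1 + 1 + 1 + 1) (by omega) (by omega) (h2.trans h4.symm)
      omega
    have hY : Y₁ ≠ Y₂ := by
      rintro rfl
      have := hinj (i + 1) (i + 1 + 1 + 1) (by omega) (by omega) (h1.trans h3.symm)
      omega
    have hfix : ∀ g ∈ MulAction.stabilizer Γ a ⊓ MulAction.stabilizer Γ b, ∀ j v,
        w.getVert j = .inl v → g • v = v := by
      intro g hg j v hj
      have h5 := fix_path htree hadjB w hw hg.1 hg.2 _ (w.getVert_mem_support j)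
      rw [hj, hinl] at h5
      exact Sum.inl_injective h5
    obtain ⟨e₁, he₁, hs₁⟩ := edge_of (Γ := Γ) hT hadj hr hv01 I0 I1
    obtain ⟨e₂, he₂, hs₂⟩ := edge_of (Γ := Γ) hT hadj hr hv12 I2 I3
    have hF1 : MulAction.stabilizer Γ a ⊓ MulAction.stabilizer Γ b ≤ St Γ e₁.fst e₁.snd :=
      fun g hg => hs₁ g (hfix g hg _ _ h0) (hfix g hg _ _ h2)
    have hF2 : MulAction.stabilizer Γ a ⊓ MulAction.stabilizer Γ b ≤ St Γ e₂.fst e₂.snd :=
      fun g hg => hs₂ g (hfix g hg _ _ h2) (hfix g hg _ _ h4)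
    have hF : Finite (MulAction.stabilizer Γ a ⊓ MulAction.stabilizer Γ b : Subgroup Γ) := by
      by_contra hcon
      rw [not_finite_iff_infinite] at hcon
      apply hY
      rw [← he₁, ← he₂]
      exact Quotient.sound (prel_of_inf hT hadj hper (inf_mono (le_inf hF1 hF2) hcon))
    rw [Subgroup.relIndex_bot_left]
    exact ⟨Nat.card_pos.ne', hm _ _ e₁.adj _ hF1 hF⟩
  · -- vertex stabilizers
    rintro (v | Y)
    · have h1 : MulAction.stabilizer Γ (Sum.inl v : V ⊕ Quotient r) ≤ MulAction.stabilizer Γ v := by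
        intro g hg
        exact Sum.inl_injective (show (Sum.inl (g • v) : V ⊕ Quotient r) = Sum.inl v from hg)
      exact hC.of_injective _ _ (Subgroup.inclusion h1) (Subgroup.inclusion_injective h1) (hv v)
    · induction Y using Quotient.ind with | _ d =>
      refine per_cls hadj hC hE hS hT hper hR hv d _ (fun g => ⟨fun hg => ?_, fun hg => ?_⟩)
      · have h1 : (Sum.inr (Quotient.mk r (dsm hadj g d)) : V ⊕ Quotient r) =
          Sum.inr (Quotient.mk r d) := hg
        exact Quotient.exact (Sum.inr_injective h1)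
      · exact congrArg Sum.inr (Quotient.sound hg)
  · intro h
    have h1 := two_mem hS (H := Γ) (z := 1) (h := h) (by rw [one_mul, mul_one])
    rw [Subgroup.zpowers_one_eq_bot] at h1
    exact h1

/-- **The theorem.** -/
theorem per_main (hC : Closed C) (hE : ExtClosed C) (hS : HasSolvable C) (hA : TreeClosed C)
    (hT : T.IsTree)
    (hadj : ∀ (γ : Γ) (x y : V), T.Adj x y → T.Adj (γ • x) (γ • y))
    (hper : ∀ v : V, PerAt Γ T v)
    (hB : ∀ v w : V, T.Adj v w → BTor (St Γ v w))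
    (hR : ∀ v w : V, T.Adj v w → ∃ n : ℕ, Rk n (St Γ v w))
    (hv : ∀ v : V, C (MulAction.stabilizer Γ v)) : C Γ := by
  classical
  refine of_fg hC (fun s => ?_)
  obtain ⟨r⟩ := hT.connected.nonempty
  obtain ⟨W, E, hE', hrW, hW, hinv, hedge, -⟩ := exists_hull (Γ := Γ) hT hadj s r
  let H : Subgroup Γ := Subgroup.closure (s : Set Γ)
  let act : MulAction H W :=
    { smul := fun h w => ⟨h.1 • w.1, hinv h.1 h.2 w.1 w.2⟩
      one_smul := fun w => Subtype.ext (one_smul Γ w.1)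
      mul_smul := fun h h' w => Subtype.ext (mul_smul h.1 h'.1 w.1) }
  have hst : ∀ w : W, MulAction.stabilizer H w = (MulAction.stabilizer Γ (w : V)).comap H.subtype := by
    intro w
    ext h
    exact Subtype.ext_iff
  have hSt : ∀ x y : W, St H x y = (St Γ (x : V) (y : V)).comap H.subtype := by
    intro x y
    rw [St, hst, hst]
    rfl
  let E₁ : Set (W × W) := {p | (p.1.1, p.2.1) ∈ E}
  have hE₁ : E₁.Finite := by
    refine Set.Finite.preimage (f := fun p : W × W => (p.1.1, p.2.1)) ?_ hE'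
    intro p _ q _ h
    rw [Prod.mk.injEq] at h
    exact Prod.ext (Subtype.ext h.1) (Subtype.ext h.2)
  have hadjW : ∀ (h : H) (x y : W), (T.induce W).Adj x y → (T.induce W).Adj (h • x) (h • y) :=
    fun h x y hxy => hadj h.1 x.1 y.1 hxy
  have hcov : ∀ x y : W, (T.induce W).Adj x y → ∃ h : H, ∃ p ∈ E₁, h • p.1 = x ∧ h • p.2 = y := by
    intro x y hxy
    obtain ⟨γ, hγ, p, hp, h1, h2⟩ := hedge x.1 x.2 y.1 y.2 hxy
    have hp1 : p.1 ∈ W := by
      have := hinv γ⁻¹ (inv_mem hγ) x.1 x.2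
      rwa [← h1, inv_smul_smul] at this
    have hp2 : p.2 ∈ W := by
      have := hinv γ⁻¹ (inv_mem hγ) y.1 y.2
      rwa [← h2, inv_smul_smul] at this
    exact ⟨⟨γ, hγ⟩, (⟨p.1, hp1⟩, ⟨p.2, hp2⟩), hp, Subtype.ext h1, Subtype.ext h2⟩
  -- infinite subgroups of `H` are infinite in `Γ`
  have hinfc : ∀ A : Subgroup Γ, Infinite (A.comap H.subtype) → Infinite A := by
    intro A hA'
    refine Infinite.of_injective (fun x : A.comap H.subtype => (⟨(x.1 : Γ), x.2⟩ : A)) ?_
    intro a b hab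
    exact Subtype.ext (Subtype.ext (congrArg (fun z : A => (z : Γ)) hab))
  refine per_cocompact (Γ := H) (T := T.induce W) hC hE hS hA hW hadjW ?_ ?_ ?_ ?_
    (Group.closure_finset_fg s) hE₁ hcov
  · intro v
    obtain ⟨P, ⟨hP0, hP1, hP2⟩, hP3⟩ := hper v.1
    refine ⟨(fun A : Subgroup Γ => A.comap H.subtype) '' P, ⟨?_, ?_, ?_⟩, ?_⟩
    · rintro _ ⟨A, hA', rfl⟩
      rw [hst]
      exact Subgroup.comap_mono (hP0 A hA')
    · rintro _ ⟨A, hA', rfl⟩ _ ⟨B, hB', rfl⟩ hi
      have h1 : Infinite (A ⊓ B : Subgroup Γ) := hinfc _ hi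
      rw [hP1 A hA' B hB' h1]
    · rintro _ ⟨A, hA', rfl⟩ g hg hi
      refine hP2 A hA' g.1 ((hst v).le hg) ?_
      refine hinfc _ (inf_mono ?_ hi)
      rintro x ⟨⟨y, hy, hxy⟩, hx⟩
      refine ⟨⟨y.1, hy, ?_⟩, hx⟩
      rw [← hxy]
      rfl
    · intro w hvw hi
      rw [hSt] at hi
      obtain ⟨A, hA', h1, h2⟩ := hP3 w.1 hvw (hinfc _ hi)
      refine ⟨_, ⟨A, hA', rfl⟩, ?_, ?_⟩
      · rw [hSt]
        exact Subgroup.comap_mono h1
      · rw [hSt, Subgroup.relIndex_comap]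
        exact fun h0 => h2 (Subgroup.relIndex_eq_zero_of_le_right (Subgroup.map_comap_le _ _) h0)
  · intro v w hvw
    obtain ⟨m, hm⟩ := hB v.1 w.1 hvw
    refine ⟨m, fun F hF hF' => ?_⟩
    let e := F.equivMapOfInjective H.subtype H.subtype_injective
    have h1 : F.map H.subtype ≤ St Γ v.1 w.1 := by
      rw [Subgroup.map_le_iff_le_comap, ← hSt]
      exact hF
    have h2 : Finite (F.map H.subtype) := Finite.of_equiv _ e.toEquiv
    have h3 := hm _ h1 h2
    rwa [← Nat.card_congr e.toEquiv] at h3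
  · intro v w hvw
    obtain ⟨n, hn⟩ := hR v.1 w.1 hvw
    refine ⟨n, ?_⟩
    rw [hSt]
    exact hn.comap H.subtype H.subtype_injective
  · intro x
    let j : MulAction.stabilizer H x →* MulAction.stabilizer Γ (x : V) :=
      (H.subtype.comp (MulAction.stabilizer H x).subtype).codRestrict _ (fun h => (hst x).le h.2)
    refine hC.of_injective _ _ j ?_ (hv x)
    intro a b hab
    have h2 : (j a).1 = (j b).1 := by rw [hab]
    exact Subtype.ext (Subtype.ext h2)

end Pool.Agent.Q152.TC
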