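import Pool.Agent.Q152.TC.Amal
import Pool.Agent.Q152.TA.Main

/-!
# Unbalanced elements with virtually split centralizers in the vertex stabilizers
-/

set_option autoImplicit false
set_option linter.unusedSectionVars false

namespace Pool.Agent.Q152.TC

open SimpleGraph Pool.Agent.Y462.SS Pool.Agent.Q152.WP Pool.Agent.Q152.TA Pool.Agent.Q91.FJ

variable {V Γ : Type} [Group Γ] [MulAction Γ V] {T : SimpleGraph V}
variable {C : ∀ (G : Type) [Group G], Prop}

/-- relative version of the theorem -/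
theorem main_rel (hC : Closed C) (hE : ExtClosed C) (hS : HasSolvable C) (hA : TreeClosed C)
    (hT : T.IsTree)
    (hadj : ∀ (γ : Γ) (x y : V), T.Adj x y → T.Adj (γ • x) (γ • y))
    (hvc : ∀ x y : V, T.Adj x y → VCyc (St Γ x y))
    (hv : ∀ v : V, C (MulAction.stabilizer Γ v))
    {Q : Type} [Group Q] (hQ : C Q) (f : Γ →* Q)
    (hf : ∀ x y : V, T.Adj x y → ∀ c ∈ St Γ x y, f c = 1 → IsOfFinOrder c) : C Γ := by
  have key : ∀ K : Subgroup Γ, (∀ a ∈ K, ∀ b ∈ K, f a * f b = f b * f a) → C K := by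
    intro K hK
    have hst : ∀ w : V, MulAction.stabilizer K w = (MulAction.stabilizer Γ w).comap K.subtype := by
      intro w
      ext h
      exact Iff.rfl
    have hSt : ∀ x y : V, St K x y = (St Γ x y).comap K.subtype := by
      intro x y
      rw [St, hst, hst]
      rfl
    refine main (Γ := K) (T := T) hC hS hA hT (fun g x y h => hadj g.1 x y h) ?_ ?_ ?_
    · intro x y h
      rw [hSt]
      exact (hvc x y h).comap K.subtype K.subtype_injective
    · intro x
      let j : MulAction.stabilizer K x →* MulAction.stabilizer Γ x :=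
        (K.subtype.comp (MulAction.stabilizer K x).subtype).codRestrict _ (fun h => (hst x).le h.2)
      refine hC.of_injective _ _ j ?_ (hv x)
      intro a b hab
      have h2 : (j a).1 = (j b).1 := by rw [hab]
      exact Subtype.ext (Subtype.ext h2)
    · intro x y hxy c hc hc' hb
      exfalso
      apply hb
      intro g p q hp h
      left
      by_contra hne
      have h1 : (g : Γ) * (c : Γ) ^ p * (g : Γ)⁻¹ = (c : Γ) ^ q := congrArg Subtype.val h
      have hcomm : f g * f c = f c * f g := hK _ g.2 _ c.2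
      have h2 : f (c : Γ) ^ p = f (c : Γ) ^ q := by
        have h3 := congrArg f h1
        rw [map_mul, map_mul, map_zpow, map_zpow, map_inv] at h3
        have h4 : Commute (f (g : Γ)) (f (c : Γ) ^ p) := Commute.zpow_right hcomm p
        rwa [h4.eq, mul_inv_cancel_right] at h3
      have h3 : f ((c : Γ) ^ (q - p)) = 1 := by
        rw [map_zpow, zpow_sub, h2, mul_inv_cancel]
      rw [hSt] at hc
      have hc0 : ¬ IsOfFinOrder (c : Γ) := fun h4 => hc'
        ((isOfFinOrder_iff_of_inj K.subtype K.subtype_injective).1 h4)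
      exact zpow_inf hc0 (sub_ne_zero.2 hne) (hf x y hxy _ (zpow_mem hc _) h3)
  refine hE Γ f.range f.rangeRestrict f.rangeRestrict_surjective (of_sub hC _ hQ) ?_ ?_
  · refine key _ (fun a ha b hb => ?_)
    have h1 : f a = 1 := congrArg Subtype.val (MonoidHom.mem_ker.1 ha)
    have h2 : f b = 1 := congrArg Subtype.val (MonoidHom.mem_ker.1 hb)
    rw [h1, h2]
  · intro q _
    refine key _ ?_
    rintro a ⟨m, hm⟩ b ⟨n, hn⟩
    have h1 : f a = (q : Q) ^ m := (congrArg Subtype.val hm).symm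
    have h2 : f b = (q : Q) ^ n := (congrArg Subtype.val hn).symm
    rw [h1, h2, ← zpow_add, ← zpow_add, add_comm]

/-- some homomorphism from the group of the elements of `K` which commute with a power of `c` to the
rational numbers is not zero at a power of `c` -/
def VSplit (c : Γ) (K : Subgroup Γ) : Prop :=
  ∃ (χ : (VCent c ⊓ K : Subgroup Γ) →* Multiplicative ℚ) (k : ℤ) (h : c ^ k ∈ VCent c ⊓ K),
    χ ⟨c ^ k, h⟩ ≠ 1

theorem mq_torsion {x : Multiplicative ℚ} {n : ℤ} (hn : n ≠ 0) (h : x ^ n = 1) : x = 1 := by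
  have h1 : n • Multiplicative.toAdd x = 0 := by
    rw [← toAdd_zpow, h, toAdd_one]
  have h2 : Multiplicative.toAdd x = 0 := by
    rcases smul_eq_zero.1 h1 with h3 | h3
    · exact absurd h3 hn
    · exact h3
  exact Multiplicative.toAdd.injective (by rw [h2, toAdd_one])

theorem char_torsion {G : Type} [Group G] (χ : G →* Multiplicative ℚ) {x : G}
    (hx : IsOfFinOrder x) : χ x = 1 := by
  obtain ⟨n, hn, h1⟩ := isOfFinOrder_iff_pow_eq_one.1 hx
  refine mq_torsion (n := n) (by exact_mod_cast hn.ne') ?_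
  rw [zpow_natCast, ← map_pow, h1, map_one]

section

variable (hvc : ∀ x y : V, T.Adj x y → VCyc (St Γ x y))
variable (hadj : ∀ (γ : Γ) (x y : V), T.Adj x y → T.Adj (γ • x) (γ • y))

include hvc hadj in
/-- commensurators of elements with virtually split centralizers in the vertex stabilizers -/
theorem cmm_split (hC : Closed C) (hE : ExtClosed C) (hS : HasSolvable C) (hA : TreeClosed C)
    (hT : T.IsTree)
    (hv : ∀ v : V, C (MulAction.stabilizer Γ v)) (d : T.Dart) {c : Γ}
    (hc : c ∈ St Γ d.fst d.snd) (hc' : ¬ IsOfFinOrder c)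
    (hcv : ∀ (v : V) (j : ℤ), j ≠ 0 → c ^ j • v = v → VSplit c (MulAction.stabilizer Γ v)) :
    C (Cmm c) := by
  let r := rel Γ T hvc
  have hr : Conv T r := rel_conv hvc hT hadj
  let Y : Quotient r := Quotient.mk r d
  let W : Set V := {v | Inc r v Y}
  have hsupp : ∀ {a b : V} (w : T.Walk a b), a ∈ W → (∀ e ∈ w.darts, Quotient.mk r e = Y) →
      ∀ z ∈ w.support, z ∈ W := by
    intro a b w
    induction w with
    | nil =>
      intro ha _ z hz
      rw [Walk.support_nil, List.mem_singleton] at hz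
      rw [hz]
      exact ha
    | @cons a b c hab p ih =>
      intro ha hd z hz
      rw [Walk.support_cons, List.mem_cons] at hz
      rcases hz with rfl | hz
      · exact ha
      · refine ih ?_ (fun e he => hd e (by rw [Walk.darts_cons]; exact List.mem_cons_of_mem _ he)) z hz
        have h1 : Quotient.mk r ⟨(a, b), hab⟩ = Y :=
          hd _ (by rw [Walk.darts_cons]; exact List.mem_cons_self ..)
        exact ⟨(⟨(a, b), hab⟩ : T.Dart).symm, rfl, (Quotient.sound (hr.symm _)).trans h1⟩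
  have hW : (T.induce W).IsTree := by
    refine ⟨?_, hT.isAcyclic.induce W⟩
    have : Nonempty W := ⟨⟨d.fst, d, rfl, rfl⟩⟩
    refine ⟨fun x y => ?_⟩
    obtain ⟨e, he, he'⟩ := x.2
    obtain ⟨f, hf, hf'⟩ := y.2
    obtain ⟨w, hw, _⟩ := hT.existsUnique_path e.fst f.fst
    have h1 : ∀ z ∈ w.support, z ∈ W := hsupp w ⟨e, rfl, he'⟩ (fun a ha => by
      rw [← he']
      exact Quotient.sound (hr.conv e f (Quotient.exact (he'.trans hf'.symm)) w hw a ha))
    have h2 : (T.induce W).Reachable ⟨e.fst, h1 _ w.start_mem_support⟩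
      ⟨f.fst, h1 _ w.end_mem_support⟩ := ⟨w.induce W h1⟩
    have h3 : x = ⟨e.fst, h1 _ w.start_mem_support⟩ := Subtype.ext he.symm
    have h4 : y = ⟨f.fst, h1 _ w.end_mem_support⟩ := Subtype.ext hf.symm
    rw [h3, h4]
    exact h2
  have hinv : ∀ g ∈ Cmm c, ∀ v ∈ W, g • v ∈ W := by
    rintro g ⟨p, q, hp, hq, h⟩ v ⟨e, rfl, he⟩
    refine ⟨dsm hadj g e, rfl, ?_⟩
    have h1 : r (dsm hadj g e) (dsm hadj g d) := dsm_rel hvc hadj g (Quotient.exact he)
    have h2 : r (dsm hadj g d) d := by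
      refine Or.inr ⟨c ^ q, zpow_inf hc' hq, ?_, zpow_mem hc q⟩
      change c ^ q ∈ St Γ (g • d.fst) (g • d.snd)
      rw [St_smul, ← h]
      exact ⟨c ^ p, zpow_mem hc p, rfl⟩
    exact (Quotient.sound h1).trans (Quotient.sound h2)
  have hfixc : ∀ v ∈ W, ∃ j : ℤ, j ≠ 0 ∧ c ^ j • v = v := by
    rintro v ⟨e, rfl, he⟩
    rcases (Quotient.exact he : r e d) with h | ⟨g, hg, h1, h2⟩
    · refine ⟨1, one_ne_zero, ?_⟩
      rw [← St_edge (Γ := Γ) h] at hc
      rw [zpow_one]
      exact hc.1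
    · obtain ⟨i, j, hi, hj, hij⟩ := (hvc _ _ d.adj).common h2 hc hg hc'
      refine ⟨j, hj, ?_⟩
      have h3 : c ^ j ∈ St Γ e.fst e.snd := by
        rw [← hij]
        exact zpow_mem h1 i
      exact h3.1
  let M : Subgroup Γ := Cmm c
  have hcM : ∀ j : ℤ, c ^ j ∈ M := by
    intro j
    refine ⟨1, 1, one_ne_zero, one_ne_zero, ?_⟩
    have : Commute (c ^ j) (c ^ (1 : ℤ)) := Commute.zpow_zpow_self c j 1
    rw [this.eq, mul_inv_cancel_right]
  have hcV : ∀ j : ℤ, c ^ j ∈ VCent c := fun j => ⟨1, one_ne_zero, Commute.zpow_zpow_self c j 1⟩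
  let act : MulAction M W :=
    { smul := fun g v => ⟨g.1 • v.1, hinv g.1 g.2 v.1 v.2⟩
      one_smul := fun w => Subtype.ext (one_smul Γ w.1)
      mul_smul := fun h h' w => Subtype.ext (mul_smul h.1 h'.1 w.1) }
  have hst : ∀ w : W, MulAction.stabilizer M w =
      (MulAction.stabilizer Γ (w : V)).comap M.subtype := by
    intro w
    ext h
    exact Subtype.ext_iff
  have hSt : ∀ x y : W, St M x y = (St Γ (x : V) (y : V)).comap M.subtype := by
    intro x y
    rw [St, hst, hst]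
    rfl
  have hvcM : ∀ x y : W, (T.induce W).Adj x y → VCyc (St M x y) := by
    intro x y hxy
    rw [hSt]
    exact (hvc x y hxy).comap M.subtype M.subtype_injective
  have hadjM : ∀ (g : M) (x y : W), (T.induce W).Adj x y → (T.induce W).Adj (g • x) (g • y) :=
    fun g x y h => hadj g.1 x.1 y.1 h
  -- the series
  let M1 : W → Subgroup Γ := fun w => VCent c ⊓ MulAction.stabilizer Γ (w : V)
  have hM1M : ∀ w, M1 w ≤ M := by
    rintro w g ⟨⟨n, hn, h⟩, -⟩
    refine ⟨n, n, hn, hn, ?_⟩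
    rw [h.eq, mul_inv_cancel_right]
  let M2 : W → Subgroup M := fun w =>
    { carrier := {g | ∃ h : (g : Γ) ∈ M1 w, ∀ χ : M1 w →* Multiplicative ℚ, χ ⟨g, h⟩ = 1}
      one_mem' := ⟨one_mem _, fun χ => map_one χ⟩
      mul_mem' := by
        rintro a b ⟨ha, ha'⟩ ⟨hb, hb'⟩
        refine ⟨mul_mem ha hb, fun χ => ?_⟩
        have h1 := map_mul χ ⟨a, ha⟩ ⟨b, hb⟩
        rw [ha', hb', one_mul] at h1
        exact h1
      inv_mem' := by
        rintro a ⟨ha, ha'⟩
        refine ⟨inv_mem ha, fun χ => ?_⟩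
        have h1 := map_inv χ ⟨a, ha⟩
        rw [ha', inv_one] at h1
        exact h1 }
  let Ms : ℕ → W → Subgroup M := fun i w =>
    if i = 0 then MulAction.stabilizer M w else if i = 1 then (M1 w).comap M.subtype else M2 w
  have hconj1 : ∀ (γ : M) (w : W) (x : Γ), x ∈ M1 w → (γ : Γ) * x * (γ : Γ)⁻¹ ∈ M1 (γ • w) := by
    rintro ⟨γ, p, q, hp, hq, h⟩ w x ⟨⟨n, hn, hx⟩, hxw⟩
    refine ⟨⟨q * n, mul_ne_zero hq hn, ?_⟩, ?_⟩
    · have h1 : c ^ (q * n) = γ * c ^ (n * p) * γ⁻¹ := by
        rw [zpow_mul, ← h, conj_zpow, ← zpow_mul, mul_comm]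
      have h2 : Commute x (c ^ (n * p)) := by
        rw [zpow_mul]
        exact hx.zpow_right p
      change γ * x * γ⁻¹ * c ^ (q * n) = c ^ (q * n) * (γ * x * γ⁻¹)
      rw [h1]
      calc γ * x * γ⁻¹ * (γ * c ^ (n * p) * γ⁻¹) = γ * (x * c ^ (n * p)) * γ⁻¹ := by group
        _ = γ * (c ^ (n * p) * x) * γ⁻¹ := by rw [h2.eq]
        _ = γ * c ^ (n * p) * γ⁻¹ * (γ * x * γ⁻¹) := by group
    · change (γ * x * γ⁻¹) • γ • (w : V) = γ • (w : V)
      rw [← mul_smul, inv_mul_cancel_right, mul_smul]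
      exact congrArg (γ • ·) hxw
  let f : M →* Unit := 1
  have hf : ∀ w : W, f.ker ⊓ MulAction.stabilizer M w = MulAction.stabilizer M w := by
    intro w
    refine inf_eq_right.2 (fun x _ => ?_)
    exact MonoidHom.mem_ker.2 rfl
  obtain ⟨Q', _, f', hQ', hf'⟩ := series (Γ := M) (T := T.induce W) hW hadjM hC hE hS
    (Q := Unit) (Pool.Agent.Y430.SS.of_finite hC _ inferInstance) f Ms 2 (fun w => (hf w).symm)
    (by
      intro i hi w
      interval_cases i
      · intro g hg
        exact (hst w).ge hg.2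
      · rintro g ⟨hg, _⟩
        exact hg)
    (by
      intro i hi w
      interval_cases i
      · change ⁅MulAction.stabilizer M w, MulAction.stabilizer M w⁆ ≤ (M1 w).comap M.subtype
        rw [Subgroup.commutator_le]
        rintro ⟨a, p, q, hp, hq, h⟩ ha ⟨b, s, t, hs, ht, h'⟩ hb
        have ha' : a • (w : V) = w := (hst w).le ha
        have hb' : b • (w : V) = w := (hst w).le hb
        refine ⟨⟨q * t, mul_ne_zero hq ht, ?_⟩, ?_⟩
        · -- a c^p a⁻¹ = c^q, b c^s b⁻¹ = c^t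
          change a * b * a⁻¹ * b⁻¹ * c ^ (q * t) = c ^ (q * t) * (a * b * a⁻¹ * b⁻¹)
          have e1 : b * c ^ (q * s) * b⁻¹ = c ^ (q * t) := by
            rw [mul_comm q s, zpow_mul, ← conj_zpow, h', ← zpow_mul, mul_comm]
          have e2 : a * c ^ (p * s) * a⁻¹ = c ^ (q * s) := by
            rw [zpow_mul, ← conj_zpow, h, ← zpow_mul]
          have e3 : b * c ^ (p * s) * b⁻¹ = c ^ (p * t) := by
            rw [mul_comm p s, zpow_mul, ← conj_zpow, h', ← zpow_mul, mul_comm]
          have e4 : a * c ^ (p * t) * a⁻¹ = c ^ (q * t) := by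
            rw [zpow_mul, ← conj_zpow, h, ← zpow_mul]
          calc a * b * a⁻¹ * b⁻¹ * c ^ (q * t)
              = a * b * a⁻¹ * b⁻¹ * (b * c ^ (q * s) * b⁻¹) := by rw [e1]
            _ = a * b * a⁻¹ * (a * c ^ (p * s) * a⁻¹) * b⁻¹ := by rw [e2]; group
            _ = a * (b * c ^ (p * s) * b⁻¹) * b * a⁻¹ * b⁻¹ := by group
            _ = a * c ^ (p * t) * b * a⁻¹ * b⁻¹ := by rw [e3]
            _ = (a * c ^ (p * t) * a⁻¹) * (a * b * a⁻¹ * b⁻¹) := by group
            _ = c ^ (q * t) * (a * b * a⁻¹ * b⁻¹) := by rw [e4]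
        · change (a * b * a⁻¹ * b⁻¹) • (w : V) = w
          have ha2 : a ∈ MulAction.stabilizer Γ (w : V) := ha'
          have hb2 : b ∈ MulAction.stabilizer Γ (w : V) := hb'
          exact mul_mem (mul_mem (mul_mem ha2 hb2) (inv_mem ha2)) (inv_mem hb2)
      · change ⁅(M1 w).comap M.subtype, (M1 w).comap M.subtype⁆ ≤ M2 w
        rw [Subgroup.commutator_le]
        intro a ha b hb
        have ha' : (a : Γ) ∈ M1 w := ha
        have hb' : (b : Γ) ∈ M1 w := hb
        refine ⟨mul_mem (mul_mem (mul_mem ha' hb') (inv_mem ha')) (inv_mem hb'), fun χ => ?_⟩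
        have h1 : χ (⟨a, ha'⟩ * ⟨b, hb'⟩ * ⟨a, ha'⟩⁻¹ * ⟨b, hb'⟩⁻¹) = 1 := by
          rw [map_mul, map_mul, map_mul, map_inv, map_inv, mul_comm (χ ⟨a, ha'⟩) (χ ⟨b, hb'⟩),
            mul_inv_cancel_right, mul_inv_cancel]
        exact h1)
    (by
      intro i hi γ w x hx
      interval_cases i
      · exact hconj1 γ w x hx
      · obtain ⟨hx1, hx2⟩ := hx
        refine ⟨hconj1 γ w x hx1, fun χ => ?_⟩
        let κ : M1 w →* M1 (γ • w) :=
          ((MulAut.conj (γ : Γ)).toMonoidHom.comp (M1 w).subtype).codRestrict _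
            (fun y => hconj1 γ w y y.2)
        exact hx2 (χ.comp κ))
    (by
      intro i hi v w hvw x hx hxw
      have hxw' : (x : Γ) • (w : V) = w := congrArg Subtype.val hxw
      interval_cases i
      · exact ⟨hx.1, hxw'⟩
      · obtain ⟨hx1, hx2⟩ := hx
        refine ⟨⟨hx1.1, hxw'⟩, fun χ => ?_⟩
        have hfin : IsOfFinOrder (x : Γ) := by
          by_contra hinf
          obtain ⟨j, hj, hj'⟩ := hfixc v.1 v.2
          obtain ⟨k, hk, hk'⟩ := hfixc w.1 w.2
          have hjk : c ^ (j * k) ∈ St Γ (v : V) (w : V) := by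
            refine ⟨?_, ?_⟩
            · rw [zpow_mul]
              exact zpow_mem (show c ^ j ∈ MulAction.stabilizer Γ v.1 from hj') k
            · rw [mul_comm, zpow_mul]
              exact zpow_mem (show c ^ k ∈ MulAction.stabilizer Γ w.1 from hk') j
          obtain ⟨a, b, ha, hb, hab⟩ := (hvc _ _ hvw).common (g := (x : Γ)) ⟨hx1.2, hxw'⟩ hjk hinf
            (zpow_inf hc' (mul_ne_zero hj hk))
          obtain ⟨χ', l, hl, hχ'⟩ := hcv v.1 j hj hj'
          apply hχ'
          have hl' : c ^ l ∈ M1 v := hl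
          have h1 : χ' ⟨x, hx1⟩ = 1 := hx2 χ'
          -- x ^ (a l) = c ^ (j k b l)
          refine mq_torsion (n := j * k * b)
            (mul_ne_zero (mul_ne_zero hj hk) hb) ?_
          rw [← map_zpow]
          have h2 : (⟨c ^ l, hl'⟩ : M1 v) ^ (j * k * b) = (⟨x, hx1⟩ : M1 v) ^ (a * l) := by
            apply Subtype.ext
            change (c ^ l) ^ (j * k * b) = (x : Γ) ^ (a * l)
            rw [zpow_mul (x : Γ), hab, ← zpow_mul, ← zpow_mul, ← zpow_mul]
            congr 1
            ring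
          have h3 : χ' ((⟨c ^ l, hl'⟩ : M1 v) ^ (j * k * b)) = 1 := by
            rw [h2, map_zpow, h1, one_zpow]
          exact h3
        refine char_torsion χ ?_
        exact (isOfFinOrder_iff_of_inj (M1 w).subtype (M1 w).subtype_injective).1 hfin)
  refine main_rel (Γ := M) (T := T.induce W) hC hE hS hA hW hadjM hvcM ?_ hQ' f' ?_
  · intro x
    let j : MulAction.stabilizer M x →* MulAction.stabilizer Γ (x : V) :=
      (M.subtype.comp (MulAction.stabilizer M x).subtype).codRestrict _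
        (fun h => (hst x).le h.2)
    refine hC.of_injective _ _ j ?_ (hv x)
    intro a b hab
    have h2 : (j a).1 = (j b).1 := by rw [hab]
    exact Subtype.ext (Subtype.ext h2)
  · intro v w hvw x hx hfx
    have h1 : x ∈ f'.ker ⊓ MulAction.stabilizer M v := ⟨hfx, hx.1⟩
    rw [hf'] at h1
    obtain ⟨hx1, hx2⟩ : x ∈ M2 v := h1
    have hxw' : (x : Γ) • (w : V) = w := congrArg Subtype.val hx.2
    by_contra hinf0
    have hinf : ¬ IsOfFinOrder (x : Γ) := fun h => hinf0
      ((isOfFinOrder_iff_of_inj M.subtype M.subtype_injective).1 h)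
    obtain ⟨j, hj, hj'⟩ := hfixc v.1 v.2
    obtain ⟨k, hk, hk'⟩ := hfixc w.1 w.2
    have hjk : c ^ (j * k) ∈ St Γ (v : V) (w : V) := by
      refine ⟨?_, ?_⟩
      · rw [zpow_mul]
        exact zpow_mem (show c ^ j ∈ MulAction.stabilizer Γ v.1 from hj') k
      · rw [mul_comm, zpow_mul]
        exact zpow_mem (show c ^ k ∈ MulAction.stabilizer Γ w.1 from hk') j
    obtain ⟨a, b, ha, hb, hab⟩ := (hvc _ _ hvw).common (g := (x : Γ)) ⟨hx1.2, hxw'⟩ hjk hinf
      (zpow_inf hc' (mul_ne_zero hj hk))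
    obtain ⟨χ', l, hl, hχ'⟩ := hcv v.1 j hj hj'
    apply hχ'
    have hl' : c ^ l ∈ M1 v := hl
    have h1 : χ' ⟨x, hx1⟩ = 1 := hx2 χ'
    refine mq_torsion (n := j * k * b) (mul_ne_zero (mul_ne_zero hj hk) hb) ?_
    rw [← map_zpow]
    have h2 : (⟨c ^ l, hl'⟩ : M1 v) ^ (j * k * b) = (⟨x, hx1⟩ : M1 v) ^ (a * l) := by
      apply Subtype.ext
      change (c ^ l) ^ (j * k * b) = (x : Γ) ^ (a * l)
      rw [zpow_mul (x : Γ), hab, ← zpow_mul, ← zpow_mul, ← zpow_mul]
      congr 1
      ring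
    have h3 : χ' ((⟨c ^ l, hl'⟩ : M1 v) ^ (j * k * b)) = 1 := by
      rw [h2, map_zpow, h1, one_zpow]
    exact h3

end

end Pool.Agent.Q152.TC
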