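import Pool.Agent.Q152.TC.Char

/-!
# Split groups
-/

set_option autoImplicit false
set_option linter.unusedSectionVars false

namespace Pool.Agent.Q152.TC

open SimpleGraph Pool.Agent.Y462.SS Pool.Agent.Q152.WP Pool.Agent.Q152.TA Pool.Agent.Q91.FJ

variable {V Γ : Type} [Group Γ] [MulAction Γ V] {T : SimpleGraph V}

/-- `G` is a split group: for each element `c` of infinite order some homomorphism from `VCent c` to the
rational numbers is not zero at a power of `c`. -/
def SplitGroup (G : Type) [Group G] : Prop := ∀ c : G, ¬ IsOfFinOrder c → VSplit c (⊤ : Subgroup G)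

/-- separation -/
theorem sep_dist (hT : T.IsTree) {y y' p q : V} (h : T.Adj y y')
    (h1 : T.dist y' p + 1 = T.dist y p) (h2 : T.dist y q + 1 = T.dist y' q) :
    T.dist p y' ≤ T.dist p q := by
  classical
  have hbr : ¬ (T.deleteEdges {s(y, y')}).Reachable y y' :=
    isBridge_iff.1 (isAcyclic_iff_forall_adj_isBridge.1 hT.isAcyclic h)
  have e1 : (T.deleteEdges {s(y, y')}).Reachable y' p := by
    obtain ⟨u, hu⟩ := hT.connected.exists_walk_length_eq_dist y' p
    have h3 : s(y, y') ∉ u.edges := by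
      intro h3
      have h4 : y ∈ u.support := u.fst_mem_support_of_mem_edges h3
      have h5 := dist_le (u.dropUntil y h4)
      have h6 := u.length_dropUntil_le_length h4
      omega
    exact ⟨u.toDeleteEdge _ h3⟩
  have e2 : (T.deleteEdges {s(y, y')}).Reachable y q := by
    obtain ⟨u, hu⟩ := hT.connected.exists_walk_length_eq_dist y q
    have h3 : s(y, y') ∉ u.edges := by
      intro h3
      have h4 : y' ∈ u.support := u.snd_mem_support_of_mem_edges h3
      have h5 := dist_le (u.dropUntil y' h4)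
      have h6 := u.length_dropUntil_le_length h4
      omega
    exact ⟨u.toDeleteEdge _ h3⟩
  obtain ⟨w, hw⟩ := hT.connected.exists_walk_length_eq_dist p q
  by_cases h3 : y' ∈ w.support
  · have h5 := dist_le (w.takeUntil y' h3)
    have h6 := w.length_takeUntil_le_length h3
    omega
  · exfalso
    apply hbr
    have h4 : s(y, y') ∉ w.edges := fun h4 => h3 (w.snd_mem_support_of_mem_edges h4)
    have e3 : (T.deleteEdges {s(y, y')}).Reachable p q := ⟨w.toDeleteEdge _ h4⟩
    exact e2.trans (e3.symm.trans e1.symm)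

/-- the translation character of an element without powers fixing a vertex -/
theorem hyp_char (hT : T.IsTree)
    (hadj : ∀ (γ : Γ) (x y : V), T.Adj x y → T.Adj (γ • x) (γ • y)) {c : Γ}
    (hh : ∀ (k : ℤ) (x : V), k ≠ 0 → c ^ k • x ≠ x) :
    ∃ Φ : VCent c →* Multiplicative ℚ, ∀ h : c ∈ VCent c, Φ ⟨c, h⟩ ≠ 1 := by
  classical
  obtain ⟨x, l, hl, hx⟩ := hyp_dist_int hT hadj hh
  let s : V → ℕ → ℤ := fun y m => (T.dist y (c ^ (m : ℤ) • x) : ℤ) - m * l
  have hxm : ∀ m : ℕ, T.dist x (c ^ (m : ℤ) • x) = m * l := by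
    intro m
    rw [hx, Int.natAbs_natCast]
  have hdec : ∀ y m, s y (m + 1) ≤ s y m := by
    intro y m
    have h1 : T.dist y (c ^ ((m + 1 : ℕ) : ℤ) • x) ≤ T.dist y (c ^ (m : ℤ) • x) + l := by
      refine (hT.connected.dist_triangle (v := c ^ (m : ℤ) • x)).trans ?_
      have h2 : T.dist (c ^ (m : ℤ) • x) (c ^ ((m + 1 : ℕ) : ℤ) • x) = l := by
        have h3 : c ^ ((m + 1 : ℕ) : ℤ) • x = c ^ (m : ℤ) • c ^ ((1 : ℕ) : ℤ) • x := by
          rw [← mul_smul, ← zpow_add]
          norm_cast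
        rw [h3, dist_smul' hT hadj, hxm, one_mul]
      rw [h2]
    change (T.dist y (c ^ ((m + 1 : ℕ) : ℤ) • x) : ℤ) - ((m + 1 : ℕ) : ℤ) * l ≤
      (T.dist y (c ^ (m : ℤ) • x) : ℤ) - m * l
    have h2 : (T.dist y (c ^ ((m + 1 : ℕ) : ℤ) • x) : ℤ) ≤ T.dist y (c ^ (m : ℤ) • x) + l := by
      exact_mod_cast h1
    push_cast at h2 ⊢
    linarith
  have hanti : ∀ y {m m' : ℕ}, m ≤ m' → s y m' ≤ s y m := fun y m m' h =>
    antitone_nat_of_succ_le (hdec y) h
  have hlow : ∀ y m, -(T.dist y x : ℤ) ≤ s y m := by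
    intro y m
    have h1 : T.dist x (c ^ (m : ℤ) • x) ≤ T.dist x y + T.dist y (c ^ (m : ℤ) • x) :=
      hT.connected.dist_triangle
    rw [hxm, dist_comm (u := x)] at h1
    change -(T.dist y x : ℤ) ≤ (T.dist y (c ^ (m : ℤ) • x) : ℤ) - m * l
    have h2 : ((m * l : ℕ) : ℤ) ≤ T.dist y x + T.dist y (c ^ (m : ℤ) • x) := by exact_mod_cast h1
    push_cast at h2
    linarith
  have hlim : ∀ y, ∃ B : ℤ, ∃ M : ℕ, ∀ m, M ≤ m → s y m = B := by
    intro y
    let u : ℕ → ℕ := fun m => (s y m + T.dist y x).toNat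
    let M := Function.argmin u
    refine ⟨s y M, M, fun m hm => le_antisymm (hanti y hm) ?_⟩
    have h1 : u M ≤ u m := Function.argmin_le u m
    have h2 := hlow y m
    have h3 := hlow y M
    change (s y M + T.dist y x).toNat ≤ (s y m + T.dist y x).toNat at h1
    omega
  choose B M hB using hlim
  -- the differences
  have hkey : ∀ g ∈ VCent c, ∀ y y' : V, T.Adj y y' → B (g • y') - B (g • y) = B y' - B y := by
    rintro g ⟨n, hn, hcomm⟩ y y' hyy
    let N : ℕ := n.natAbs
    have hN : 0 < N := Int.natAbs_pos.2 hn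
    have hcN : Commute g (c ^ (N : ℤ)) := by
      rcases Int.natAbs_eq n with h0 | h0
      · rw [← h0]
        exact hcomm
      · have h2 : (N : ℤ) = -n := by omega
        rw [h2, zpow_neg]
        exact hcomm.inv_right
    let D : ℕ := T.dist x (g⁻¹ • x)
    let k : ℕ := M (g • y') + M (g • y) + M y' + M y + D + T.dist y x + T.dist y' x + 2
    have hk : ∀ m : ℕ, m ≤ k → m ≤ N * k := fun m hm => hm.trans (Nat.le_mul_of_pos_left _ hN)
    have e1 := hB (g • y') (N * k) (hk _ (by omega))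
    have e2 := hB (g • y) (N * k) (hk _ (by omega))
    have e3 := hB y' (N * k) (hk _ (by omega))
    have e4 := hB y (N * k) (hk _ (by omega))
    let p : V := c ^ ((N * k : ℕ) : ℤ) • x
    let q : V := c ^ ((N * k : ℕ) : ℤ) • g⁻¹ • x
    have hcNk : Commute g⁻¹ (c ^ ((N * k : ℕ) : ℤ)) := by
      push_cast
      rw [zpow_mul]
      exact (hcN.zpow_right (k : ℤ)).inv_left
    have hgq : ∀ z : V, T.dist (g • z) p = T.dist z q := by
      intro z
      rw [← dist_smul' hT hadj g⁻¹, inv_smul_smul]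
      change T.dist z (g⁻¹ • c ^ ((N * k : ℕ) : ℤ) • x) = T.dist z (c ^ ((N * k : ℕ) : ℤ) • g⁻¹ • x)
      rw [← mul_smul, hcNk.eq, mul_smul]
    have f1 : B (g • y') - B (g • y) = (T.dist y' q : ℤ) - T.dist y q := by
      rw [← e1, ← e2]
      change ((T.dist (g • y') p : ℤ) - _) - ((T.dist (g • y) p : ℤ) - _) = _
      rw [hgq, hgq]
      ring
    have f2 : B y' - B y = (T.dist y' p : ℤ) - T.dist y p := by
      rw [← e3, ← e4]
      change ((T.dist y' p : ℤ) - _) - ((T.dist y p : ℤ) - _) = _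
      ring
    have hpq : T.dist p q = D := dist_smul' hT hadj _ _ _
    have hqp : T.dist q p = D := by rw [dist_comm, hpq]
    -- distances to p and q are large
    have hkl : k ≤ N * k * l := (hk k le_rfl).trans (Nat.le_mul_of_pos_right _ hl)
    have g1 : ∀ z : V, N * k * l ≤ T.dist z x + T.dist z p := by
      intro z
      have h1 : T.dist x p ≤ T.dist x z + T.dist z p := hT.connected.dist_triangle
      have h2 : T.dist x p = N * k * l := hxm _
      rw [h2, dist_comm (u := x)] at h1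
      exact h1
    have g2 : ∀ z : V, T.dist z p ≤ T.dist z q + D := by
      intro z
      have h1 : T.dist z p ≤ T.dist z q + T.dist q p := hT.connected.dist_triangle
      rwa [hqp] at h1
    have hne1 := hT.dist_eq_dist_add_one_of_adj p hyy
    have hne2 := hT.dist_eq_dist_add_one_of_adj q hyy
    rw [dist_comm (u := p), dist_comm (u := p) (v := y')] at hne1
    rw [dist_comm (u := q), dist_comm (u := q) (v := y')] at hne2
    rw [f1, f2]
    rcases hne1 with hne1 | hne1 <;> rcases hne2 with hne2 | hne2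
    · omega
    · exfalso
      -- dist y p = dist y' p + 1, dist y' q = dist y q + 1
      have h5 := sep_dist hT hyy (p := p) (q := q) (by omega) (by omega)
      rw [hpq, dist_comm] at h5
      have h6 := g1 y'
      have h7 : D + T.dist y' x + 2 ≤ k := by omega
      omega
    · exfalso
      have h5 := sep_dist hT hyy.symm (p := p) (q := q) (by omega) (by omega)
      rw [hpq, dist_comm] at h5
      have h6 := g1 y
      have h7 : D + T.dist y x + 2 ≤ k := by omega
      omega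
    · omega
  have hconst : ∀ g ∈ VCent c, ∀ y z : V, B (g • y) - B y = B (g • z) - B z := by
    intro g hg y z
    obtain ⟨w⟩ := hT.connected.preconnected y z
    induction w with
    | nil => rfl
    | @cons a b d hab p ih =>
      rw [← ih]
      have := hkey g hg a b hab
      linarith
  have hcB : B (c • x) - B x = -l := by
    let m : ℕ := M (c • x) + M x
    have e1 := hB (c • x) (m + 1) (by omega)
    have e2 := hB x m (by omega)
    rw [← e1, ← e2]
    change ((T.dist (c • x) (c ^ ((m + 1 : ℕ) : ℤ) • x) : ℤ) - ((m + 1 : ℕ) : ℤ) * l) -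
      ((T.dist x (c ^ (m : ℤ) • x) : ℤ) - m * l) = -l
    have h3 : c ^ ((m + 1 : ℕ) : ℤ) • x = c • c ^ (m : ℤ) • x := by
      rw [← mul_smul, ← zpow_one_add]
      push_cast
      rw [add_comm]
    rw [h3, dist_smul' hT hadj]
    push_cast
    ring
  refine ⟨{ toFun := fun g => Multiplicative.ofAdd ((B ((g : Γ) • x) - B x : ℤ) : ℚ)
            map_one' := ?_
            map_mul' := ?_ }, ?_⟩
  · have h0 : B (((1 : VCent c) : Γ) • x) - B x = 0 := by
      rw [Subgroup.coe_one, one_smul, sub_self]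
    rw [h0]
    rfl
  · intro g h
    have h1 : B (((g * h : VCent c) : Γ) • x) - B x =
        (B ((g : Γ) • x) - B x) + (B ((h : Γ) • x) - B x) := by
      have h2 := hconst g g.2 ((h : Γ) • x) x
      rw [Subgroup.coe_mul, mul_smul]
      linarith
    rw [h1, ← ofAdd_add]
    push_cast
    rfl
  · intro h h1
    have h2 : ((B (c • x) - B x : ℤ) : ℚ) = 0 := Multiplicative.ofAdd.injective h1
    rw [hcB] at h2
    have h3 : (l : ℚ) = 0 := by
      push_cast at h2
      linarith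
    have h4 : l = 0 := by exact_mod_cast h3
    omega

/-- powers -/
theorem hom_zpow {G : Type} [Group G] (χ : G →* Multiplicative ℚ) {a b : G} {p q : ℤ} (hp : p ≠ 0)
    (h : a ^ p = b ^ q) :
    Multiplicative.toAdd (χ a) = q * Multiplicative.toAdd (χ b) / p := by
  have h1 : (p : ℚ) * Multiplicative.toAdd (χ a) = q * Multiplicative.toAdd (χ b) := by
    have h2 := congrArg χ h
    rw [map_zpow, map_zpow] at h2
    have h3 := congrArg Multiplicative.toAdd h2
    rw [toAdd_zpow, toAdd_zpow, zsmul_eq_mul, zsmul_eq_mul] at h3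
    exact h3
  have hp' : (p : ℚ) ≠ 0 := by exact_mod_cast hp
  field_simp
  linarith

/-- normalized characters -/
theorem norm_char {c : Γ} {K : Subgroup Γ} (h : VSplit c K) :
    ∃ χ : (VCent c ⊓ K : Subgroup Γ) →* Multiplicative ℚ,
      ∀ (i : ℤ) (hi : c ^ i ∈ VCent c ⊓ K), Multiplicative.toAdd (χ ⟨c ^ i, hi⟩) = i := by
  obtain ⟨χ₀, k, hk, h1⟩ := h
  let r : ℚ := Multiplicative.toAdd (χ₀ ⟨c ^ k, hk⟩)
  have hr : r ≠ 0 := by
    intro h2
    apply h1
    apply Multiplicative.toAdd.injective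
    rw [toAdd_one]
    exact h2
  have hk0 : (k : ℚ) ≠ 0 := by
    intro h2
    have h3 : k = 0 := by exact_mod_cast h2
    apply h1
    have h4 : (⟨c ^ k, hk⟩ : (VCent c ⊓ K : Subgroup Γ)) = 1 := Subtype.ext (by
      change c ^ k = 1
      rw [h3, zpow_zero])
    rw [h4, map_one]
  refine ⟨{ toFun := fun a => Multiplicative.ofAdd (Multiplicative.toAdd (χ₀ a) * (k / r))
            map_one' := ?_
            map_mul' := ?_ }, ?_⟩
  · rw [MonoidHom.map_one χ₀, toAdd_one, zero_mul]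
    rfl
  · intro a b
    rw [MonoidHom.map_mul χ₀ a b, toAdd_mul, add_mul]
    rfl
  · intro i hi
    change Multiplicative.toAdd (χ₀ ⟨c ^ i, hi⟩) * (k / r) = i
    have hk' : k ≠ 0 := by exact_mod_cast hk0
    have h2 : (⟨c ^ i, hi⟩ : (VCent c ⊓ K : Subgroup Γ)) ^ k = (⟨c ^ k, hk⟩ : (VCent c ⊓ K :
        Subgroup Γ)) ^ i := by
      apply Subtype.ext
      change (c ^ i) ^ k = (c ^ k) ^ i
      rw [← zpow_mul, ← zpow_mul, mul_comm]
    rw [hom_zpow χ₀ hk' h2]
    change (i : ℚ) * r / k * (k / r) = i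
    field_simp

theorem vsplit_of_group {v : V} (h : SplitGroup (MulAction.stabilizer Γ v)) {c : Γ}
    (hc : ¬ IsOfFinOrder c) {j : ℤ} (hj : j ≠ 0) (hv : c ^ j • v = v) :
    VSplit c (MulAction.stabilizer Γ v) := by
  let d : MulAction.stabilizer Γ v := ⟨c ^ j, hv⟩
  have hd : ¬ IsOfFinOrder d := fun h1 => zpow_inf hc hj
    ((isOfFinOrder_iff_of_inj (MulAction.stabilizer Γ v).subtype
      (MulAction.stabilizer Γ v).subtype_injective).2 h1)
  obtain ⟨χ, k, hk, h1⟩ := h d hd
  have hmem : ∀ g : (VCent c ⊓ MulAction.stabilizer Γ v : Subgroup Γ),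
      (⟨(g : Γ), g.2.2⟩ : MulAction.stabilizer Γ v) ∈ VCent d ⊓ ⊤ := by
    rintro ⟨g, ⟨n, hn, hcomm⟩, hg⟩
    refine ⟨⟨n, hn, ?_⟩, Subgroup.mem_top _⟩
    apply Subtype.ext
    change g * (c ^ j) ^ n = (c ^ j) ^ n * g
    have h2 := hcomm.zpow_right j
    rw [← zpow_mul, mul_comm, zpow_mul] at h2
    exact h2
  let κ : (VCent c ⊓ MulAction.stabilizer Γ v : Subgroup Γ) →* (VCent d ⊓ ⊤ :
      Subgroup (MulAction.stabilizer Γ v)) :=
    { toFun := fun g => ⟨⟨(g : Γ), g.2.2⟩, hmem g⟩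
      map_one' := rfl
      map_mul' := fun _ _ => rfl }
  have hk' : c ^ (j * k) ∈ VCent c ⊓ MulAction.stabilizer Γ v := by
    refine ⟨⟨1, one_ne_zero, Commute.zpow_zpow_self c _ 1⟩, ?_⟩
    rw [zpow_mul]
    exact zpow_mem (show c ^ j ∈ MulAction.stabilizer Γ v from hv) k
  refine ⟨χ.comp κ, j * k, hk', ?_⟩
  have h2 : κ ⟨c ^ (j * k), hk'⟩ = ⟨d ^ k, hk⟩ := by
    apply Subtype.ext
    apply Subtype.ext
    change c ^ (j * k) = (c ^ j) ^ k
    rw [zpow_mul]
  change χ (κ ⟨c ^ (j * k), hk'⟩) ≠ 1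
  rw [h2]
  exact h1

/-- the character of the group `VCent c`, if a power of `c` fixes a vertex -/
theorem ell_char (hT : T.IsTree)
    (hadj : ∀ (γ : Γ) (x y : V), T.Adj x y → T.Adj (γ • x) (γ • y))
    (hvc : ∀ x y : V, T.Adj x y → VCyc (St Γ x y)) {c : Γ} (hc : ¬ IsOfFinOrder c)
    (hsp : ∀ (v : V) (j : ℤ), j ≠ 0 → c ^ j • v = v → VSplit c (MulAction.stabilizer Γ v))
    {v₀ : V} {j₀ : ℤ} (hj₀ : j₀ ≠ 0) (hv₀ : c ^ j₀ • v₀ = v₀) :
    ∃ Φ : VCent c →* Multiplicative ℚ, ∀ h : c ^ j₀ ∈ VCent c, Φ ⟨c ^ j₀, h⟩ ≠ 1 := by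
  classical
  let L : Subgroup Γ := VCent c
  let W : Set V := {v | ∃ j : ℤ, j ≠ 0 ∧ c ^ j • v = v}
  have hcL : ∀ i : ℤ, c ^ i ∈ L := fun i => ⟨1, one_ne_zero, Commute.zpow_zpow_self c _ 1⟩
  have hpow : ∀ {v : V} {j : ℤ} (k : ℤ), c ^ j • v = v → c ^ (j * k) • v = v := by
    intro v j k h
    rw [zpow_mul]
    exact zpow_mem (show c ^ j ∈ MulAction.stabilizer Γ v from h) k
  have hW : (T.induce W).IsTree := by
    refine ⟨?_, hT.isAcyclic.induce W⟩
    have : Nonempty W := ⟨⟨v₀, j₀, hj₀, hv₀⟩⟩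
    refine ⟨fun x y => ?_⟩
    obtain ⟨i, hi, hi'⟩ := x.2
    obtain ⟨j, hj, hj'⟩ := y.2
    obtain ⟨w, hw, _⟩ := hT.existsUnique_path (x : V) (y : V)
    have h1 := hpow j hi'
    have h2 := hpow i hj'
    rw [mul_comm] at h2
    have h3 : ∀ z ∈ w.support, z ∈ W := fun z hz =>
      ⟨i * j, mul_ne_zero hi hj, fix_path hT hadj w hw h1 h2 z hz⟩
    exact ⟨w.induce W h3⟩
  have hinv : ∀ g ∈ L, ∀ v ∈ W, g • v ∈ W := by
    rintro g ⟨n, hn, h⟩ v ⟨j, hj, hj'⟩
    refine ⟨j * n, mul_ne_zero hj hn, ?_⟩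
    have h1 : Commute g (c ^ (j * n)) := by
      rw [mul_comm, zpow_mul]
      exact h.zpow_right j
    rw [← mul_smul, ← h1.eq, mul_smul, hpow n hj']
  let act : MulAction L W :=
    { smul := fun g v => ⟨g.1 • v.1, hinv g.1 g.2 v.1 v.2⟩
      one_smul := fun w => Subtype.ext (one_smul Γ w.1)
      mul_smul := fun h h' w => Subtype.ext (mul_smul h.1 h'.1 w.1) }
  have hadjL : ∀ (g : L) (x y : W), (T.induce W).Adj x y → (T.induce W).Adj (g • x) (g • y) :=
    fun g x y h => hadj g.1 x.1 y.1 h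
  have hχ : ∀ w : W, ∃ χ : (VCent c ⊓ MulAction.stabilizer Γ (w : V) : Subgroup Γ) →*
      Multiplicative ℚ, ∀ (i : ℤ) (hi : c ^ i ∈ VCent c ⊓ MulAction.stabilizer Γ (w : V)),
        Multiplicative.toAdd (χ ⟨c ^ i, hi⟩) = i := by
    intro w
    obtain ⟨j, hj, hj'⟩ := w.2
    exact norm_char (hsp w.1 j hj hj')
  choose χ hχn using hχ
  choose t ht using (exists_orep (L := L) (E := W))
  -- the conjugated elements
  let u : W → L → L := fun w a => (t w)⁻¹ * a * t w
  have hu : ∀ w (a : L), a • w = w → ((u w a : L) : Γ) ∈ VCent c ⊓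
      MulAction.stabilizer Γ ((orep L w : W) : V) := by
    intro w a ha
    refine ⟨(u w a).2, ?_⟩
    have h1 : u w a • orep L w = orep L w := by
      change ((t w)⁻¹ * a * t w) • orep L w = orep L w
      rw [mul_smul, mul_smul, ht, ha, inv_smul_eq_iff, ht]
    exact congrArg Subtype.val h1
  let X : W → L → ℚ := fun w a =>
    if h : ((u w a : L) : Γ) ∈ VCent c ⊓ MulAction.stabilizer Γ ((orep L w : W) : V) then
      Multiplicative.toAdd (χ (orep L w) ⟨_, h⟩) else 0
  have hX : ∀ w a (h : a • w = w), X w a = Multiplicative.toAdd (χ (orep L w) ⟨_, hu w a h⟩) :=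
    fun w a h => dif_pos (hu w a h)
  have hadd : ∀ (w : W) (a b : L), a • w = w → b • w = w → X w (a * b) = X w a + X w b := by
    intro w a b ha hb
    have hab : (a * b) • w = w := by rw [mul_smul, hb, ha]
    rw [hX w _ hab, hX w a ha, hX w b hb, ← toAdd_mul, ← map_mul]
    congr 2
    apply Subtype.ext
    change (((t w)⁻¹ * (a * b) * t w : L) : Γ) = ((u w a * u w b : L) : Γ)
    congr 1
    change (t w)⁻¹ * (a * b) * t w = ((t w)⁻¹ * a * t w) * ((t w)⁻¹ * b * t w)
    group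
  -- values on elements with a power equal to a power of c
  have hval : ∀ (w : W) (a : L) (p q : ℤ), a • w = w → p ≠ 0 → c ^ q • (w : V) = w →
      ((a : L) : Γ) ^ p = c ^ q → X w a = q / p := by
    intro w a p q ha hp hq hpq
    rw [hX w a ha]
    obtain ⟨n, hn, hcomm⟩ := (t w).2
    have hmem : c ^ (q * n) ∈ VCent c ⊓ MulAction.stabilizer Γ ((orep L w : W) : V) := by
      refine ⟨hcL _, ?_⟩
      have h1 : ((t w : L) : Γ) • ((orep L w : W) : V) = w := congrArg Subtype.val (ht w)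
      have h2 : Commute ((t w : L) : Γ) (c ^ (q * n)) := by
        rw [mul_comm, zpow_mul]
        exact hcomm.zpow_right q
      have h3 := hpow n hq
      rw [← h1, ← mul_smul, ← h2.eq, mul_smul] at h3
      exact MulAction.injective _ h3
    have h4 : (⟨_, hu w a ha⟩ : (VCent c ⊓ MulAction.stabilizer Γ ((orep L w : W) : V) :
        Subgroup Γ)) ^ (p * n) = (⟨c ^ (q * n), hmem⟩ : (VCent c ⊓
          MulAction.stabilizer Γ ((orep L w : W) : V) : Subgroup Γ)) ^ (1 : ℤ) := by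
      apply Subtype.ext
      change (((u w a : L) : Γ)) ^ (p * n) = (c ^ (q * n)) ^ (1 : ℤ)
      have h5 : ((u w a : L) : Γ) = ((t w : L) : Γ)⁻¹ * (a : Γ) * ((t w : L) : Γ)⁻¹⁻¹ := by
        rw [inv_inv]
        rfl
      have h2 : Commute ((t w : L) : Γ) (c ^ (q * n)) := by
        rw [mul_comm, zpow_mul]
        exact hcomm.zpow_right q
      rw [h5, conj_zpow, zpow_mul, hpq, ← zpow_mul, zpow_one, inv_inv, mul_assoc, ← h2.eq,
        inv_mul_cancel_left]
    rw [hom_zpow (χ (orep L w)) (mul_ne_zero hp hn) h4, hχn]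
    have hn' : (n : ℚ) ≠ 0 := by exact_mod_cast hn
    have hp' : (p : ℚ) ≠ 0 := by exact_mod_cast hp
    push_cast
    field_simp
  obtain ⟨Φ, hΦ⟩ := ext_char (Γ := L) (T := T.induce W) hW hadjL X
    (fun w a b ha hb => hadd w a b ha hb)
    (by
      intro g w a ha
      have hga : (g * a * g⁻¹) • g • w = g • w := by
        rw [mul_smul, mul_smul, inv_smul_smul, ha]
      rw [hX _ _ hga, hX w a ha]
      -- compare
      have hrep : orep L (g • w) = orep L w := orep_smul g w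
      have hz : ((t (g • w))⁻¹ * g * t w) • orep L w = orep L w := by
        rw [mul_smul, mul_smul, ht, inv_smul_eq_iff]
        have := ht (g • w)
        rw [hrep] at this
        exact this.symm
      have key : ∀ (o : W) (ho : o = orep L w)
          (h1 : ((u (g • w) (g * a * g⁻¹) : L) : Γ) ∈ VCent c ⊓ MulAction.stabilizer Γ (o : V)),
          Multiplicative.toAdd (χ o ⟨_, h1⟩) =
            Multiplicative.toAdd (χ (orep L w) ⟨_, hu w a ha⟩) := by
        rintro o rfl h1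
        let z : L := (t (g • w))⁻¹ * g * t w
        have hz1 : (z : Γ) ∈ VCent c ⊓ MulAction.stabilizer Γ ((orep L w : W) : V) :=
          ⟨z.2, congrArg Subtype.val hz⟩
        have e1 : (⟨_, h1⟩ : (VCent c ⊓ MulAction.stabilizer Γ ((orep L w : W) : V) :
            Subgroup Γ)) = ⟨z, hz1⟩ * ⟨_, hu w a ha⟩ * ⟨z, hz1⟩⁻¹ := by
          apply Subtype.ext
          change ((u (g • w) (g * a * g⁻¹) : L) : Γ) = ((z * u w a * z⁻¹ : L) : Γ)
          congr 1
          change (t (g • w))⁻¹ * (g * a * g⁻¹) * t (g • w) =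
            ((t (g • w))⁻¹ * g * t w) * ((t w)⁻¹ * a * t w) * ((t (g • w))⁻¹ * g * t w)⁻¹
          group
        rw [e1, MonoidHom.map_mul, MonoidHom.map_mul, MonoidHom.map_inv,
          mul_comm (χ (orep L w) ⟨z, hz1⟩), mul_inv_cancel_right]
      exact key _ hrep _)
    (by
      intro v w a hvw hav haw
      have hav' : ((a : L) : Γ) • (v : V) = v := congrArg Subtype.val hav
      have haw' : ((a : L) : Γ) • (w : V) = w := congrArg Subtype.val haw
      by_cases hfin : IsOfFinOrder (a : Γ)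
      · have h0 : ∀ (z : W) (hz : a • z = z), X z a = 0 := by
          intro z hz
          rw [hX z a hz]
          have h1 : IsOfFinOrder (⟨_, hu z a hz⟩ : (VCent c ⊓
              MulAction.stabilizer Γ ((orep L z : W) : V) : Subgroup Γ)) := by
            refine (isOfFinOrder_iff_of_inj (VCent c ⊓
              MulAction.stabilizer Γ ((orep L z : W) : V) : Subgroup Γ).subtype
              (Subgroup.subtype_injective _)).1 ?_
            change IsOfFinOrder (((t z : L) : Γ)⁻¹ * (a : Γ) * ((t z : L) : Γ))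
            have h2 := (isOfFinOrder_iff_of_inj (MulAut.conj ((t z : L) : Γ)⁻¹).toMonoidHom
              (MulAut.conj ((t z : L) : Γ)⁻¹).injective (x := (a : Γ))).2 hfin
            have h3 : (MulAut.conj ((t z : L) : Γ)⁻¹).toMonoidHom (a : Γ) =
                ((t z : L) : Γ)⁻¹ * (a : Γ) * ((t z : L) : Γ) := by
              change ((t z : L) : Γ)⁻¹ * (a : Γ) * ((t z : L) : Γ)⁻¹⁻¹ = _
              rw [inv_inv]
            rwa [h3] at h2
          rw [char_torsion (χ (orep L z)) h1, toAdd_one]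
        rw [h0 v hav, h0 w haw]
      · obtain ⟨i, hi, hi'⟩ := v.2
        obtain ⟨k, hk, hk'⟩ := w.2
        have h1 := hpow k hi'
        have h2 := hpow i hk'
        rw [mul_comm] at h2
        obtain ⟨p, q, hp, hq, hpq⟩ := (hvc _ _ hvw).common (g := (a : Γ)) (k := c ^ (i * k))
          ⟨hav', haw'⟩ ⟨h1, h2⟩ hfin (zpow_inf hc (mul_ne_zero hi hk))
        rw [← zpow_mul] at hpq
        rw [hval v a p (i * k * q) hav hp (hpow q h1) hpq,
          hval w a p (i * k * q) haw hp (hpow q h2) hpq])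
  refine ⟨Φ, fun h h1 => ?_⟩
  have h2 : (⟨c ^ j₀, h⟩ : L) • (⟨v₀, j₀, hj₀, hv₀⟩ : W) = ⟨v₀, j₀, hj₀, hv₀⟩ := Subtype.ext hv₀
  have h3 := hΦ _ _ h2
  rw [h1, hval _ _ 1 j₀ h2 one_ne_zero hv₀ (by rw [zpow_one])] at h3
  have h4 : (0 : ℚ) = (j₀ : ℚ) / (1 : ℤ) := Multiplicative.ofAdd.injective h3
  rw [Int.cast_one, div_one] at h4
  exact hj₀ (by exact_mod_cast h4.symm)

/-- **The class of split groups.** -/
theorem split_all (hT : T.IsTree)
    (hadj : ∀ (γ : Γ) (x y : V), T.Adj x y → T.Adj (γ • x) (γ • y))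
    (hvc : ∀ x y : V, T.Adj x y → VCyc (St Γ x y))
    (hsp : ∀ v : V, SplitGroup (MulAction.stabilizer Γ v)) : SplitGroup Γ := by
  intro c hc
  by_cases h0 : ∀ (k : ℤ) (x : V), k ≠ 0 → c ^ k • x ≠ x
  · obtain ⟨Φ, hΦ⟩ := hyp_char hT hadj h0
    have h1 : c ^ (1 : ℤ) ∈ VCent c ⊓ (⊤ : Subgroup Γ) :=
      ⟨⟨1, one_ne_zero, Commute.zpow_zpow_self c _ 1⟩, Subgroup.mem_top _⟩
    refine ⟨Φ.comp (Subgroup.inclusion inf_le_left), 1, h1, ?_⟩
    have h2 : c ∈ VCent c := by
      have := h1.1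
      rwa [zpow_one] at this
    have h3 : Subgroup.inclusion (inf_le_left : VCent c ⊓ (⊤ : Subgroup Γ) ≤ VCent c)
        ⟨c ^ (1 : ℤ), h1⟩ = ⟨c, h2⟩ := Subtype.ext (zpow_one c)
    change Φ (Subgroup.inclusion _ ⟨c ^ (1 : ℤ), h1⟩) ≠ 1
    rw [h3]
    exact hΦ h2
  · push Not at h0
    obtain ⟨j, v, hj, hjv⟩ := h0
    obtain ⟨Φ, hΦ⟩ := ell_char hT hadj hvc hc
      (fun w i hi hw => vsplit_of_group (hsp w) hc hi hw) hj hjv
    have h1 : c ^ j ∈ VCent c ⊓ (⊤ : Subgroup Γ) :=
      ⟨⟨1, one_ne_zero, Commute.zpow_zpow_self c _ 1⟩, Subgroup.mem_top _⟩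
    exact ⟨Φ.comp (Subgroup.inclusion inf_le_left), j, h1, hΦ h1.1⟩

end Pool.Agent.Q152.TC
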